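import Mathlib

/-!
# Expansion of the closure of a monomial
-/

namespace Pool.Agent.H51.ADG

/-- the moments of a closed walk -/
def Mo {S : Type*} [CommRing S] (a b : Fin 4 → S) (r s : ℕ) : S :=
  ∑ j, (a j ^ r - a (j + 1) ^ r) * b j ^ s

/-- the scaled closure of the monomial `x ^ k * y ^ l` -/
def Dh {S : Type*} [CommRing S] (e : S) (a b : Fin 4 → S) (k l : ℕ) : S :=
  ∑ j, ((1 + e * a j) ^ k - (1 + e * a (j + 1)) ^ k) * (1 + e * b j) ^ l

theorem one_add_pow4 {S : Type*} [CommRing S] (e x : S) (k : ℕ) :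
    ∃ r : S, (1 + e * x) ^ k = 1 + e * ((k : S) * x + e * ((k.choose 2 : ℕ) * x ^ 2) +
      e ^ 2 * ((k.choose 3 : ℕ) * x ^ 3) + e ^ 3 * r) := by
  induction k with
  | zero => exact ⟨0, by simp⟩
  | succ k ih =>
    obtain ⟨r, hr⟩ := ih
    refine ⟨r * (1 + e * x) + (k.choose 3 : ℕ) * x ^ 4, ?_⟩
    rw [pow_succ, hr, Nat.choose_succ_succ' k 1, Nat.choose_succ_succ' k 2, Nat.choose_one_right]
    push_cast
    ring

theorem sum_tele {S : Type*} [CommRing S] (c : Fin 4 → S) : ∑ j, (c j - c (j + 1)) = 0 := by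
  simp only [Fin.sum_univ_four, Fin.isValue]
  have h1 : (0 : Fin 4) + 1 = 1 := rfl
  have h2 : (1 : Fin 4) + 1 = 2 := rfl
  have h3 : (2 : Fin 4) + 1 = 3 := rfl
  have h4 : (3 : Fin 4) + 1 = 0 := rfl
  rw [h1, h2, h3, h4]
  ring

theorem Dh_zero_left {S : Type*} [CommRing S] (e : S) (a b : Fin 4 → S) (l : ℕ) :
    Dh e a b 0 l = 0 := by
  simp [Dh]

theorem Dh_zero_right {S : Type*} [CommRing S] (e : S) (a b : Fin 4 → S) (k : ℕ) :
    Dh e a b k 0 = 0 := by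
  simp only [Dh, pow_zero, mul_one]
  exact sum_tele fun j => (1 + e * a j) ^ k

theorem Dh_exp {S : Type*} [CommRing S] (e : S) (a b : Fin 4 → S) (k l : ℕ) :
    ∃ r : S, Dh e a b k l = e ^ 2 * ((k : S) * (l : S) * Mo a b 1 1) +
      e ^ 3 * ((k.choose 2 : ℕ) * (l : S) * Mo a b 2 1 + (k : S) * (l.choose 2 : ℕ) * Mo a b 1 2) +
      e ^ 4 * ((k.choose 3 : ℕ) * (l : S) * Mo a b 3 1 +
        (k.choose 2 : ℕ) * (l.choose 2 : ℕ) * Mo a b 2 2 +
        (k : S) * (l.choose 3 : ℕ) * Mo a b 1 3) + e ^ 5 * r := by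
  choose ra hra using fun j => one_add_pow4 e (a j) k
  choose rb hrb using fun j => one_add_pow4 e (b j) l
  have h0 : Dh e a b k l = e ^ 2 * ∑ j,
      ((((k : S) * a j + e * ((k.choose 2 : ℕ) * a j ^ 2) +
        e ^ 2 * ((k.choose 3 : ℕ) * a j ^ 3) + e ^ 3 * ra j) -
      ((k : S) * a (j + 1) + e * ((k.choose 2 : ℕ) * a (j + 1) ^ 2) +
        e ^ 2 * ((k.choose 3 : ℕ) * a (j + 1) ^ 3) + e ^ 3 * ra (j + 1))) *
      ((l : S) * b j + e * ((l.choose 2 : ℕ) * b j ^ 2) +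
        e ^ 2 * ((l.choose 3 : ℕ) * b j ^ 3) + e ^ 3 * rb j)) := by
    have h1 := sum_tele fun j => (1 + e * a j) ^ k
    have h2 : Dh e a b k l = Dh e a b k l - ∑ j, ((1 + e * a j) ^ k - (1 + e * a (j + 1)) ^ k) := by
      rw [h1, sub_zero]
    rw [h2, Dh, ← Finset.sum_sub_distrib, Finset.mul_sum]
    refine Finset.sum_congr rfl fun j _ => ?_
    rw [hra j, hra (j + 1), hrb j]
    ring
  set c2 : S := ((k.choose 2 : ℕ) : S)
  set c3 : S := ((k.choose 3 : ℕ) : S)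
  set d2 : S := ((l.choose 2 : ℕ) : S)
  set d3 : S := ((l.choose 3 : ℕ) : S)
  refine ⟨∑ j, (((k : S) * (a j - a (j + 1))) * rb j +
      (c2 * (a j ^ 2 - a (j + 1) ^ 2)) * (d3 * b j ^ 3 + e * rb j) +
      (c3 * (a j ^ 3 - a (j + 1) ^ 3)) * (d2 * b j ^ 2 + e * (d3 * b j ^ 3) + e ^ 2 * rb j) +
      (ra j - ra (j + 1)) * ((l : S) * b j + e * (d2 * b j ^ 2) + e ^ 2 * (d3 * b j ^ 3) +
        e ^ 3 * rb j)), ?_⟩
  rw [h0]
  simp only [Mo, Finset.mul_sum, ← Finset.sum_add_distrib]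
  refine Finset.sum_congr rfl fun j _ => ?_
  ring

/-- naturality -/
theorem map_Mo {S T : Type*} [CommRing S] [CommRing T] (φ : S →+* T) (a b : Fin 4 → S) (r s : ℕ) :
    φ (Mo a b r s) = Mo (fun j => φ (a j)) (fun j => φ (b j)) r s := by
  simp [Mo]

/-- naturality -/
theorem map_Dh {S T : Type*} [CommRing S] [CommRing T] (φ : S →+* T) (e : S) (a b : Fin 4 → S)
    (k l : ℕ) :
    φ (Dh e a b k l) = Dh (φ e) (fun j => φ (a j)) (fun j => φ (b j)) k l := by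
  simp [Dh]

end Pool.Agent.H51.ADG
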