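import Pool.Agent.H51.ADG.Newton
import Pool.Agent.H51.ADG.Exp

/-!
# Transversal zeros of the limit systems
-/

open MvPolynomial

namespace Pool.Agent.H51.ADG

/-- the index set of the unknowns -/
abbrev Sg : Type := Fin 4 ⊕ Fin 4

/-- the ring of polynomials in `e` and the unknowns -/
abbrev Pk (k : Type*) [Field k] : Type _ := MvPolynomial (Option Sg) k

/-- the first unknowns -/
noncomputable def va (k : Type*) [Field k] (j : Fin 4) : Pk k := X (some (Sum.inl j))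

/-- the second unknowns -/
noncomputable def vb (k : Type*) [Field k] (j : Fin 4) : Pk k := X (some (Sum.inr j))

/-- the derivative of a moment -/
def dMo {S : Type*} [CommRing S] (a b : Fin 4 → S) (r s : ℕ) (da db : Fin 4 → S) : S :=
  ∑ j, ((((r : ℕ) : S) * a j ^ (r - 1) * da j - ((r : ℕ) : S) * a (j + 1) ^ (r - 1) * da (j + 1)) *
    b j ^ s + (a j ^ r - a (j + 1) ^ r) * (((s : ℕ) : S) * b j ^ (s - 1) * db j))

/-- the derivative of a moment with respect to an unknown -/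
def pMo {S : Type*} [CommRing S] (a b : Fin 4 → S) (r s : ℕ) (t : Sg) : S :=
  dMo a b r s (fun j => if t = Sum.inl j then 1 else 0) (fun j => if t = Sum.inr j then 1 else 0)

theorem eval_Mo {k : Type*} [Field k] (a b : Fin 4 → k) (r s : ℕ) :
    eval (pt 0 (Sum.elim a b)) (Mo (va k) (vb k) r s) = Mo a b r s := by
  have h := map_Mo (eval (pt 0 (Sum.elim a b))) (va k) (vb k) r s
  rw [h]
  simp [va, vb, pt]

theorem eval_pMo {k : Type*} [Field k] (a b : Fin 4 → k) (r s : ℕ) (t : Sg) :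
    eval (pt 0 (Sum.elim a b)) (pderiv (some t) (Mo (va k) (vb k) r s)) = pMo a b r s t := by
  set z0 : Sg → k := Sum.elim a b with hz0
  simp only [Mo, pMo, dMo, map_sum, pderiv_mul, map_add, map_mul, map_sub, pderiv_pow, va, vb,
    pderiv_X, map_pow, eval_X, pt, Option.elim]
  refine Finset.sum_congr rfl fun j _ => ?_
  have h1 : ∀ o : Sg, eval (pt 0 z0) ((Pi.single (some t) 1 : Option Sg → Pk k) (some o)) =
      if t = o then 1 else 0 := by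
    intro o
    rw [Pi.single_apply]
    by_cases h : t = o
    · subst h
      simp
    · have h' : (some o : Option Sg) ≠ some t := fun h2 => h (Option.some.inj h2).symm
      simp [h, h']
  have h2 : ∀ n : ℕ, eval (pt 0 z0) ((n : ℕ) : Pk k) = (n : k) := fun n => map_natCast _ n
  rw [h1, h1, h1, h2, h2]
  simp [hz0]

/-- a combination of six moments -/
noncomputable def Lc {k : Type*} [Field k] (c : Fin 6 → k) : Pk k :=
  C (c 0) * Mo (va k) (vb k) 1 1 + C (c 1) * Mo (va k) (vb k) 2 1 + C (c 2) * Mo (va k) (vb k) 1 2 +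
    C (c 3) * Mo (va k) (vb k) 3 1 + C (c 4) * Mo (va k) (vb k) 2 2 + C (c 5) * Mo (va k) (vb k) 1 3

/-- a combination of six moments -/
def Lv {k : Type*} [Field k] (a b : Fin 4 → k) (c : Fin 6 → k) : k :=
  c 0 * Mo a b 1 1 + c 1 * Mo a b 2 1 + c 2 * Mo a b 1 2 +
    c 3 * Mo a b 3 1 + c 4 * Mo a b 2 2 + c 5 * Mo a b 1 3

/-- a combination of derivatives of six moments -/
def dLv {k : Type*} [Field k] (a b : Fin 4 → k) (c : Fin 6 → k) (t : Sg) : k :=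
  c 0 * pMo a b 1 1 t + c 1 * pMo a b 2 1 t + c 2 * pMo a b 1 2 t +
    c 3 * pMo a b 3 1 t + c 4 * pMo a b 2 2 t + c 5 * pMo a b 1 3 t

theorem eval_Lc {k : Type*} [Field k] (a b : Fin 4 → k) (c : Fin 6 → k) (Q : Pk k) :
    eval (pt 0 (Sum.elim a b)) (Lc c + X none * Q) = Lv a b c := by
  have h : eval (pt 0 (Sum.elim a b)) (X none : Pk k) = 0 := by simp [pt]
  simp only [Lc, Lv, map_add, map_mul, h, eval_C, eval_Mo]
  ring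

theorem eval_dLc {k : Type*} [Field k] (a b : Fin 4 → k) (c : Fin 6 → k) (Q : Pk k) (t : Sg) :
    eval (pt 0 (Sum.elim a b)) (pderiv (some t) (Lc c + X none * Q)) = dLv a b c t := by
  have h : eval (pt 0 (Sum.elim a b)) (X none : Pk k) = 0 := by simp [pt]
  have h' : eval (pt 0 (Sum.elim a b)) ((Pi.single (some t) 1 : Option Sg → Pk k) none) = 0 := by
    rw [Pi.single_eq_of_ne (by simp), map_zero]
  simp only [Lc, dLv, map_add, pderiv_mul, pderiv_C, pderiv_X, map_mul, h, h', eval_C, eval_pMo,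
    map_zero]
  ring

/-- the lifting lemma for combinations of moments -/
theorem fin_core {k K : Type*} [Field k] [Field K] [Algebra k K] [IsAlgClosed K]
    (F Q : Fin 3 → Pk k) (n : Fin 3 → ℕ) (c : Fin 3 → Fin 6 → k)
    (hF : ∀ i, F i = X none ^ n i * (Lc (c i) + X none * Q i)) (a b : Fin 4 → k) (s : Fin 3 → Sg)
    (hz : ∀ i, Lv a b (c i) = 0)
    (hdet : (Matrix.of fun i j => dLv a b (c i) (s j)).det ≠ 0)
    (H : Pk k) (hH : eval (pt 0 (Sum.elim a b)) H ≠ 0) :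
    ∃ (ε : K) (z : Sg → K), ε ≠ 0 ∧ (∀ i, aeval (pt ε z) (F i) = 0) ∧ aeval (pt ε z) H ≠ 0 := by
  refine lift_zero F (fun i => Lc (c i) + X none * Q i) n hF (Sum.elim a b) s
    (fun i => by rw [eval_Lc, hz i]) ?_ H hH
  have h : (Matrix.of fun i j => eval (pt 0 (Sum.elim a b)) (pderiv (some (s j))
      (Lc (c i) + X none * Q i))) = (Matrix.of fun i j => dLv a b (c i) (s j)) := by
    ext i j
    simp only [Matrix.of_apply]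
    exact eval_dLc a b (c i) (Q i) (s j)
  rw [h]
  exact hdet

theorem f1 : (0 : Fin 4) + 1 = 1 := rfl
theorem f2 : (1 : Fin 4) + 1 = 2 := rfl
theorem f3 : (2 : Fin 4) + 1 = 3 := rfl
theorem f4 : (3 : Fin 4) + 1 = 0 := rfl

/-- the first explicit configuration -/
def ax {S : Type*} [CommRing S] (c : S) : Fin 4 → S := ![3 * c, c, -3 * c, -c]

/-- the first explicit configuration -/
def bx {S : Type*} [CommRing S] (d : S) : Fin 4 → S := ![-2 * d, d, 2 * d, -d]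

theorem Mo_ex {S : Type*} [CommRing S] (c d : S) :
    Mo (ax c) (bx d) 1 1 = 0 ∧ Mo (ax c) (bx d) 2 1 = 0 ∧ Mo (ax c) (bx d) 1 2 = 0 ∧
    Mo (ax c) (bx d) 3 1 = -48 * c ^ 3 * d ∧ Mo (ax c) (bx d) 2 2 = 48 * c ^ 2 * d ^ 2 ∧
    Mo (ax c) (bx d) 1 3 = -24 * c * d ^ 3 := by
  refine ⟨?_, ?_, ?_, ?_, ?_, ?_⟩ <;>
  · simp only [Mo, ax, bx, Fin.sum_univ_four, f1, f2, f3, f4, Matrix.cons_val]
    ring

theorem pMo_ex {S : Type*} [CommRing S] (c d : S) :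
    (pMo (ax c) (bx d) 1 1 (Sum.inl 0) = -d ∧ pMo (ax c) (bx d) 1 1 (Sum.inr 0) = 2 * c ∧
      pMo (ax c) (bx d) 1 1 (Sum.inr 1) = 4 * c) ∧
    (pMo (ax c) (bx d) 2 1 (Sum.inl 0) = -6 * c * d ∧ pMo (ax c) (bx d) 2 1 (Sum.inr 0) = 8 * c ^ 2 ∧
      pMo (ax c) (bx d) 2 1 (Sum.inr 1) = -8 * c ^ 2) ∧
    (pMo (ax c) (bx d) 1 2 (Sum.inl 0) = 3 * d ^ 2 ∧ pMo (ax c) (bx d) 1 2 (Sum.inr 0) = -8 * c * d ∧
      pMo (ax c) (bx d) 1 2 (Sum.inr 1) = 8 * c * d) ∧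
    (pMo (ax c) (bx d) 3 1 (Sum.inl 0) = -27 * c ^ 2 * d ∧
      pMo (ax c) (bx d) 3 1 (Sum.inr 0) = 26 * c ^ 3 ∧
      pMo (ax c) (bx d) 3 1 (Sum.inr 1) = 28 * c ^ 3) ∧
    (pMo (ax c) (bx d) 2 2 (Sum.inl 0) = 18 * c * d ^ 2 ∧
      pMo (ax c) (bx d) 2 2 (Sum.inr 0) = -32 * c ^ 2 * d ∧
      pMo (ax c) (bx d) 2 2 (Sum.inr 1) = -16 * c ^ 2 * d) ∧
    (pMo (ax c) (bx d) 1 3 (Sum.inl 0) = -7 * d ^ 3 ∧
      pMo (ax c) (bx d) 1 3 (Sum.inr 0) = 24 * c * d ^ 2 ∧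
      pMo (ax c) (bx d) 1 3 (Sum.inr 1) = 12 * c * d ^ 2) := by
  refine ⟨⟨?_, ?_, ?_⟩, ⟨?_, ?_, ?_⟩, ⟨?_, ?_, ?_⟩, ⟨?_, ?_, ?_⟩, ⟨?_, ?_, ?_⟩, ⟨?_, ?_, ?_⟩⟩ <;>
  · simp only [pMo, dMo, ax, bx, Fin.sum_univ_four, f1, f2, f3, f4, Matrix.cons_val, Sum.inl.injEq,
      Sum.inr.injEq, reduceCtorEq, Fin.isValue, Fin.reduceEq, if_true, if_false]
    simp
    try ring

/-- the second explicit configuration -/
theorem Mo_ey {S : Type*} [CommRing S] :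
    Mo (![1, 0, 1, 0] : Fin 4 → S) ![0, 1, 3, 2] 1 1 = 0 ∧
    Mo (![1, 0, 1, 0] : Fin 4 → S) ![0, 1, 3, 2] 2 1 = 0 ∧
    Mo (![1, 0, 1, 0] : Fin 4 → S) ![0, 1, 3, 2] 3 1 = 0 := by
  refine ⟨?_, ?_, ?_⟩ <;>
  · simp only [Mo, Fin.sum_univ_four, f1, f2, f3, f4, Matrix.cons_val]
    ring

theorem pMo_ey {S : Type*} [CommRing S] :
    (pMo (![1, 0, 1, 0] : Fin 4 → S) ![0, 1, 3, 2] 1 1 (Sum.inl 0) = -2 ∧
      pMo (![1, 0, 1, 0] : Fin 4 → S) ![0, 1, 3, 2] 1 1 (Sum.inl 1) = 1 ∧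
      pMo (![1, 0, 1, 0] : Fin 4 → S) ![0, 1, 3, 2] 1 1 (Sum.inr 0) = 1) ∧
    (pMo (![1, 0, 1, 0] : Fin 4 → S) ![0, 1, 3, 2] 2 1 (Sum.inl 0) = -4 ∧
      pMo (![1, 0, 1, 0] : Fin 4 → S) ![0, 1, 3, 2] 2 1 (Sum.inl 1) = 0 ∧
      pMo (![1, 0, 1, 0] : Fin 4 → S) ![0, 1, 3, 2] 2 1 (Sum.inr 0) = 1) ∧
    (pMo (![1, 0, 1, 0] : Fin 4 → S) ![0, 1, 3, 2] 3 1 (Sum.inl 0) = -6 ∧
      pMo (![1, 0, 1, 0] : Fin 4 → S) ![0, 1, 3, 2] 3 1 (Sum.inl 1) = 0 ∧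
      pMo (![1, 0, 1, 0] : Fin 4 → S) ![0, 1, 3, 2] 3 1 (Sum.inr 0) = 1) := by
  refine ⟨⟨?_, ?_, ?_⟩, ⟨?_, ?_, ?_⟩, ⟨?_, ?_, ?_⟩⟩ <;>
  · simp only [pMo, dMo, Fin.sum_univ_four, f1, f2, f3, f4, Matrix.cons_val, Sum.inl.injEq,
      Sum.inr.injEq, reduceCtorEq, Fin.isValue, Fin.reduceEq, if_true, if_false]
    simp
    try ring

/-- the third explicit configuration -/
theorem Mo_ez {S : Type*} [CommRing S] :
    Mo (![0, 1, 3, 2] : Fin 4 → S) ![1, 0, 1, 0] 1 1 = 0 ∧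
    Mo (![0, 1, 3, 2] : Fin 4 → S) ![1, 0, 1, 0] 1 2 = 0 ∧
    Mo (![0, 1, 3, 2] : Fin 4 → S) ![1, 0, 1, 0] 1 3 = 0 := by
  refine ⟨?_, ?_, ?_⟩ <;>
  · simp only [Mo, Fin.sum_univ_four, f1, f2, f3, f4, Matrix.cons_val]
    ring

theorem pMo_ez {S : Type*} [CommRing S] :
    (pMo (![0, 1, 3, 2] : Fin 4 → S) ![1, 0, 1, 0] 1 1 (Sum.inl 0) = 1 ∧
      pMo (![0, 1, 3, 2] : Fin 4 → S) ![1, 0, 1, 0] 1 1 (Sum.inr 0) = -1 ∧
      pMo (![0, 1, 3, 2] : Fin 4 → S) ![1, 0, 1, 0] 1 1 (Sum.inr 1) = -2) ∧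
    (pMo (![0, 1, 3, 2] : Fin 4 → S) ![1, 0, 1, 0] 1 2 (Sum.inl 0) = 1 ∧
      pMo (![0, 1, 3, 2] : Fin 4 → S) ![1, 0, 1, 0] 1 2 (Sum.inr 0) = -2 ∧
      pMo (![0, 1, 3, 2] : Fin 4 → S) ![1, 0, 1, 0] 1 2 (Sum.inr 1) = 0) ∧
    (pMo (![0, 1, 3, 2] : Fin 4 → S) ![1, 0, 1, 0] 1 3 (Sum.inl 0) = 1 ∧
      pMo (![0, 1, 3, 2] : Fin 4 → S) ![1, 0, 1, 0] 1 3 (Sum.inr 0) = -3 ∧
      pMo (![0, 1, 3, 2] : Fin 4 → S) ![1, 0, 1, 0] 1 3 (Sum.inr 1) = 0) := by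
  refine ⟨⟨?_, ?_, ?_⟩, ⟨?_, ?_, ?_⟩, ⟨?_, ?_, ?_⟩⟩ <;>
  · simp only [pMo, dMo, Fin.sum_univ_four, f1, f2, f3, f4, Matrix.cons_val, Sum.inl.injEq,
      Sum.inr.injEq, reduceCtorEq, Fin.isValue, Fin.reduceEq, if_true, if_false]
    simp
    try ring

end Pool.Agent.H51.ADG
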