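import Mathlib

/-!
# Distinct leading monomials
-/

namespace Pool.Agent.H51.ADG

/-- elimination: functions with distinct leading positions whose span contains given functions -/
theorem ech {k : Type*} [Field k] (r : ℕ) : ∀ S : Finset ℕ, r ≤ S.card → ∀ u : Fin r → ℕ → k,
    (∀ i m, m ∉ S → u i m = 0) → ∃ (m : Fin r → ℕ) (g : Fin r → ℕ → k), Function.Injective m ∧
      (∀ i, m i ∈ S) ∧ (∀ i n, n ∉ S → g i n = 0) ∧ (∀ i, g i (m i) = 1) ∧
      (∀ i n, m i < n → g i n = 0) ∧ ∀ i, ∃ c : Fin r → k, ∀ n, u i n = ∑ j, c j * g j n := by
  classical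
  induction r with
  | zero =>
    intro S _ u _
    exact ⟨fun i => i.elim0, fun i => i.elim0, fun i => i.elim0, fun i => i.elim0,
      fun i => i.elim0, fun i => i.elim0, fun i => i.elim0, fun i => i.elim0⟩
  | succ r ih =>
    intro S hS u hu
    by_cases hz : ∀ i m, u i m = 0
    · obtain ⟨n0, hn0⟩ : S.Nonempty := Finset.card_pos.1 (by omega)
      obtain ⟨m', g', hinj, hmS, hgS, hg1, hg2, -⟩ := ih (S.erase n0)
        (by rw [Finset.card_erase_of_mem hn0]; omega) (fun _ _ => 0) (fun _ _ _ => rfl)
      refine ⟨Fin.cons n0 m', Fin.cons (fun n => if n = n0 then 1 else 0) g', ?_, ?_, ?_, ?_, ?_,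
        ?_⟩
      · rw [Fin.cons_injective_iff]
        refine ⟨?_, hinj⟩
        rintro ⟨i, hi⟩
        have := hmS i
        rw [hi] at this
        simp at this
      · intro i
        refine Fin.cases ?_ (fun j => ?_) i
        · simpa using hn0
        · simpa using Finset.mem_of_mem_erase (hmS j)
      · intro i n hn
        refine Fin.cases ?_ (fun j => ?_) i
        · have : n ≠ n0 := fun h => hn (h ▸ hn0)
          simp [this]
        · simpa using hgS j n (fun h => hn (Finset.mem_of_mem_erase h))
      · intro i
        refine Fin.cases ?_ (fun j => ?_) i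
        · simp
        · simpa using hg1 j
      · intro i n
        refine Fin.cases ?_ (fun j => ?_) i
        · intro hn
          have : n ≠ n0 := by
            simp only [Fin.cons_zero] at hn
            omega
          simp [this]
        · simpa using hg2 j n
      · intro i
        exact ⟨0, fun n => by simp [hz i n]⟩
    · push Not at hz
      obtain ⟨i1, m1, hi1⟩ := hz
      have hTne : (S.filter fun n => ∃ i, u i n ≠ 0).Nonempty := by
        refine ⟨m1, Finset.mem_filter.2 ⟨?_, i1, hi1⟩⟩
        by_contra h
        exact hi1 (hu i1 m1 h)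
      obtain ⟨n0, hn0T, hmax⟩ := Finset.exists_max_image _ (fun n : ℕ => n) hTne
      obtain ⟨hn0, i0, hi0⟩ := Finset.mem_filter.1 hn0T
      have hlarge : ∀ i n, n0 < n → u i n = 0 := by
        intro i n hn
        by_contra h
        have h1 : n ∈ S := by
          by_contra h2
          exact h (hu i n h2)
        have h2 : n ≤ n0 := hmax n (Finset.mem_filter.2 ⟨h1, i, h⟩)
        omega
      set g0 : ℕ → k := fun n => (u i0 n0)⁻¹ * u i0 n with hg0
      have hg01 : g0 n0 = 1 := inv_mul_cancel₀ hi0
      obtain ⟨m', g', hinj, hmS, hgS, hg1, hg2, hc⟩ := ih (S.erase n0)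
        (by rw [Finset.card_erase_of_mem hn0]; omega)
        (fun j n => u (i0.succAbove j) n - u (i0.succAbove j) n0 * g0 n) (by
          intro j n hn
          by_cases h : n = n0
          · subst h
            simp [hg01]
          · have h1 : n ∉ S := fun h2 => hn (Finset.mem_erase.2 ⟨h, h2⟩)
            simp [hg0, hu _ n h1])
      refine ⟨Fin.cons n0 m', Fin.cons g0 g', ?_, ?_, ?_, ?_, ?_, ?_⟩
      · rw [Fin.cons_injective_iff]
        refine ⟨?_, hinj⟩
        rintro ⟨i, hi⟩
        have := hmS i
        rw [hi] at this
        simp at this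
      · intro i
        refine Fin.cases ?_ (fun j => ?_) i
        · simpa using hn0
        · simpa using Finset.mem_of_mem_erase (hmS j)
      · intro i n hn
        refine Fin.cases ?_ (fun j => ?_) i
        · simp [hg0, hu i0 n hn]
        · simpa using hgS j n (fun h => hn (Finset.mem_of_mem_erase h))
      · intro i
        refine Fin.cases ?_ (fun j => ?_) i
        · simpa using hg01
        · simpa using hg1 j
      · intro i n
        refine Fin.cases ?_ (fun j => ?_) i
        · intro hn
          simp only [Fin.cons_zero] at hn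
          simp [hg0, hlarge i0 n hn]
        · simpa using hg2 j n
      · intro i
        rcases Fin.eq_self_or_eq_succAbove i0 i with rfl | ⟨j, rfl⟩
        · refine ⟨Fin.cons (u i n0) 0, fun n => ?_⟩
          rw [Fin.sum_univ_succ]
          simp [hg0, mul_inv_cancel_left₀ hi0]
        · obtain ⟨c, hc⟩ := hc j
          refine ⟨Fin.cons (u (i0.succAbove j) n0) c, fun n => ?_⟩
          rw [Fin.sum_univ_succ]
          simp only [Fin.cons_zero, Fin.cons_succ]
          rw [← hc n]
          ring

end Pool.Agent.H51.ADG
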