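import Pool.Agent.H51.ADG.Scale

/-!
# Algebraically defined graphs and their closed walks
-/

open MvPolynomial

namespace Pool.Agent.H51.ADG

/-- the algebraically defined graph of `f`: points `(a, v)`, lines `(b, w)`, and `(a, v)` is
adjacent to `(b, w)` if and only if `v i + w i = f i (a, b)` for all `i` -/
def Gam {R : Type*} [CommRing R] {m : ℕ} (f : Fin m → MvPolynomial (Fin 2) R) :
    SimpleGraph ((R × (Fin m → R)) ⊕ (R × (Fin m → R))) where
  Adj s t := match s, t with
    | Sum.inl P, Sum.inr L => ∀ i, P.2 i + L.2 i = eval ![P.1, L.1] (f i)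
    | Sum.inr L, Sum.inl P => ∀ i, P.2 i + L.2 i = eval ![P.1, L.1] (f i)
    | _, _ => False
  symm := ⟨by
    rintro (P | L) (P' | L') h
    · exact h
    · exact h
    · exact h
    · exact h⟩
  loopless := ⟨by
    rintro (P | L) h
    · exact h
    · exact h⟩

theorem adj_pl {R : Type*} [CommRing R] {m : ℕ} (f : Fin m → MvPolynomial (Fin 2) R)
    (P L : R × (Fin m → R)) (h : ∀ i, P.2 i + L.2 i = eval ![P.1, L.1] (f i)) :
    (Gam f).Adj (Sum.inl P) (Sum.inr L) := h

/-- the vertices of a closed walk of length eight form an eight-cycle -/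
theorem cyc {R : Type*} [CommRing R] {m : ℕ} (f : Fin m → MvPolynomial (Fin 2) R) (a b : Fin 4 → R)
    (ha : ∀ j, a j ≠ a (j + 1)) (hb : ∀ j, b j ≠ b (j + 1))
    (hΔ : ∀ i, ∑ j, (eval ![a j, b j] (f i) - eval ![a (j + 1), b j] (f i)) = 0)
    (hsq : ∀ (j j' : Fin 4), (a 0 ≠ a 2 ∧ a 1 ≠ a 3 ∧ b 0 ≠ b 2 ∧ b 1 ≠ b 3) ∨
      ∃ i, eval ![a j, b j'] (f i) - eval ![a (j + 1), b j'] (f i) +
        eval ![a (j + 1), b (j' + 1)] (f i) - eval ![a j, b (j' + 1)] (f i) ≠ 0) :
    (SimpleGraph.cycleGraph 8).IsContained (Gam f) := by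
  set F : Fin m → R → R → R := fun i x y => eval ![x, y] (f i) with hF
  have hΔ' : ∀ i, (F i (a 0) (b 0) - F i (a 1) (b 0)) + (F i (a 1) (b 1) - F i (a 2) (b 1)) +
      (F i (a 2) (b 2) - F i (a 3) (b 2)) + (F i (a 3) (b 3) - F i (a 0) (b 3)) = 0 := by
    intro i
    have h := hΔ i
    rw [Fin.sum_univ_four] at h
    exact h
  -- the second coordinates
  set v1 : Fin m → R := fun i => - (F i (a 0) (b 0) - F i (a 1) (b 0)) with hv1
  set v2 : Fin m → R := fun i => v1 i - (F i (a 1) (b 1) - F i (a 2) (b 1)) with hv2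
  set v3 : Fin m → R := fun i => v2 i - (F i (a 2) (b 2) - F i (a 3) (b 2)) with hv3
  set P : Fin 4 → R × (Fin m → R) := ![(a 0, 0), (a 1, v1), (a 2, v2), (a 3, v3)] with hP
  set L : Fin 4 → R × (Fin m → R) := ![(b 0, fun i => F i (a 0) (b 0)),
    (b 1, fun i => F i (a 1) (b 1) - v1 i), (b 2, fun i => F i (a 2) (b 2) - v2 i),
    (b 3, fun i => F i (a 3) (b 3) - v3 i)] with hL
  have h00 : (Gam f).Adj (Sum.inl (P 0)) (Sum.inr (L 0)) := adj_pl f _ _ fun i => by
    simp [hP, hL, hF]
  have h11 : (Gam f).Adj (Sum.inl (P 1)) (Sum.inr (L 1)) := adj_pl f _ _ fun i => by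
    simp [hP, hL, hF]
  have h22 : (Gam f).Adj (Sum.inl (P 2)) (Sum.inr (L 2)) := adj_pl f _ _ fun i => by
    simp [hP, hL, hF]
  have h33 : (Gam f).Adj (Sum.inl (P 3)) (Sum.inr (L 3)) := adj_pl f _ _ fun i => by
    simp [hP, hL, hF]
  have h10 : (Gam f).Adj (Sum.inl (P 1)) (Sum.inr (L 0)) := adj_pl f _ _ fun i => by
    simp only [hP, hL, hv1, Matrix.cons_val]
    change _ = F i (a 1) (b 0)
    ring
  have h21 : (Gam f).Adj (Sum.inl (P 2)) (Sum.inr (L 1)) := adj_pl f _ _ fun i => by
    simp only [hP, hL, hv2, Matrix.cons_val]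
    change _ = F i (a 2) (b 1)
    ring
  have h32 : (Gam f).Adj (Sum.inl (P 3)) (Sum.inr (L 2)) := adj_pl f _ _ fun i => by
    simp only [hP, hL, hv3, Matrix.cons_val]
    change _ = F i (a 3) (b 2)
    ring
  have h03 : (Gam f).Adj (Sum.inl (P 0)) (Sum.inr (L 3)) := adj_pl f _ _ fun i => by
    simp only [hP, hL, hv1, hv2, hv3, Matrix.cons_val, Pi.zero_apply]
    change _ = F i (a 0) (b 3)
    linear_combination hΔ' i
  -- distinctness
  have n01 : P 0 ≠ P 1 := fun h => ha 0 (congrArg Prod.fst h)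
  have n12 : P 1 ≠ P 2 := fun h => ha 1 (congrArg Prod.fst h)
  have n23 : P 2 ≠ P 3 := fun h => ha 2 (congrArg Prod.fst h)
  have n30 : P 3 ≠ P 0 := fun h => ha 3 (congrArg Prod.fst h)
  have m01 : L 0 ≠ L 1 := fun h => hb 0 (congrArg Prod.fst h)
  have m12 : L 1 ≠ L 2 := fun h => hb 1 (congrArg Prod.fst h)
  have m23 : L 2 ≠ L 3 := fun h => hb 2 (congrArg Prod.fst h)
  have m30 : L 3 ≠ L 0 := fun h => hb 3 (congrArg Prod.fst h)
  have n02 : P 0 ≠ P 2 := by
    intro h
    have h1 : a 0 = a 2 := congrArg Prod.fst h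
    rcases hsq 0 0 with h2 | ⟨i, h2⟩
    · exact h2.1 h1
    · have h3 : (0 : R) = v2 i := congrFun (congrArg Prod.snd h) i
      apply h2
      change F i (a 0) (b 0) - F i (a 1) (b 0) + F i (a 1) (b 1) - F i (a 0) (b 1) = 0
      simp only [hv2, hv1, ← h1] at h3
      linear_combination h3
  have n13 : P 1 ≠ P 3 := by
    intro h
    have h1 : a 1 = a 3 := congrArg Prod.fst h
    rcases hsq 1 1 with h2 | ⟨i, h2⟩
    · exact h2.2.1 h1
    · have h3 : v1 i = v3 i := congrFun (congrArg Prod.snd h) i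
      apply h2
      change F i (a 1) (b 1) - F i (a 2) (b 1) + F i (a 2) (b 2) - F i (a 1) (b 2) = 0
      simp only [hv3, hv2, ← h1] at h3
      linear_combination h3
  have m02 : L 0 ≠ L 2 := by
    intro h
    have h1 : b 0 = b 2 := congrArg Prod.fst h
    rcases hsq 1 0 with h2 | ⟨i, h2⟩
    · exact h2.2.2.1 h1
    · have h3 : F i (a 0) (b 0) = F i (a 2) (b 2) - v2 i := congrFun (congrArg Prod.snd h) i
      apply h2
      change F i (a 1) (b 0) - F i (a 2) (b 0) + F i (a 2) (b 1) - F i (a 1) (b 1) = 0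
      simp only [hv2, hv1, ← h1] at h3
      linear_combination h3
  have m13 : L 1 ≠ L 3 := by
    intro h
    have h1 : b 1 = b 3 := congrArg Prod.fst h
    rcases hsq 2 1 with h2 | ⟨i, h2⟩
    · exact h2.2.2.2 h1
    · have h3 : F i (a 1) (b 1) - v1 i = F i (a 3) (b 3) - v3 i :=
        congrFun (congrArg Prod.snd h) i
      apply h2
      change F i (a 2) (b 1) - F i (a 3) (b 1) + F i (a 3) (b 2) - F i (a 2) (b 2) = 0
      simp only [hv3, hv2, ← h1] at h3
      linear_combination h3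
  set V : Fin 8 → (R × (Fin m → R)) ⊕ (R × (Fin m → R)) :=
    ![Sum.inl (P 0), Sum.inr (L 0), Sum.inl (P 1), Sum.inr (L 1), Sum.inl (P 2), Sum.inr (L 2),
      Sum.inl (P 3), Sum.inr (L 3)] with hV
  have hadj : ∀ i : Fin 8, (Gam f).Adj (V i) (V (i + 1)) := by
    intro i
    fin_cases i
    · exact h00
    · exact h10.symm
    · exact h11
    · exact h21.symm
    · exact h22
    · exact h32.symm
    · exact h33
    · exact h03.symm
  have hinj : Function.Injective V := by
    intro i j hij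
    fin_cases i <;> fin_cases j <;>
      first
      | rfl
      | (exfalso
         first
         | exact Sum.inl_ne_inr hij
         | exact Sum.inr_ne_inl hij
         | exact n01 (Sum.inl.inj hij)
         | exact n12 (Sum.inl.inj hij)
         | exact n23 (Sum.inl.inj hij)
         | exact n30 (Sum.inl.inj hij)
         | exact n02 (Sum.inl.inj hij)
         | exact n13 (Sum.inl.inj hij)
         | exact n01 (Sum.inl.inj hij).symm
         | exact n12 (Sum.inl.inj hij).symm
         | exact n23 (Sum.inl.inj hij).symm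
         | exact n30 (Sum.inl.inj hij).symm
         | exact n02 (Sum.inl.inj hij).symm
         | exact n13 (Sum.inl.inj hij).symm
         | exact m01 (Sum.inr.inj hij)
         | exact m12 (Sum.inr.inj hij)
         | exact m23 (Sum.inr.inj hij)
         | exact m30 (Sum.inr.inj hij)
         | exact m02 (Sum.inr.inj hij)
         | exact m13 (Sum.inr.inj hij)
         | exact m01 (Sum.inr.inj hij).symm
         | exact m12 (Sum.inr.inj hij).symm
         | exact m23 (Sum.inr.inj hij).symm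
         | exact m30 (Sum.inr.inj hij).symm
         | exact m02 (Sum.inr.inj hij).symm
         | exact m13 (Sum.inr.inj hij).symm)
  refine ⟨⟨⟨V, ?_⟩, hinj⟩⟩
  intro i j hij
  rw [SimpleGraph.cycleGraph_adj] at hij
  rcases hij with h | h
  · have h1 : i = j + 1 := sub_eq_iff_eq_add'.1 h
    rw [h1]
    exact (hadj j).symm
  · have h1 : j = i + 1 := sub_eq_iff_eq_add'.1 h
    rw [h1]
    exact hadj i

end Pool.Agent.H51.ADG
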