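import Pool.Agent.H51.ADG.Graph

/-!
# From polynomials to coefficient functions
-/

open MvPolynomial

namespace Pool.Agent.H51.ADG

/-- the exponent with code `n` -/
noncomputable def dd (D n : ℕ) : Fin 2 →₀ ℕ :=
  Finsupp.single 0 (n / (D + 1)) + Finsupp.single 1 (n % (D + 1))

theorem dd_zero (D n : ℕ) : dd D n 0 = n / (D + 1) := by simp [dd]

theorem dd_one (D n : ℕ) : dd D n 1 = n % (D + 1) := by simp [dd]

/-- the mixed coefficients -/
noncomputable def uc {R : Type*} [CommRing R] (D : ℕ) (f : MvPolynomial (Fin 2) R) (n : ℕ) : R :=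
  if n ∈ Smix D then coeff (dd D n) f else 0

theorem poly_sum {R : Type*} [CommRing R] (D : ℕ) (f : MvPolynomial (Fin 2) R)
    (hf : ∀ j, f.degreeOf j ≤ D) :
    f = ∑ n ∈ Finset.range ((D + 1) * (D + 1)), monomial (dd D n) (coeff (dd D n) f) := by
  classical
  ext e
  rw [coeff_sum]
  simp only [coeff_monomial]
  by_cases he : e 0 ≤ D ∧ e 1 ≤ D
  · have hdiv : ((D + 1) * e 0 + e 1) / (D + 1) = e 0 := by
      rw [Nat.mul_add_div (by omega), Nat.div_eq_of_lt (by omega), add_zero]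
    have hmod : ((D + 1) * e 0 + e 1) % (D + 1) = e 1 := by
      rw [Nat.mul_add_mod, Nat.mod_eq_of_lt (by omega)]
    have hdd : dd D ((D + 1) * e 0 + e 1) = e := by
      ext j
      fin_cases j
      · exact (dd_zero _ _).trans hdiv
      · exact (dd_one _ _).trans hmod
    rw [Finset.sum_eq_single ((D + 1) * e 0 + e 1)]
    · rw [hdd, if_pos rfl]
    · intro n _ hne
      rw [if_neg]
      intro h
      apply hne
      have h1 := DFunLike.congr_fun h 0
      have h2 := DFunLike.congr_fun h 1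
      rw [dd_zero] at h1
      rw [dd_one] at h2
      rw [← h1, ← h2]
      exact (Nat.div_add_mod n (D + 1)).symm
    · intro h
      exfalso
      apply h
      rw [Finset.mem_range]
      nlinarith [he.1, he.2]
  · have h0 : coeff e f = 0 := by
      by_contra h
      have hs : e ∈ f.support := mem_support_iff.2 h
      exact he ⟨(le_degreeOf_of_mem_support 0 hs).trans (hf 0),
        (le_degreeOf_of_mem_support 1 hs).trans (hf 1)⟩
    rw [h0]
    symm
    refine Finset.sum_eq_zero fun n _ => ?_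
    split_ifs with h
    · rw [h, h0]
    · rfl

theorem eval_map_sum {R S : Type*} [CommRing R] [CommRing S] (D : ℕ) (f : MvPolynomial (Fin 2) R)
    (hf : ∀ j, f.degreeOf j ≤ D) (φ : R →+* S) (x y : S) :
    eval ![x, y] (map φ f) = ∑ n ∈ Finset.range ((D + 1) * (D + 1)),
      φ (coeff (dd D n) f) * (x ^ (n / (D + 1)) * y ^ (n % (D + 1))) := by
  conv_lhs => rw [poly_sum D f hf]
  rw [map_sum, map_sum]
  refine Finset.sum_congr rfl fun n _ => ?_
  rw [map_monomial, eval_monomial, Finsupp.prod_fintype _ _ (fun i => pow_zero _),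
    Fin.prod_univ_two, dd_zero, dd_one]
  simp

theorem sum_range_Smix {S : Type*} [CommRing S] (D : ℕ) (h : ℕ → S)
    (h0 : ∀ n, n / (D + 1) = 0 → h n = 0) (h1 : ∀ n, n % (D + 1) = 0 → h n = 0) :
    ∑ n ∈ Finset.range ((D + 1) * (D + 1)), h n = ∑ n ∈ Smix D, h n := by
  symm
  refine Finset.sum_subset (Finset.filter_subset _ _) fun n hn hn' => ?_
  by_cases h2 : n / (D + 1) = 0
  · exact h0 n h2
  · by_cases h3 : n % (D + 1) = 0
    · exact h1 n h3
    · exfalso
      apply hn'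
      exact Finset.mem_filter.2 ⟨hn, Nat.one_le_iff_ne_zero.2 h2, Nat.one_le_iff_ne_zero.2 h3⟩

/-- the closure of a walk -/
theorem clo_map {R S : Type*} [CommRing R] [CommRing S] (D : ℕ) (f : MvPolynomial (Fin 2) R)
    (hf : ∀ j, f.degreeOf j ≤ D) (φ : R →+* S) (a b : Fin 4 → S) :
    ∑ j, (eval ![a j, b j] (map φ f) - eval ![a (j + 1), b j] (map φ f)) =
      ∑ n ∈ Smix D, φ (uc D f n) * Mo a b (n / (D + 1)) (n % (D + 1)) := by
  have h1 : ∑ j, (eval ![a j, b j] (map φ f) - eval ![a (j + 1), b j] (map φ f)) =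
      ∑ n ∈ Finset.range ((D + 1) * (D + 1)),
        φ (coeff (dd D n) f) * Mo a b (n / (D + 1)) (n % (D + 1)) := by
    simp only [eval_map_sum D f hf φ, Mo, Finset.mul_sum]
    rw [Finset.sum_comm]
    simp only [← Finset.sum_sub_distrib]
    refine Finset.sum_congr rfl fun j _ => Finset.sum_congr rfl fun n _ => ?_
    ring
  rw [h1, sum_range_Smix]
  · refine Finset.sum_congr rfl fun n hn => ?_
    rw [uc, if_pos hn]
  · intro n hn
    rw [hn]
    simp [Mo]
  · intro n hn
    rw [hn]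
    have : Mo a b (n / (D + 1)) 0 = 0 := by
      simp only [Mo, pow_zero, mul_one]
      exact sum_tele fun j => a j ^ (n / (D + 1))
    rw [this, mul_zero]

/-- the square of two points and two lines -/
theorem sq_map {R S : Type*} [CommRing R] [CommRing S] (D : ℕ) (f : MvPolynomial (Fin 2) R)
    (hf : ∀ j, f.degreeOf j ≤ D) (φ : R →+* S) (x x' y y' : S) :
    eval ![x, y] (map φ f) - eval ![x', y] (map φ f) + eval ![x', y'] (map φ f) -
      eval ![x, y'] (map φ f) = ∑ n ∈ Smix D, φ (uc D f n) *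
        ((x ^ (n / (D + 1)) - x' ^ (n / (D + 1))) * (y ^ (n % (D + 1)) - y' ^ (n % (D + 1)))) := by
  have h1 : eval ![x, y] (map φ f) - eval ![x', y] (map φ f) + eval ![x', y'] (map φ f) -
      eval ![x, y'] (map φ f) = ∑ n ∈ Finset.range ((D + 1) * (D + 1)), φ (coeff (dd D n) f) *
        ((x ^ (n / (D + 1)) - x' ^ (n / (D + 1))) * (y ^ (n % (D + 1)) - y' ^ (n % (D + 1)))) := by
    simp only [eval_map_sum D f hf φ]
    rw [← Finset.sum_sub_distrib, ← Finset.sum_add_distrib, ← Finset.sum_sub_distrib]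
    refine Finset.sum_congr rfl fun n _ => ?_
    ring
  rw [h1, sum_range_Smix]
  · refine Finset.sum_congr rfl fun n hn => ?_
    rw [uc, if_pos hn]
  · intro n hn
    rw [hn]
    simp
  · intro n hn
    rw [hn]
    simp

/-- an eight-cycle from a solution -/
theorem c8_of_sol {R S : Type*} [CommRing R] [CommRing S] (D : ℕ) {m : ℕ}
    (f : Fin m → MvPolynomial (Fin 2) R) (hf : ∀ i j, (f i).degreeOf j ≤ D) (φ : R →+* S)
    (a b : Fin 4 → S) (ha : ∀ j, a j ≠ a (j + 1)) (hb : ∀ j, b j ≠ b (j + 1))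
    (hclo : ∀ i, ∑ n ∈ Smix D, φ (uc D (f i) n) * Mo a b (n / (D + 1)) (n % (D + 1)) = 0)
    (i0 : Fin m) (hsq : ∀ j j' : Fin 4, ∑ n ∈ Smix D, φ (uc D (f i0) n) *
        ((a j ^ (n / (D + 1)) - a (j + 1) ^ (n / (D + 1))) *
          (b j' ^ (n % (D + 1)) - b (j' + 1) ^ (n % (D + 1)))) ≠ 0) :
    (SimpleGraph.cycleGraph 8).IsContained (Gam fun i => map φ (f i)) := by
  refine cyc _ a b ha hb (fun i => ?_) (fun j j' => Or.inr ⟨i0, ?_⟩)
  · rw [clo_map D (f i) (hf i) φ a b]
    exact hclo i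
  · rw [sq_map D (f i0) (hf i0) φ]
    exact hsq j j'

/-- an eight-cycle when there are no mixed monomials -/
theorem c8_of_pure {R S : Type*} [CommRing R] [CommRing S] (D : ℕ) {m : ℕ}
    (f : Fin m → MvPolynomial (Fin 2) R) (hf : ∀ i j, (f i).degreeOf j ≤ D) (φ : R →+* S)
    (h1 : (1 : S) ≠ 0) (h2 : (2 : S) ≠ 0) (h3 : (3 : S) ≠ 0)
    (hpure : ∀ i, ∀ n ∈ Smix D, φ (uc D (f i) n) = 0) :
    (SimpleGraph.cycleGraph 8).IsContained (Gam fun i => map φ (f i)) := by
  have hne : ∀ j : Fin 4, (![0, 1, 2, 3] : Fin 4 → S) j ≠ (![0, 1, 2, 3] : Fin 4 → S) (j + 1) := by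
    intro j h
    fin_cases j
    · exact h1 (by simpa using h.symm)
    · apply h1
      simp at h
      linear_combination -h
    · apply h1
      simp at h
      linear_combination -h
    · apply h3
      simpa using h
  have h02 : (![0, 1, 2, 3] : Fin 4 → S) 0 ≠ (![0, 1, 2, 3] : Fin 4 → S) 2 := by
    intro h
    exact h2 (by simpa using h.symm)
  have h13 : (![0, 1, 2, 3] : Fin 4 → S) 1 ≠ (![0, 1, 2, 3] : Fin 4 → S) 3 := by
    intro h
    apply h2
    simp at h
    linear_combination -h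
  refine cyc _ ![0, 1, 2, 3] ![0, 1, 2, 3] hne hne (fun i => ?_)
    (fun j j' => Or.inl ⟨h02, h13, h02, h13⟩)
  rw [clo_map D (f i) (hf i) φ]
  exact Finset.sum_eq_zero fun n hn => by rw [hpure i n hn, zero_mul]

/-- the algebraically closed case -/
theorem c8_algClosed (D : ℕ) (hD : 4 ≤ D) {k K : Type*} [Field k] [Field K] [Algebra k K]
    [IsAlgClosed K] (hchar : ∀ n : ℕ, 1 ≤ n → n ≤ D → (n : k) ≠ 0)
    (f : Fin 3 → MvPolynomial (Fin 2) k) (hf : ∀ i j, (f i).degreeOf j ≤ D) :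
    (SimpleGraph.cycleGraph 8).IsContained (Gam fun i => map (algebraMap k K) (f i)) := by
  by_cases hpure : ∀ i, ∀ n ∈ Smix D, uc D (f i) n = 0
  · have hc : ∀ n : ℕ, 1 ≤ n → n ≤ D → (n : K) ≠ 0 := by
      intro n h1 h2 h3
      apply hchar n h1 h2
      rw [← map_natCast (algebraMap k K) n] at h3
      exact (map_eq_zero (algebraMap k K)).1 h3
    refine c8_of_pure D f hf (algebraMap k K) one_ne_zero ?_ ?_
      (fun i n hn => by rw [hpure i n hn, map_zero])
    · exact_mod_cast hc 2 (by omega) (by omega)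
    · exact_mod_cast hc 3 (by omega) (by omega)
  · push Not at hpure
    obtain ⟨i0, n0, -, hn0⟩ := hpure
    obtain ⟨a, b, ha, hb, hclo, hsq⟩ := sol (K := K) D hD hchar (fun i => uc D (f i))
      (fun i m hm => by rw [uc, if_neg hm])
    exact c8_of_sol D f hf (algebraMap k K) a b ha hb hclo i0 (hsq i0 ⟨n0, hn0⟩)

end Pool.Agent.H51.ADG
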