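import Pool.Agent.H51.ADG.Theta
import Pool.Agent.H51.ADG.Poly

/-!
# Cycles of length at least twelve
-/

open SimpleGraph

namespace Pool.Agent.H51.ADG

/-- a value of a non-constant polynomial outside a finite set -/
theorem exists_value {F : Type*} [Field F] (P : Polynomial F) (D : ℕ) (hD : P.natDegree ≤ D)
    (hP : 1 ≤ P.natDegree) (S : Finset F) (W : Finset F) (K : ℕ)
    (hF : ∀ T : Finset F, T.card ≤ K → ∃ x, x ∉ T) (hK : S.card + W.card * D ≤ K) :
    ∃ x, x ∉ S ∧ P.eval x ∉ W := by
  classical
  have hne : ∀ w : F, P - Polynomial.C w ≠ 0 := by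
    intro w h
    have h1 := sub_eq_zero.1 h
    rw [h1, Polynomial.natDegree_C] at hP
    omega
  have hcard : (S ∪ W.biUnion fun w => (P - Polynomial.C w).roots.toFinset).card ≤ K := by
    refine (Finset.card_union_le _ _).trans ?_
    have h1 : (W.biUnion fun w => (P - Polynomial.C w).roots.toFinset).card ≤ W.card * D := by
      refine Finset.card_biUnion_le_card_mul _ _ _ fun w _ => ?_
      refine (Multiset.toFinset_card_le _).trans ((Polynomial.card_roots' _).trans ?_)
      rw [Polynomial.natDegree_sub_C]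
      exact hD
    omega
  obtain ⟨x, hx⟩ := hF _ hcard
  rw [Finset.mem_union, not_or] at hx
  refine ⟨x, hx.1, fun h => hx.2 (Finset.mem_biUnion.2 ⟨P.eval x, h, ?_⟩)⟩
  rw [Multiset.mem_toFinset, Polynomial.mem_roots (hne _)]
  simp

/-- the side of a vertex -/
def side {A B : Type*} (u : A ⊕ B) : Bool := u.isLeft

/-- existence of long chains -/
theorem exists_chain {F V : Type*} [AddCommGroup V] (G : F → F → V) (e : F ⊕ F) (K : ℕ)
    (hF : ∀ T : Finset F, T.card ≤ K → ∃ x, x ∉ T) (n : ℕ) : ∀ (u : F ⊕ F) (s : V)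
    (X : Finset (F ⊕ F)), X.card + n ≤ K → (side u = side e ↔ Odd n) →
    ∃ (l : List ((F ⊕ F) × V)) (g : V), List.IsChain (VG G).Adj ((u, s) :: (l ++ [(e, g)])) ∧
      l.length = n ∧ (l.map Prod.fst).Nodup ∧ ∀ p ∈ l, p.1 ∉ X := by
  classical
  induction n with
  | zero =>
    intro u s X _ hpar
    have h1 : side u ≠ side e := by
      intro h
      have := hpar.1 h
      simp at this
    obtain ⟨g, hg⟩ : ∃ g, (VG G).Adj (u, s) (e, g) := by
      rcases u with x | y <;> rcases e with x' | y'
      · exact absurd rfl h1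
      · exact ⟨s - G x y', rfl⟩
      · refine ⟨s + G x' y, ?_⟩
        change s = s + G x' y - G x' y
        abel
      · exact absurd rfl h1
    refine ⟨[], g, ?_, rfl, by simp, by simp⟩
    simpa using hg
  | succ n ih =>
    intro u s X hX hpar
    obtain ⟨u', hu', hside⟩ : ∃ u' : F ⊕ F, u' ∉ X ∧ side u' = !side u := by
      rcases u with x | y
      · obtain ⟨z, hz⟩ := hF (X.image (Sum.elim id id)) (Finset.card_image_le.trans (by omega))
        exact ⟨Sum.inr z, fun h => hz (Finset.mem_image.2 ⟨Sum.inr z, h, rfl⟩), rfl⟩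
      · obtain ⟨z, hz⟩ := hF (X.image (Sum.elim id id)) (Finset.card_image_le.trans (by omega))
        exact ⟨Sum.inl z, fun h => hz (Finset.mem_image.2 ⟨Sum.inl z, h, rfl⟩), rfl⟩
    obtain ⟨s', hs'⟩ : ∃ s', (VG G).Adj (u, s) (u', s') := by
      rcases u with x | y <;> rcases u' with x' | y'
      · simp [side] at hside
      · exact ⟨s - G x y', rfl⟩
      · refine ⟨s + G x' y, ?_⟩
        change s = s + G x' y - G x' y
        abel
      · simp [side] at hside
    obtain ⟨l, g, hch, hlen, hnod, hlX⟩ := ih u' s' (insert u' X) (by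
        rw [Finset.card_insert_of_notMem hu']
        omega) (by
        rw [hside]
        rw [Nat.odd_add_one] at hpar
        constructor
        · intro h
          by_contra h2
          have h3 := hpar.2 h2
          rw [h3] at h
          cases hse : side e <;> simp [hse] at h
        · intro h
          have h3 : side u ≠ side e := fun h4 => hpar.1 h4 h
          cases hsu : side u <;> cases hse : side e <;> simp_all)
    refine ⟨(u', s') :: l, g, ?_, by simp [hlen], ?_, ?_⟩
    · rw [List.cons_append, List.isChain_cons_cons]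
      exact ⟨hs', hch⟩
    · rw [List.map_cons, List.nodup_cons]
      refine ⟨?_, hnod⟩
      intro h
      obtain ⟨p, hp, hpu⟩ := List.mem_map.1 h
      exact hlX p hp (by rw [hpu]; exact Finset.mem_insert_self _ _)
    · intro p hp
      rcases List.mem_cons.1 hp with rfl | hp
      · exact hu'
      · exact fun h => hlX p hp (Finset.mem_insert_of_mem h)

/-- the voltage graph embeds into the algebraically defined graph -/
theorem vg_contained {F : Type*} [Field F] {m : ℕ} (f : Fin m → MvPolynomial (Fin 2) F) :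
    (VG fun (x y : F) (i : Fin m) => MvPolynomial.eval ![x, y] (f i)).IsContained (Gam f) := by
  refine ⟨⟨⟨fun p => match p.1 with
    | Sum.inl x => Sum.inl (x, p.2)
    | Sum.inr y => Sum.inr (y, -p.2), ?_⟩, ?_⟩⟩
  · rintro ⟨x | y, s⟩ ⟨x' | y', s'⟩ h
    · exact h
    · have h' : s' = s - fun i => MvPolynomial.eval ![x, y'] (f i) := h
      change ∀ i, s i + (-s') i = MvPolynomial.eval ![x, y'] (f i)
      intro i
      rw [h']
      simp
    · have h' : s = s' - fun i => MvPolynomial.eval ![x', y] (f i) := h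
      change ∀ i, s' i + (-s) i = MvPolynomial.eval ![x', y] (f i)
      intro i
      rw [h']
      simp
    · exact h
  · rintro ⟨x | y, s⟩ ⟨x' | y', s'⟩ h
    · have h1 := Sum.inl.inj h
      have h2 : x = x' := congrArg Prod.fst h1
      have h3 : s = s' := congrArg Prod.snd h1
      rw [h2, h3]
    · exact absurd h Sum.inl_ne_inr
    · exact absurd h Sum.inr_ne_inl
    · have h1 := Sum.inr.inj h
      have h2 : y = y' := congrArg Prod.fst h1
      have h3 : -s = -s' := congrArg Prod.snd h1
      rw [h2, neg_injective h3]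

/-- no mixed monomials: all even cycles -/
theorem pure_cycle {F V : Type*} [AddCommGroup V] (G : F → F → V) (p q : F → V)
    (hG : ∀ x y, G x y = p x + q y) (n : ℕ) (hev : Even n) (K : ℕ) (hK : n ≤ K + 1)
    (hF : ∀ T : Finset F, T.card ≤ K → ∃ x, x ∉ T) : (cycleGraph n).IsContained (VG G) := by
  classical
  obtain ⟨c, hc⟩ : ∃ c : Fin n → F, Function.Injective c := by
    have h1 : ∀ k : ℕ, k ≤ K + 1 → ∃ T : Finset F, T.card = k := by
      intro k
      induction k with
      | zero => exact fun _ => ⟨∅, rfl⟩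
      | succ k ih =>
        intro hk
        obtain ⟨T, hT⟩ := ih (by omega)
        obtain ⟨x, hx⟩ := hF T (by omega)
        exact ⟨insert x T, by rw [Finset.card_insert_of_notMem hx, hT]⟩
    obtain ⟨T, hT⟩ := h1 n hK
    exact ⟨fun i => (T.equivFinOfCardEq hT).symm i, fun i j h =>
      (T.equivFinOfCardEq hT).symm.injective (Subtype.val_injective h)⟩
  set col := SimpleGraph.cycleGraph.bicoloring_of_even n hev with hcol
  refine ⟨⟨⟨fun i => if col i = true then (Sum.inl (c i), p (c i)) else (Sum.inr (c i), - q (c i)),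
    ?_⟩, ?_⟩⟩
  · intro i j hij
    have h1 : col i ≠ col j := col.valid hij
    by_cases hi : col i = true
    · have hj : ¬ col j = true := fun h => h1 (by rw [hi, h])
      simp only [hi, if_true, if_neg hj]
      change - q (c j) = p (c i) - G (c i) (c j)
      rw [hG]
      abel
    · have hj : col j = true := by
        cases h2 : col j
        · exfalso
          apply h1
          cases h3 : col i
          · rw [h2]
          · exact absurd h3 hi
        · rfl
      simp only [hj, if_true, if_neg hi]
      change - q (c i) = p (c j) - G (c j) (c i)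
      rw [hG]
      abel
  · intro i j hij
    by_cases hi : col i = true <;> by_cases hj : col j = true
    · simp [hi, hj] at hij
      exact hc hij.1
    · simp [hi, hj] at hij
    · simp [hi, hj] at hij
    · simp [hi, hj] at hij
      exact hc hij.1

/-- the coefficient polynomial of `y ^ b` -/
noncomputable def cp {R : Type*} [CommRing R] (D : ℕ) (f : MvPolynomial (Fin 2) R) (b : ℕ) :
    Polynomial R :=
  ∑ a ∈ Finset.range (D + 1), Polynomial.C (MvPolynomial.coeff (dd D ((D + 1) * a + b)) f) *
    Polynomial.X ^ a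

theorem cp_natDegree {R : Type*} [CommRing R] (D : ℕ) (f : MvPolynomial (Fin 2) R) (b : ℕ) :
    (cp D f b).natDegree ≤ D := by
  refine Polynomial.natDegree_sum_le_of_forall_le _ _ fun a ha => ?_
  refine (Polynomial.natDegree_C_mul_X_pow_le _ _).trans ?_
  have := Finset.mem_range.1 ha
  omega

theorem cp_coeff {R : Type*} [CommRing R] (D : ℕ) (f : MvPolynomial (Fin 2) R) (b a : ℕ)
    (ha : a ≤ D) : (cp D f b).coeff a = MvPolynomial.coeff (dd D ((D + 1) * a + b)) f := by
  rw [cp, Polynomial.finsetSum_coeff, Finset.sum_eq_single a]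
  · rw [Polynomial.coeff_C_mul_X_pow, if_pos rfl]
  · intro c _ hc
    rw [Polynomial.coeff_C_mul_X_pow, if_neg hc.symm]
  · intro h
    exact absurd (Finset.mem_range.2 (by omega)) h

theorem eval_cp {F : Type*} [Field F] (D : ℕ) (f : MvPolynomial (Fin 2) F)
    (hf : ∀ j, f.degreeOf j ≤ D) (x y : F) :
    MvPolynomial.eval ![x, y] f = ∑ b ∈ Finset.range (D + 1), (cp D f b).eval x * y ^ b := by
  have h1 := eval_map_sum D f hf (RingHom.id F) x y
  rw [MvPolynomial.map_id] at h1
  rw [h1]
  simp only [cp, Polynomial.eval_finsetSum, Polynomial.eval_mul, Polynomial.eval_C,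
    Polynomial.eval_pow, Polynomial.eval_X, Finset.sum_mul, RingHom.id_apply]
  rw [← Finset.sum_product']
  refine Finset.sum_nbij' (fun n => (n % (D + 1), n / (D + 1)))
    (fun p => (D + 1) * p.2 + p.1) ?_ ?_ ?_ ?_ ?_
  · intro n hn
    have hn' := Finset.mem_range.1 hn
    refine Finset.mem_product.2 ⟨Finset.mem_range.2 (Nat.mod_lt _ (by omega)),
      Finset.mem_range.2 (Nat.div_lt_of_lt_mul hn')⟩
  · intro p hp
    obtain ⟨h2, h3⟩ := Finset.mem_product.1 hp
    have h2' := Finset.mem_range.1 h2
    have h3' := Finset.mem_range.1 h3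
    refine Finset.mem_range.2 ?_
    nlinarith
  · intro n _
    exact Nat.div_add_mod n (D + 1)
  · intro p hp
    obtain ⟨h2, h3⟩ := Finset.mem_product.1 hp
    have h2' := Finset.mem_range.1 h2
    refine Prod.ext ?_ ?_
    · change ((D + 1) * p.2 + p.1) % (D + 1) = p.1
      rw [Nat.mul_add_mod, Nat.mod_eq_of_lt h2']
    · change ((D + 1) * p.2 + p.1) / (D + 1) = p.2
      rw [Nat.mul_add_div (by omega), Nat.div_eq_of_lt h2', add_zero]
  · intro n _
    change _ = MvPolynomial.coeff (dd D ((D + 1) * (n / (D + 1)) + n % (D + 1))) f *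
      x ^ (n / (D + 1)) * y ^ (n % (D + 1))
    rw [Nat.div_add_mod]
    ring

/-- the difference of two rows as a polynomial -/
noncomputable def hp {F : Type*} [Field F] (D : ℕ) (f : MvPolynomial (Fin 2) F) (x x' : F) :
    Polynomial F :=
  ∑ b ∈ Finset.range (D + 1), Polynomial.C ((cp D f b).eval x' - (cp D f b).eval x) *
    Polynomial.X ^ b

theorem hp_natDegree {F : Type*} [Field F] (D : ℕ) (f : MvPolynomial (Fin 2) F) (x x' : F) :
    (hp D f x x').natDegree ≤ D := by
  refine Polynomial.natDegree_sum_le_of_forall_le _ _ fun a ha => ?_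
  refine (Polynomial.natDegree_C_mul_X_pow_le _ _).trans ?_
  have := Finset.mem_range.1 ha
  omega

theorem hp_pos {F : Type*} [Field F] (D : ℕ) (f : MvPolynomial (Fin 2) F) (x x' : F) (b : ℕ)
    (hb : 1 ≤ b) (hbD : b ≤ D) (h : (cp D f b).eval x' ≠ (cp D f b).eval x) :
    1 ≤ (hp D f x x').natDegree := by
  refine hb.trans (Polynomial.le_natDegree_of_ne_zero ?_)
  rw [hp, Polynomial.finsetSum_coeff, Finset.sum_eq_single b]
  · rw [Polynomial.coeff_C_mul_X_pow, if_pos rfl]
    exact sub_ne_zero.2 h
  · intro c _ hc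
    rw [Polynomial.coeff_C_mul_X_pow, if_neg hc.symm]
  · intro h
    exact absurd (Finset.mem_range.2 (by omega)) h

theorem hp_eval {F : Type*} [Field F] (D : ℕ) (f : MvPolynomial (Fin 2) F)
    (hf : ∀ j, f.degreeOf j ≤ D) (x x' y : F) :
    (hp D f x x').eval y = MvPolynomial.eval ![x', y] f - MvPolynomial.eval ![x, y] f := by
  rw [eval_cp D f hf, eval_cp D f hf, hp, Polynomial.eval_finsetSum, ← Finset.sum_sub_distrib]
  refine Finset.sum_congr rfl fun b _ => ?_
  simp only [Polynomial.eval_mul, Polynomial.eval_C, Polynomial.eval_pow, Polynomial.eval_X]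
  ring

/-- the third path -/
theorem third_path {F : Type*} [Field F] {m : ℕ} (f : Fin m → MvPolynomial (Fin 2) F) (D : ℕ)
    (hf : ∀ i j, (f i).degreeOf j ≤ D) (i0 : Fin m) (x x2 : F)
    (hx2 : 1 ≤ (hp D (f i0) x x2).natDegree) (e : F ⊕ F) (n K : ℕ)
    (hF : ∀ T : Finset F, T.card ≤ K → ∃ x, x ∉ T) (X : Finset (F ⊕ F))
    (hX : X.card + n + 2 * D + 1 ≤ K) (h2X : Sum.inl x2 ∉ X)
    (hpar : side (Sum.inl x2 : F ⊕ F) = side e ↔ Odd n) (w1 w2 : F) :
    ∃ (l : List ((F ⊕ F) × (Fin m → F))) (g : Fin m → F),
      List.IsChain (VG fun (x y : F) (i : Fin m) => MvPolynomial.eval ![x, y] (f i)).Adj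
        ((Sum.inl x, 0) :: (l ++ [(e, g)])) ∧ l.length = n + 2 ∧ (l.map Prod.fst).Nodup ∧
      (∀ p ∈ l, p.1 ∉ X) ∧ g i0 ≠ w1 ∧ g i0 ≠ w2 := by
  classical
  set G : F → F → Fin m → F := fun x y i => MvPolynomial.eval ![x, y] (f i) with hG
  obtain ⟨l, κ, hch, hlen, hnod, hlX⟩ := exists_chain G e K hF n (Sum.inl x2) 0
    (insert (Sum.inl x2) X) (by
      rw [Finset.card_insert_of_notMem h2X]
      omega) hpar
  obtain ⟨z, hz1, hz2⟩ := exists_value (hp D (f i0) x x2) D (hp_natDegree D (f i0) x x2) hx2
    ((X ∪ (l.map Prod.fst).toFinset).image (Sum.elim id id)) {w1 - κ i0, w2 - κ i0} K hF (by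
      have h1 : ((X ∪ (l.map Prod.fst).toFinset).image (Sum.elim id id)).card ≤ X.card + n := by
        refine Finset.card_image_le.trans ((Finset.card_union_le _ _).trans ?_)
        have h2 := List.toFinset_card_le (l.map Prod.fst)
        rw [List.length_map, hlen] at h2
        omega
      have h3 : ({w1 - κ i0, w2 - κ i0} : Finset F).card ≤ 2 := Finset.card_le_two
      nlinarith)
  have hzl : ∀ p ∈ l, p.1 ≠ Sum.inr z := by
    intro p hp hpz
    apply hz1
    refine Finset.mem_image.2 ⟨Sum.inr z, Finset.mem_union_right _ ?_, rfl⟩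
    rw [List.mem_toFinset, List.mem_map]
    exact ⟨p, hp, hpz⟩
  have hzX : (Sum.inr z : F ⊕ F) ∉ X := by
    intro h
    apply hz1
    exact Finset.mem_image.2 ⟨Sum.inr z, Finset.mem_union_left _ h, rfl⟩
  set c : Fin m → F := -G x z + G x2 z with hc
  refine ⟨(Sum.inr z, -G x z) :: (Sum.inl x2, c) :: l.map (tr c), κ + c, ?_, ?_, ?_, ?_, ?_⟩
  · simp only [List.cons_append]
    rw [List.isChain_cons_cons, List.isChain_cons_cons]
    refine ⟨?_, ?_, ?_⟩
    · change -G x z = 0 - G x z
      abel
    · change -G x z = c - G x2 z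
      rw [hc]
      abel
    · have h1 := chain_tr G c _ hch
      have h2 : List.map (tr c) ((Sum.inl x2, (0 : Fin m → F)) :: (l ++ [(e, κ)])) =
          (Sum.inl x2, c) :: (l.map (tr c) ++ [(e, κ + c)]) := by
        rw [List.map_cons, List.map_append, List.map_singleton]
        simp [tr]
      rw [h2] at h1
      exact h1
  · simp [hlen]
  · have h1 : (l.map (tr c)).map Prod.fst = l.map Prod.fst := by
      rw [List.map_map]
      rfl
    rw [List.map_cons, List.map_cons, h1, List.nodup_cons, List.nodup_cons]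
    refine ⟨?_, ?_, hnod⟩
    · intro h
      rcases List.mem_cons.1 h with h | h
      · exact absurd h Sum.inr_ne_inl
      · obtain ⟨p, hp, hpz⟩ := List.mem_map.1 h
        exact hzl p hp hpz
    · intro h
      obtain ⟨p, hp, hpz⟩ := List.mem_map.1 h
      exact hlX p hp (by rw [hpz]; exact Finset.mem_insert_self _ _)
  · intro p hp
    rcases List.mem_cons.1 hp with rfl | hp
    · exact hzX
    · rcases List.mem_cons.1 hp with rfl | hp
      · exact h2X
      · obtain ⟨q, hq, rfl⟩ := List.mem_map.1 hp
        intro h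
        exact hlX q hq (Finset.mem_insert_of_mem h)
  · have h1 : (hp D (f i0) x x2).eval z = G x2 z i0 - G x z i0 := hp_eval D (f i0) (hf i0) x x2 z
    have h2 : (κ + c) i0 = κ i0 + (hp D (f i0) x x2).eval z := by
      rw [h1, hc]
      simp only [Pi.add_apply, Pi.neg_apply]
      ring
    rw [h2]
    refine ⟨fun h => hz2 ?_, fun h => hz2 ?_⟩
    · rw [Finset.mem_insert]
      left
      rw [← h]
      ring
    · rw [Finset.mem_insert, Finset.mem_singleton]
      right
      rw [← h]
      ring

/-- long cycles over every large field -/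
theorem c2l_long (l D : ℕ) (hl : 6 ≤ l) {F : Type*} [Field F]
    (hF : ∀ T : Finset F, T.card ≤ 2 * D + 2 * l + 10 → ∃ x, x ∉ T) {m : ℕ}
    (f : Fin m → MvPolynomial (Fin 2) F) (hf : ∀ i j, (f i).degreeOf j ≤ D) :
    (cycleGraph (2 * l)).IsContained (Gam f) := by
  classical
  refine IsContained.trans ?_ (vg_contained f)
  set G : F → F → Fin m → F := fun x y i => MvPolynomial.eval ![x, y] (f i) with hG
  set K : ℕ := 2 * D + 2 * l + 10 with hK
  by_cases hmix : ∃ (i0 : Fin m) (a b : ℕ), (1 ≤ a ∧ a ≤ D) ∧ (1 ≤ b ∧ b ≤ D) ∧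
      (cp D (f i0) b).coeff a ≠ 0
  · obtain ⟨i0, a0, b0, ⟨ha1, ha2⟩, ⟨hb1, hb2⟩, hab⟩ := hmix
    set P := cp D (f i0) b0 with hP
    have hPD : P.natDegree ≤ D := cp_natDegree D (f i0) b0
    have hP1 : 1 ≤ P.natDegree := ha1.trans (Polynomial.le_natDegree_of_ne_zero hab)
    have hrow : ∀ x x', P.eval x' ≠ P.eval x → 1 ≤ (hp D (f i0) x x').natDegree :=
      fun x x' h => hp_pos D (f i0) x x' b0 hb1 hb2 h
    have hev : ∀ x x' y, (hp D (f i0) x x').eval y = G x' y i0 - G x y i0 :=
      fun x x' y => hp_eval D (f i0) (hf i0) x x' y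
    -- a first point
    obtain ⟨x', hx'0, hx'⟩ := exists_value P D hPD hP1 ∅ {P.eval 0} K hF (by simp; omega)
    rw [Finset.mem_singleton] at hx'
    have hx'ne : x' ≠ 0 := by
      rintro rfl
      exact hx' rfl
    obtain ⟨y2, hy20, hy2⟩ := exists_value (hp D (f i0) 0 x') D (hp_natDegree _ _ _ _)
      (hrow 0 x' hx') ∅ {(hp D (f i0) 0 x').eval 0} K hF (by simp; omega)
    rw [Finset.mem_singleton] at hy2
    have hy2ne : y2 ≠ 0 := by
      rintro rfl
      exact hy2 rfl
    have hgap : G x' y2 i0 - G 0 y2 i0 ≠ G x' 0 i0 - G 0 0 i0 := by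
      rw [← hev, ← hev]
      exact hy2
    rcases Nat.even_or_odd l with hle | hlo
    · -- even
      set g1 : Fin m → F := -G 0 0 + G x' 0 with hg1
      set g2 : Fin m → F := -G 0 y2 + G x' y2 with hg2
      have g12 : g1 ≠ g2 := by
        intro h
        apply hgap
        have h1 := congrFun h i0
        simp only [hg1, hg2, Pi.add_apply, Pi.neg_apply] at h1
        linear_combination -h1
      have hc1 : ∀ y : F, List.IsChain (VG G).Adj ((Sum.inl 0, 0) ::
          ([(Sum.inr y, -G 0 y)] ++ [(Sum.inl x', -G 0 y + G x' y)])) := by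
        intro y
        rw [List.singleton_append, List.isChain_cons_cons, List.isChain_cons_cons]
        refine ⟨?_, ?_, List.isChain_singleton _⟩
        · change -G 0 y = 0 - G 0 y
          abel
        · change -G 0 y = -G 0 y + G x' y - G x' y
          abel
      obtain ⟨l3, g3, h3c, h3l, h3n, h3X, h3w1, h3w2⟩ : ∃ (l3 : List ((F ⊕ F) × (Fin m → F)))
          (g3 : Fin m → F), List.IsChain (VG G).Adj ((Sum.inl 0, 0) ::
          (l3 ++ [(Sum.inl x', g3)])) ∧ l3.length = l - 5 ∧ (l3.map Prod.fst).Nodup ∧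
          (∀ p ∈ l3, p.1 ∉ ({Sum.inl 0, Sum.inl x', Sum.inr 0, Sum.inr y2} : Finset (F ⊕ F))) ∧
          g3 i0 ≠ g1 i0 ∧ g3 i0 ≠ g2 i0 := by
        by_cases hl6 : l = 6
        · obtain ⟨z, hz1, hz2⟩ := exists_value (hp D (f i0) 0 x') D (hp_natDegree _ _ _ _)
            (hrow 0 x' hx') {0, y2} {(hp D (f i0) 0 x').eval 0, (hp D (f i0) 0 x').eval y2} K hF
            (by
              have h1 : ({0, y2} : Finset F).card ≤ 2 := Finset.card_le_two
              have h2 : ({(hp D (f i0) 0 x').eval 0, (hp D (f i0) 0 x').eval y2} :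
                Finset F).card ≤ 2 := Finset.card_le_two
              nlinarith)
          rw [Finset.mem_insert, Finset.mem_singleton, not_or] at hz1 hz2
          refine ⟨[(Sum.inr z, -G 0 z)], -G 0 z + G x' z, hc1 z, by simp [hl6], by simp, ?_, ?_, ?_⟩
          · intro p hp
            rw [List.mem_singleton] at hp
            subst hp
            simp [hz1.1, hz1.2]
          · intro h
            apply hz2.1
            rw [hev, hev]
            simp only [hg1, Pi.add_apply, Pi.neg_apply] at h
            linear_combination h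
          · intro h
            apply hz2.2
            rw [hev, hev]
            simp only [hg2, Pi.add_apply, Pi.neg_apply] at h
            linear_combination h
        · obtain ⟨x2, hx20, hx2⟩ := exists_value P D hPD hP1 {0, x'} {P.eval 0} K hF (by
            have h1 : ({0, x'} : Finset F).card ≤ 2 := Finset.card_le_two
            rw [Finset.card_singleton]
            omega)
          rw [Finset.mem_singleton] at hx2
          rw [Finset.mem_insert, Finset.mem_singleton, not_or] at hx20
          obtain ⟨l3, g3, h3c, h3l, h3n, h3X, h3w1, h3w2⟩ := third_path f D hf i0 0 x2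
            (hrow 0 x2 hx2) (Sum.inl x') (l - 7) K hF
            {Sum.inl 0, Sum.inl x', Sum.inr 0, Sum.inr y2} (by
              have h1 : ({Sum.inl 0, Sum.inl x', Sum.inr 0, Sum.inr y2} : Finset (F ⊕ F)).card ≤ 4 :=
                Finset.card_le_four
              omega) (by simp [hx20.1, hx20.2]) (by
              constructor
              · intro _
                obtain ⟨r, hr⟩ := hle
                exact ⟨r - 4, by omega⟩
              · intro _
                rfl) (g1 i0) (g2 i0)
          exact ⟨l3, g3, h3c, by omega, h3n, h3X, h3w1, h3w2⟩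
      have h3X' : ∀ p ∈ l3, (p.1 ≠ Sum.inl 0 ∧ p.1 ≠ Sum.inl x') ∧ p.1 ≠ Sum.inr 0 ∧
          p.1 ≠ Sum.inr y2 := by
        intro p hp
        have h := h3X p hp
        simp only [Finset.mem_insert, Finset.mem_singleton, not_or] at h
        exact ⟨⟨h.1, h.2.1⟩, h.2.2.1, h.2.2.2⟩
      refine theta G (Sum.inl 0) (Sum.inl x') (fun h => hx'ne (Sum.inl.inj h).symm)
        [(Sum.inr 0, -G 0 0)] [(Sum.inr y2, -G 0 y2)] l3 g1 g2 g3 (hc1 0) (hc1 y2) h3c
        (by simp) (by simp) h3n (by simp) (by simp) (fun p hp => (h3X' p hp).1) ?_ ?_ ?_ g12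
        (fun h => h3w1 (by rw [h])) (fun h => h3w2 (by rw [h])) l ?_
      · intro p hp q hq
        rw [List.mem_singleton] at hp hq
        subst hp hq
        simpa using hy2ne.symm
      · intro p hp q hq
        rw [List.mem_singleton] at hp
        subst hp
        exact (h3X' q hq).2.1.symm
      · intro p hp q hq
        rw [List.mem_singleton] at hp
        subst hp
        exact (h3X' q hq).2.2.symm
      · simp only [List.length_singleton, h3l]
        omega
    · -- odd
      obtain ⟨x2, hx20, hx2⟩ := exists_value P D hPD hP1 {0, x'} {P.eval 0} K hF (by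
        have h1 : ({0, x'} : Finset F).card ≤ 2 := Finset.card_le_two
        rw [Finset.card_singleton]
        omega)
      rw [Finset.mem_singleton] at hx2
      rw [Finset.mem_insert, Finset.mem_singleton, not_or] at hx20
      set g1 : Fin m → F := -G 0 0 with hg1
      set g2 : Fin m → F := -G 0 y2 + G x' y2 - G x' 0 with hg2
      have g12 : g1 ≠ g2 := by
        intro h
        apply hgap
        have h1 := congrFun h i0
        simp only [hg1, hg2, Pi.add_apply, Pi.neg_apply, Pi.sub_apply] at h1
        linear_combination -h1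
      obtain ⟨l3, g3, h3c, h3l, h3n, h3X, h3w1, h3w2⟩ := third_path f D hf i0 0 x2
        (hrow 0 x2 hx2) (Sum.inr 0) (l - 7) K hF
        {Sum.inl 0, Sum.inl x', Sum.inr 0, Sum.inr y2} (by
          have h1 : ({Sum.inl 0, Sum.inl x', Sum.inr 0, Sum.inr y2} : Finset (F ⊕ F)).card ≤ 4 :=
            Finset.card_le_four
          omega) (by simp [hx20.1, hx20.2]) (by
          constructor
          · intro h
            simp [side] at h
          · intro h
            exfalso
            obtain ⟨r, hr⟩ := hlo
            obtain ⟨t, ht⟩ := h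
            omega) (g1 i0) (g2 i0)
      have h3X' : ∀ p ∈ l3, (p.1 ≠ Sum.inl 0 ∧ p.1 ≠ Sum.inl x') ∧ p.1 ≠ Sum.inr 0 ∧
          p.1 ≠ Sum.inr y2 := by
        intro p hp
        have h := h3X p hp
        simp only [Finset.mem_insert, Finset.mem_singleton, not_or] at h
        exact ⟨⟨h.1, h.2.1⟩, h.2.2.1, h.2.2.2⟩
      have hl7 : 7 ≤ l := by
        obtain ⟨r, hr⟩ := hlo
        omega
      refine theta G (Sum.inl 0) (Sum.inr 0) Sum.inl_ne_inr
        [] [(Sum.inr y2, -G 0 y2), (Sum.inl x', -G 0 y2 + G x' y2)] l3 g1 g2 g3 ?_ ?_ h3c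
        (by simp) (by simp) h3n (by simp) ?_ (fun p hp => ⟨(h3X' p hp).1.1, (h3X' p hp).2.1⟩)
        (by simp) (by simp) ?_ g12
        (fun h => h3w1 (by rw [h])) (fun h => h3w2 (by rw [h])) l ?_
      · rw [List.nil_append, List.isChain_cons_cons]
        refine ⟨?_, List.isChain_singleton _⟩
        change g1 = 0 - G 0 0
        rw [hg1]
        abel
      · simp only [List.cons_append, List.nil_append]
        rw [List.isChain_cons_cons, List.isChain_cons_cons, List.isChain_cons_cons]
        refine ⟨?_, ?_, ?_, List.isChain_singleton _⟩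
        · change -G 0 y2 = 0 - G 0 y2
          abel
        · change -G 0 y2 = -G 0 y2 + G x' y2 - G x' y2
          abel
        · change g2 = -G 0 y2 + G x' y2 - G x' 0
          rw [hg2]
      · intro p hp
        rcases List.mem_cons.1 hp with rfl | hp
        · exact ⟨Sum.inr_ne_inl, fun h => hy2ne (Sum.inr.inj h)⟩
        · rw [List.mem_singleton] at hp
          subst hp
          exact ⟨fun h => hx'ne (Sum.inl.inj h), Sum.inl_ne_inr⟩
      · intro p hp q hq
        rcases List.mem_cons.1 hp with rfl | hp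
        · exact (h3X' q hq).2.2.symm
        · rw [List.mem_singleton] at hp
          subst hp
          exact (h3X' q hq).1.2.symm
      · simp only [List.length_cons, List.length_nil, h3l]
        omega
  · -- no mixed monomials
    push Not at hmix
    refine pure_cycle G (fun x i => (cp D (f i) 0).eval x)
      (fun y i => ∑ b ∈ Finset.range D, (cp D (f i) (b + 1)).coeff 0 * y ^ (b + 1)) ?_ (2 * l)
      (even_two_mul l) K (by omega) hF
    intro x y
    funext i
    change MvPolynomial.eval ![x, y] (f i) = _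
    rw [eval_cp D (f i) (hf i), Finset.sum_range_succ']
    simp only [Pi.add_apply, pow_zero, mul_one]
    rw [add_comm]
    congr 1
    refine Finset.sum_congr rfl fun b hb => ?_
    have hb' := Finset.mem_range.1 hb
    have h1 : cp D (f i) (b + 1) = Polynomial.C ((cp D (f i) (b + 1)).coeff 0) := by
      ext a
      rw [Polynomial.coeff_C]
      by_cases ha : a = 0
      · rw [if_pos ha, ha]
      · rw [if_neg ha]
        by_cases haD : a ≤ D
        · exact hmix i a (b + 1) ⟨by omega, haD⟩ ⟨by omega, by omega⟩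
        · refine Polynomial.coeff_eq_zero_of_natDegree_lt ?_
          have := cp_natDegree D (f i) (b + 1)
          omega
    conv_lhs => rw [h1]
    rw [Polynomial.eval_C]

end Pool.Agent.H51.ADG
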