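import Mathlib

/-!
# Approximate power series zeros and lifting (Newton, Nullstellensatz)
-/

open MvPolynomial

namespace Pool.Agent.H51.ADG

/-- first order Taylor expansion of a polynomial -/
theorem taylor1 {k A τ : Type*} [CommRing k] [CommRing A] [Algebra k A] [Fintype τ]
    (x h : τ → A) (c : A) (Q : MvPolynomial τ k) :
    ∃ r : A, aeval (fun t => x t + c * h t) Q =
      aeval x Q + c * (∑ t, aeval x (pderiv t Q) * h t) + c ^ 2 * r := by
  classical
  induction Q using MvPolynomial.induction_on with
  | C a =>
    refine ⟨0, ?_⟩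
    simp
  | add p q hp hq =>
    obtain ⟨r, hr⟩ := hp
    obtain ⟨s, hs⟩ := hq
    refine ⟨r + s, ?_⟩
    simp only [map_add, hr, hs, add_mul, Finset.sum_add_distrib]
    ring
  | mul_X p i hp =>
    obtain ⟨r, hr⟩ := hp
    refine ⟨r * (x i + c * h i) + (∑ t, aeval x (pderiv t p) * h t) * h i, ?_⟩
    have h1 : (∑ t, aeval x (pderiv t (p * X i)) * h t) =
        (∑ t, aeval x (pderiv t p) * h t) * x i + aeval x p * h i := by
      rw [Finset.sum_mul]
      have h2 : aeval x p * h i = ∑ t, (if t = i then aeval x p * h t else 0) := by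
        rw [Finset.sum_ite_eq' Finset.univ i, if_pos (Finset.mem_univ i)]
      rw [h2, ← Finset.sum_add_distrib]
      refine Finset.sum_congr rfl fun t _ => ?_
      rw [pderiv_mul, map_add, map_mul, map_mul, aeval_X, pderiv_X, Pi.single_apply]
      by_cases hti : t = i
      · subst hti
        simp
        ring
      · rw [if_neg hti, if_neg (fun h' => hti h'.symm)]
        simp
        ring
    rw [map_mul, map_mul, aeval_X, aeval_X, hr, h1]
    ring

/-- the point `(e, z)` of the affine space with a distinguished coordinate -/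
def pt {A σ : Type*} (e : A) (z : σ → A) : Option σ → A := fun o => o.elim e z

theorem dvd_sub_eval0 {k : Type*} [Field k] {σ : Type*} (z0 : σ → k) (z : σ → Polynomial k)
    (hz : ∀ t, (Polynomial.X : Polynomial k) ∣ z t - Polynomial.C (z0 t))
    (Q : MvPolynomial (Option σ) k) :
    (Polynomial.X : Polynomial k) ∣
      aeval (pt Polynomial.X z) Q - Polynomial.C (eval (pt 0 z0) Q) := by
  rw [Polynomial.X_dvd_iff, Polynomial.coeff_zero_eq_eval_zero, Polynomial.eval_sub,
    Polynomial.eval_C, sub_eq_zero]
  have hz' : ∀ t, (z t).eval 0 = z0 t := by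
    intro t
    have h := hz t
    rw [Polynomial.X_dvd_iff, Polynomial.coeff_zero_eq_eval_zero, Polynomial.eval_sub,
      Polynomial.eval_C, sub_eq_zero] at h
    exact h
  have h1 : ((Polynomial.evalRingHom (0 : k)).comp
      (aeval (pt Polynomial.X z) : MvPolynomial (Option σ) k →ₐ[k] Polynomial k).toRingHom) =
      (eval (pt 0 z0)) := by
    apply MvPolynomial.ringHom_ext
    · intro a
      simp
    · intro o
      cases o with
      | none => simp [pt]
      | some t => simp [pt, hz' t]
  exact RingHom.congr_fun h1 Q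

/-- Newton approximation -/
theorem newton {k : Type*} [Field k] {σ : Type*} [Fintype σ] {n : ℕ}
    (G : Fin n → MvPolynomial (Option σ) k) (z0 : σ → k) (s : Fin n → σ)
    (h0 : ∀ i, eval (pt 0 z0) (G i) = 0)
    (hdet : (Matrix.of fun i j => eval (pt 0 z0) (pderiv (some (s j)) (G i))).det ≠ 0) (N : ℕ) :
    ∃ z : σ → Polynomial k, (∀ t, (Polynomial.X : Polynomial k) ∣ z t - Polynomial.C (z0 t)) ∧
      ∀ i, (Polynomial.X : Polynomial k) ^ (N + 1) ∣ aeval (pt Polynomial.X z) (G i) := by
  classical
  induction N with
  | zero =>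
    refine ⟨fun t => Polynomial.C (z0 t), fun t => by simp, fun i => ?_⟩
    have h := dvd_sub_eval0 z0 (fun t => Polynomial.C (z0 t)) (fun t => by simp) (G i)
    rw [h0 i, map_zero, sub_zero] at h
    simpa using h
  | succ N ih =>
    obtain ⟨z, hz, hG⟩ := ih
    choose g hg using hG
    set J : Matrix (Fin n) (Fin n) k :=
      Matrix.of fun i j => eval (pt 0 z0) (pderiv (some (s j)) (G i)) with hJ
    have hJB : J * J⁻¹ = 1 := Matrix.mul_nonsing_inv J (isUnit_iff_ne_zero.2 hdet)
    set w : Fin n → Polynomial k := fun j => - ∑ i, Polynomial.C (J⁻¹ j i) * g i with hw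
    set u : σ → Polynomial k := fun t => ∑ j, if t = s j then w j else 0 with hu
    have hkey : ∀ i, (Polynomial.X : Polynomial k) ∣
        g i + ∑ j, aeval (pt Polynomial.X z) (pderiv (some (s j)) (G i)) * w j := by
      intro i
      have h1 : g i + ∑ j, Polynomial.C (J i j) * w j = 0 := by
        have h2 : ∑ j, Polynomial.C (J i j) * w j = - g i := by
          simp only [hw, mul_neg, Finset.sum_neg_distrib, neg_inj, Finset.mul_sum]
          rw [Finset.sum_comm]
          have h3 : ∀ i', ∑ j, Polynomial.C (J i j) * (Polynomial.C (J⁻¹ j i') * g i') =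
              (if i = i' then g i' else 0) := by
            intro i'
            have h4 := congrFun (congrFun hJB i) i'
            rw [Matrix.mul_apply, Matrix.one_apply] at h4
            have h5 : ∑ j, Polynomial.C (J i j) * (Polynomial.C (J⁻¹ j i') * g i') =
                Polynomial.C (∑ j, J i j * J⁻¹ j i') * g i' := by
              rw [map_sum, Finset.sum_mul]
              refine Finset.sum_congr rfl fun j _ => ?_
              rw [map_mul, mul_assoc]
            rw [h5, h4]
            split_ifs <;> simp
          rw [Finset.sum_congr rfl fun i' _ => h3 i']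
          simp
        rw [h2]
        ring
      have h6 : g i + ∑ j, aeval (pt Polynomial.X z) (pderiv (some (s j)) (G i)) * w j =
          ∑ j, (aeval (pt Polynomial.X z) (pderiv (some (s j)) (G i)) -
            Polynomial.C (J i j)) * w j := by
        have h7 : ∑ j, (aeval (pt Polynomial.X z) (pderiv (some (s j)) (G i)) -
            Polynomial.C (J i j)) * w j =
            ∑ j, aeval (pt Polynomial.X z) (pderiv (some (s j)) (G i)) * w j -
            ∑ j, Polynomial.C (J i j) * w j := by
          rw [← Finset.sum_sub_distrib]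
          exact Finset.sum_congr rfl fun j _ => by ring
        rw [h7]
        linear_combination h1
      rw [h6]
      refine Finset.dvd_sum fun j _ => Dvd.dvd.mul_right ?_ _
      exact dvd_sub_eval0 z0 z hz _
    refine ⟨fun t => z t + Polynomial.X ^ (N + 1) * u t, fun t => ?_, fun i => ?_⟩
    · have h8 : z t + Polynomial.X ^ (N + 1) * u t - Polynomial.C (z0 t) =
          (z t - Polynomial.C (z0 t)) + Polynomial.X * (Polynomial.X ^ N * u t) := by
        ring
      rw [h8]
      exact dvd_add (hz t) (Dvd.intro _ rfl)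
    · obtain ⟨r, hr⟩ := taylor1 (pt Polynomial.X z) (pt 0 u) (Polynomial.X ^ (N + 1)) (G i)
      have h9 : (fun t => pt (Polynomial.X : Polynomial k) z t +
          Polynomial.X ^ (N + 1) * pt 0 u t) =
          pt Polynomial.X (fun t => z t + Polynomial.X ^ (N + 1) * u t) := by
        funext o
        cases o with
        | none => simp [pt]
        | some t => simp [pt]
      rw [h9] at hr
      have h10 : ∑ t, aeval (pt Polynomial.X z) (pderiv t (G i)) * pt 0 u t =
          ∑ j, aeval (pt Polynomial.X z) (pderiv (some (s j)) (G i)) * w j := by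
        rw [Fintype.sum_option]
        simp only [pt, Option.elim, mul_zero, zero_add, hu, Finset.mul_sum]
        rw [Finset.sum_comm]
        refine Finset.sum_congr rfl fun j _ => ?_
        simp
      rw [h10, hg i] at hr
      obtain ⟨y, hy⟩ := hkey i
      refine ⟨y + Polynomial.X ^ N * r, ?_⟩
      rw [hr]
      linear_combination (Polynomial.X ^ (N + 1)) * hy

/-- lifting of a transversal zero at `e = 0` -/
theorem lift_zero {k K : Type*} [Field k] [Field K] [Algebra k K] [IsAlgClosed K]
    {σ : Type*} [Fintype σ] {n : ℕ} (E G : Fin n → MvPolynomial (Option σ) k) (e : Fin n → ℕ)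
    (hE : ∀ i, E i = X none ^ e i * G i) (z0 : σ → k) (s : Fin n → σ)
    (h0 : ∀ i, eval (pt 0 z0) (G i) = 0)
    (hdet : (Matrix.of fun i j => eval (pt 0 z0) (pderiv (some (s j)) (G i))).det ≠ 0)
    (H : MvPolynomial (Option σ) k) (hH : eval (pt 0 z0) H ≠ 0) :
    ∃ (ε : K) (z : σ → K), ε ≠ 0 ∧ (∀ i, aeval (pt ε z) (E i) = 0) ∧ aeval (pt ε z) H ≠ 0 := by
  by_contra hcon
  push Not at hcon
  have h1 : X none * H ∈ (Ideal.span (Set.range E)).radical := by
    rw [← vanishingIdeal_zeroLocus_eq_radical (K := K), mem_vanishingIdeal_iff]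
    intro x hx
    by_cases hx0 : x none = 0
    · rw [map_mul, aeval_X, hx0, zero_mul]
    · have h2 : pt (x none) (fun t => x (some t)) = x := by
        funext o
        cases o with
        | none => rfl
        | some t => rfl
      have h3 := hcon (x none) (fun t => x (some t)) hx0 (fun i => by
        rw [h2]
        exact hx (E i) (Ideal.subset_span ⟨i, rfl⟩))
      rw [h2] at h3
      rw [map_mul, h3, mul_zero]
  obtain ⟨M, hM⟩ := h1
  obtain ⟨z, hz, hG⟩ := newton G z0 s h0 hdet M
  have h4 : (Polynomial.X : Polynomial k) ^ (M + 1) ∣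
      aeval (pt Polynomial.X z) ((X none * H) ^ M) := by
    refine Submodule.span_induction ?_ ?_ ?_ ?_ hM
    · rintro _ ⟨i, rfl⟩
      rw [hE i, map_mul]
      exact Dvd.dvd.mul_left (hG i) _
    · rw [map_zero]
      exact dvd_zero _
    · intro a b _ _ ha hb
      rw [map_add]
      exact dvd_add ha hb
    · intro a b _ hb
      rw [smul_eq_mul, map_mul]
      exact Dvd.dvd.mul_left hb _
  rw [map_pow, map_mul, aeval_X, mul_pow] at h4
  have h5 : (Polynomial.X : Polynomial k) ∣ (aeval (pt Polynomial.X z) H) ^ M := by
    have h6 : (Polynomial.X : Polynomial k) ^ (M + 1) ∣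
        Polynomial.X ^ M * (aeval (pt Polynomial.X z) H) ^ M := h4
    rw [pow_succ] at h6
    exact (mul_dvd_mul_iff_left (pow_ne_zero M Polynomial.X_ne_zero)).1 h6
  have h7 : (Polynomial.X : Polynomial k) ∣ aeval (pt Polynomial.X z) H :=
    Polynomial.prime_X.dvd_of_dvd_pow h5
  have h8 := dvd_sub_eval0 z0 z hz H
  have h9 : (Polynomial.X : Polynomial k) ∣ Polynomial.C (eval (pt 0 z0) H) := by
    have := dvd_sub h7 h8
    rwa [sub_sub_cancel] at this
  rw [Polynomial.X_dvd_iff, Polynomial.coeff_C_zero] at h9
  exact hH h9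

end Pool.Agent.H51.ADG
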