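import Pool.Agent.H51.ADG.Poly

/-!
# A solution in a simple extension
-/

open Polynomial

namespace Pool.Agent.H51.ADG

/-- the closure for a coefficient function -/
def Clo {S : Type*} [CommRing S] (D : ℕ) (w : ℕ → S) (a b : Fin 4 → S) : S :=
  ∑ n ∈ Smix D, w n * Mo a b (n / (D + 1)) (n % (D + 1))

/-- the squares for a coefficient function -/
def Sq {S : Type*} [CommRing S] (D : ℕ) (w : ℕ → S) (a b : Fin 4 → S) (j j' : Fin 4) : S :=
  ∑ n ∈ Smix D, w n * ((a j ^ (n / (D + 1)) - a (j + 1) ^ (n / (D + 1))) *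
    (b j' ^ (n % (D + 1)) - b (j' + 1) ^ (n % (D + 1))))

/-- the product of all non-degeneracy conditions -/
def HH {S : Type*} [CommRing S] (D : ℕ) (w : ℕ → S) (a b : Fin 4 → S) : S :=
  (∏ j, (a j - a (j + 1))) * (∏ j, (b j - b (j + 1))) * ∏ j, ∏ j', Sq D w a b j j'

theorem map_Clo {S T : Type*} [CommRing S] [CommRing T] (φ : S →+* T) (D : ℕ) (w : ℕ → S)
    (a b : Fin 4 → S) :
    φ (Clo D w a b) = Clo D (fun n => φ (w n)) (fun j => φ (a j)) (fun j => φ (b j)) := by
  simp [Clo, Mo]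

theorem map_HH {S T : Type*} [CommRing S] [CommRing T] (φ : S →+* T) (D : ℕ) (w : ℕ → S)
    (a b : Fin 4 → S) :
    φ (HH D w a b) = HH D (fun n => φ (w n)) (fun j => φ (a j)) (fun j => φ (b j)) := by
  simp [HH, Sq]

/-- an eight-cycle from a solution -/
theorem c8_of_HH {R S : Type*} [CommRing R] [Field S] (D : ℕ) {m : ℕ}
    (f : Fin m → MvPolynomial (Fin 2) R) (hf : ∀ i j, (f i).degreeOf j ≤ D) (φ : R →+* S)
    (a b : Fin 4 → S) (hclo : ∀ i, Clo D (fun n => φ (uc D (f i) n)) a b = 0) (i0 : Fin m)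
    (hH : HH D (fun n => φ (uc D (f i0) n)) a b ≠ 0) :
    (SimpleGraph.cycleGraph 8).IsContained (Gam fun i => MvPolynomial.map φ (f i)) := by
  obtain ⟨h1, h3⟩ := mul_ne_zero_iff.1 hH
  obtain ⟨h1, h2⟩ := mul_ne_zero_iff.1 h1
  refine c8_of_sol D f hf φ a b (fun j h => ?_) (fun j h => ?_) hclo i0 (fun j j' => ?_)
  · exact Finset.prod_ne_zero_iff.1 h1 j (Finset.mem_univ j) (sub_eq_zero.2 h)
  · exact Finset.prod_ne_zero_iff.1 h2 j (Finset.mem_univ j) (sub_eq_zero.2 h)
  · exact Finset.prod_ne_zero_iff.1 (Finset.prod_ne_zero_iff.1 h3 j (Finset.mem_univ j)) j'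
      (Finset.mem_univ j')

/-- a solution in a simple extension -/
theorem prim (D : ℕ) (hD : 4 ≤ D) {k : Type} [Field k] [PerfectField k]
    (hchar : ∀ n : ℕ, 1 ≤ n → n ≤ D → (n : k) ≠ 0) (u : Fin 3 → ℕ → k)
    (hu : ∀ i m, m ∉ Smix D → u i m = 0) (i0 : Fin 3) (hi0 : ∃ m, u i0 m ≠ 0) :
    ∃ (g : k[X]) (pa pb : Fin 4 → k[X]) (pc : k[X]), g.Monic ∧ Irreducible g ∧
      (∀ i, g ∣ Clo D (fun n => C (u i n)) pa pb) ∧
      g ∣ pc * HH D (fun n => C (u i0 n)) pa pb - 1 := by
  classical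
  set K := AlgebraicClosure k with hK
  obtain ⟨a, b, ha, hb, hclo, hsq⟩ := sol (K := K) D hD hchar u hu
  set h : K := HH D (fun n => algebraMap k K (u i0 n)) a b with hh
  have hh0 : h ≠ 0 := by
    rw [hh, HH]
    refine mul_ne_zero (mul_ne_zero ?_ ?_) ?_
    · exact Finset.prod_ne_zero_iff.2 fun j _ => sub_ne_zero.2 (ha j)
    · exact Finset.prod_ne_zero_iff.2 fun j _ => sub_ne_zero.2 (hb j)
    · exact Finset.prod_ne_zero_iff.2 fun j _ => Finset.prod_ne_zero_iff.2 fun j' _ =>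
        hsq i0 hi0 j j'
  set S : Set K := Set.range a ∪ Set.range b ∪ {h⁻¹} with hS
  have hSfin : Finite S := (((Set.finite_range a).union (Set.finite_range b)).union
    (Set.finite_singleton _)).to_subtype
  have hfd : FiniteDimensional k (IntermediateField.adjoin k S) :=
    IntermediateField.finiteDimensional_adjoin fun x _ => Algebra.IsIntegral.isIntegral x
  obtain ⟨α, hα⟩ := Field.exists_primitive_element k (IntermediateField.adjoin k S)
  set θ : K := (α : K) with hθ
  have hpoly : ∀ x ∈ S, ∃ p : k[X], aeval θ p = x := by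
    intro x hx
    have hxL : x ∈ IntermediateField.adjoin k S := IntermediateField.subset_adjoin k S hx
    have h1 : (⟨x, hxL⟩ : IntermediateField.adjoin k S) ∈
        IntermediateField.adjoin k ({α} : Set (IntermediateField.adjoin k S)) := by
      rw [hα]
      trivial
    have h2 : (⟨x, hxL⟩ : IntermediateField.adjoin k S) ∈
        Algebra.adjoin k ({α} : Set (IntermediateField.adjoin k S)) := by
      rw [← IntermediateField.adjoin_simple_toSubalgebra_of_isAlgebraic
        (Algebra.IsAlgebraic.isAlgebraic α)]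
      exact h1
    rw [Algebra.adjoin_singleton_eq_range_aeval] at h2
    obtain ⟨p, hp⟩ := h2
    refine ⟨p, ?_⟩
    have h3 := congrArg (algebraMap (IntermediateField.adjoin k S) K) hp
    have h4 : algebraMap (IntermediateField.adjoin k S) K (aeval α p) = aeval θ p :=
      (aeval_algebraMap_apply K α p).symm
    exact h4.symm.trans h3
  choose pa hpa using fun j => hpoly (a j) (Or.inl (Or.inl ⟨j, rfl⟩))
  choose pb hpb using fun j => hpoly (b j) (Or.inl (Or.inr ⟨j, rfl⟩))
  obtain ⟨pc, hpc⟩ := hpoly h⁻¹ (Or.inr rfl)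
  have hint : IsIntegral k θ := Algebra.IsIntegral.isIntegral θ
  refine ⟨minpoly k θ, pa, pb, pc, minpoly.monic hint, minpoly.irreducible hint, fun i => ?_, ?_⟩
  · apply minpoly.dvd
    have h1 := map_Clo ((aeval θ : k[X] →ₐ[k] K) : k[X] →+* K) D (fun n => C (u i n)) pa pb
    have h2 : aeval θ (Clo D (fun n => C (u i n)) pa pb) =
      Clo D (fun n => aeval θ (C (u i n))) (fun j => aeval θ (pa j)) (fun j => aeval θ (pb j)) := h1
    rw [h2]
    simp only [hpa, hpb, aeval_C]
    exact hclo i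
  · apply minpoly.dvd
    have h1 := map_HH ((aeval θ : k[X] →ₐ[k] K) : k[X] →+* K) D (fun n => C (u i0 n)) pa pb
    have h2 : aeval θ (HH D (fun n => C (u i0 n)) pa pb) =
      HH D (fun n => aeval θ (C (u i0 n))) (fun j => aeval θ (pa j)) (fun j => aeval θ (pb j)) := h1
    rw [map_sub, map_mul, map_one, h2]
    simp only [hpa, hpb, aeval_C, hpc]
    rw [← hh, inv_mul_cancel₀ hh0, sub_self]

end Pool.Agent.H51.ADG
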