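import Mathlib

/-!
# Prime divisors of the values of a polynomial
-/

open Polynomial

namespace Pool.Agent.H51.ADG

/-- infinitely many primes divide values of a non-constant integer polynomial -/
theorem schur (g : ℤ[X]) (hg : 1 ≤ g.natDegree) :
    {p : ℕ | p.Prime ∧ ∃ x : ℤ, (p : ℤ) ∣ g.eval x}.Infinite := by
  classical
  intro hfin
  by_cases hroot : ∃ x : ℤ, g.eval x = 0
  · obtain ⟨x, hx⟩ := hroot
    apply Nat.infinite_setOfPred_prime
    refine hfin.subset fun p hp => ⟨hp, x, ?_⟩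
    rw [hx]
    exact dvd_zero _
  · push Not at hroot
    set c : ℤ := g.eval 0 with hc
    have hc0 : c ≠ 0 := hroot 0
    set Q : ℕ := ∏ p ∈ hfin.toFinset, p with hQ
    have hQ0 : (Q : ℤ) ≠ 0 := by
      rw [hQ]
      push_cast
      refine Finset.prod_ne_zero_iff.2 fun p hp => ?_
      have := (hfin.mem_toFinset.1 hp).1.ne_zero
      exact_mod_cast this
    set h : ℤ[X] := g.comp (C (c * Q) * X) with hh
    have hcQ : c * (Q : ℤ) ≠ 0 := mul_ne_zero hc0 hQ0
    have hdeg : h.natDegree = g.natDegree := by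
      rw [hh, natDegree_comp, natDegree_C_mul_X _ hcQ, mul_one]
    have hne : ∀ d : ℤ, h - C d ≠ 0 := by
      intro d h0
      have h1 : h = C d := sub_eq_zero.1 h0
      rw [h1, natDegree_C] at hdeg
      omega
    obtain ⟨t, ht⟩ : ∃ t : ℤ, t ∉ (((h - C c) * (h - C (-c))).roots.toFinset : Set ℤ) :=
      ((((h - C c) * (h - C (-c))).roots.toFinset).finite_toSet).infinite_compl.nonempty
    have ht' : ((h - C c) * (h - C (-c))).eval t ≠ 0 := by
      intro h0
      apply ht
      rw [Finset.mem_coe, Multiset.mem_toFinset, mem_roots (mul_ne_zero (hne _) (hne _))]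
      exact h0
    rw [eval_mul, eval_sub, eval_sub, eval_C, eval_C, mul_ne_zero_iff] at ht'
    have hval : h.eval t = g.eval (c * Q * t) := by
      rw [hh, eval_comp]
      simp
    obtain ⟨w, hw⟩ : ∃ w : ℤ, g.eval (c * Q * t) = c * (1 + Q * w) := by
      have h1 : (c * Q * t - 0) ∣ g.eval (c * Q * t) - g.eval 0 := sub_dvd_eval_sub _ _ _
      obtain ⟨v, hv⟩ := h1
      refine ⟨t * v, ?_⟩
      rw [sub_zero] at hv
      linear_combination hv
    have hun : ¬ IsUnit (1 + (Q : ℤ) * w) := by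
      intro hu
      rw [hval, hw] at ht'
      rcases Int.isUnit_iff.1 hu with h1 | h1
      · apply ht'.1
        rw [h1]
        ring
      · apply ht'.2
        rw [h1]
        ring
    obtain ⟨p, hp, hpd⟩ := Int.exists_prime_and_dvd (n := 1 + (Q : ℤ) * w) (by
      intro h1
      exact hun (Int.isUnit_iff_natAbs_eq.2 h1))
    have hpn : (p.natAbs : ℤ) ∣ 1 + (Q : ℤ) * w := Int.natAbs_dvd.2 hpd
    have hpp : p.natAbs.Prime := Int.prime_iff_natAbs_prime.1 hp
    have hmem : p.natAbs ∈ hfin.toFinset := by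
      rw [hfin.mem_toFinset]
      refine ⟨hpp, c * Q * t, ?_⟩
      rw [hw]
      exact Dvd.dvd.mul_left hpn _
    have hdQ : (p.natAbs : ℤ) ∣ (Q : ℤ) := by
      rw [hQ]
      exact_mod_cast Finset.dvd_prod_of_mem (fun p => p) hmem
    have h1 : (p.natAbs : ℤ) ∣ 1 := by
      have h2 := dvd_sub hpn (Dvd.dvd.mul_right hdQ w)
      rwa [add_sub_cancel_right] at h2
    have h3 : p.natAbs ∣ 1 := by exact_mod_cast h1
    exact hpp.one_lt.ne' (Nat.dvd_one.1 h3)

end Pool.Agent.H51.ADG
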