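import Mathlib

/-!
# Maximal ideals of products of fields
-/

namespace Pool.Agent.H51.ADG

/-- a maximal ideal of a product of fields such that finitely many of its elements have infinitely
many common zeros -/
theorem exists_ultra {ι : Type} [Infinite ι] (F : ι → Type) [∀ i, Field (F i)] :
    ∃ M : Ideal (∀ i, F i), M.IsMaximal ∧ ∀ T : Finset (∀ i, F i), (∀ x ∈ T, x ∈ M) →
      {i | ∀ x ∈ T, x i = 0}.Infinite := by
  classical
  let I : Ideal (∀ i, F i) :=
    { carrier := {x | {i | x i ≠ 0}.Finite}
      add_mem' := by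
        intro x y hx hy
        refine (hx.union hy).subset fun i hi => ?_
        by_contra h
        rw [Set.mem_union, not_or] at h
        apply hi
        have h1 : x i = 0 := by
          by_contra h2
          exact h.1 h2
        have h2 : y i = 0 := by
          by_contra h2
          exact h.2 h2
        rw [Pi.add_apply, h1, h2, add_zero]
      zero_mem' := by
        simp
      smul_mem' := by
        intro c x hx
        refine hx.subset fun i hi => ?_
        intro h
        apply hi
        rw [Pi.smul_apply', smul_eq_mul, h, mul_zero] }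
  have hI : I ≠ ⊤ := by
    intro h
    have h1 : (1 : ∀ i, F i) ∈ I := by
      rw [h]
      trivial
    have h2 : {i | (1 : ∀ i, F i) i ≠ 0}.Finite := h1
    have h3 : {i | (1 : ∀ i, F i) i ≠ 0} = Set.univ := by
      ext i
      simp
    rw [h3] at h2
    exact Set.infinite_univ h2
  obtain ⟨M, hM, hIM⟩ := Ideal.exists_le_maximal I hI
  refine ⟨M, hM, fun T hT hfin => ?_⟩
  set Z : Set ι := {i | ∀ x ∈ T, x i = 0} with hZ
  have hc : ∀ i, ∃ x, i ∉ Z → x ∈ T ∧ x i ≠ 0 := by
    intro i
    by_cases hi : i ∈ Z
    · exact ⟨0, fun h => absurd hi h⟩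
    · have h1 : ¬ ∀ x ∈ T, x i = 0 := hi
      push Not at h1
      obtain ⟨x, hx, hxi⟩ := h1
      exact ⟨x, fun _ => ⟨hx, hxi⟩⟩
  choose c hc using hc
  set r : (∀ i, F i) → (∀ i, F i) := fun x i => if i ∉ Z ∧ c i = x then (x i)⁻¹ else 0 with hr
  set y : ∀ i, F i := ∑ x ∈ T, x * r x with hy
  have hyM : y ∈ M := Ideal.sum_mem _ fun x hx => Ideal.mul_mem_right _ _ (hT x hx)
  set z : ∀ i, F i := fun i => if i ∈ Z then 1 else 0 with hz
  have hzM : z ∈ M := by
    apply hIM
    refine hfin.subset fun i hi => ?_
    by_contra h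
    apply hi
    rw [hz]
    exact if_neg h
  have hyz : y + z = 1 := by
    funext i
    rw [Pi.add_apply, hy, Finset.sum_apply, hz, Pi.one_apply]
    simp only [Pi.mul_apply, hr]
    by_cases hi : i ∈ Z
    · rw [if_pos hi, Finset.sum_eq_zero, zero_add]
      intro x _
      rw [if_neg (fun h => h.1 hi), mul_zero]
    · rw [if_neg hi, add_zero, Finset.sum_eq_single (c i)]
      · rw [if_pos ⟨hi, rfl⟩]
        exact mul_inv_cancel₀ (hc i hi).2
      · intro x _ hx
        rw [if_neg (fun h => hx h.2.symm), mul_zero]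
      · intro h
        exact absurd (hc i hi).1 h
  apply hM.ne_top
  rw [Ideal.eq_top_iff_one, ← hyz]
  exact add_mem hyM hzM

end Pool.Agent.H51.ADG
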