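import Pool.Agent.H51.ADG.Prim
import Pool.Agent.H51.ADG.Schur
import Pool.Agent.H51.ADG.Ultra

/-!
# Integer polynomials modulo infinitely many primes
-/

open Polynomial

namespace Pool.Agent.H51.ADG

theorem exists_deg_bound {R : Type*} [CommRing R] {m : ℕ} (f : Fin m → MvPolynomial (Fin 2) R) :
    ∃ D : ℕ, 4 ≤ D ∧ ∀ i j, (f i).degreeOf j ≤ D := by
  refine ⟨4 + ∑ i, ∑ j, (f i).degreeOf j, by omega, fun i j => ?_⟩
  have h1 : (f i).degreeOf j ≤ ∑ j, (f i).degreeOf j :=
    Finset.single_le_sum (f := fun j => (f i).degreeOf j) (fun _ _ => Nat.zero_le _)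
      (Finset.mem_univ j)
  have h2 : ∑ j, (f i).degreeOf j ≤ ∑ i, ∑ j, (f i).degreeOf j :=
    Finset.single_le_sum (f := fun i => ∑ j, (f i).degreeOf j) (fun _ _ => Nat.zero_le _)
      (Finset.mem_univ i)
  omega

/-- an eight-cycle modulo infinitely many primes -/
theorem c8_primes (f : Fin 3 → MvPolynomial (Fin 2) ℤ) :
    {p : ℕ | p.Prime ∧ (SimpleGraph.cycleGraph 8).IsContained
      (Gam fun i => MvPolynomial.map (Int.castRingHom (ZMod p)) (f i))}.Infinite := by
  classical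
  obtain ⟨D, hD, hf⟩ := exists_deg_bound f
  by_cases hpure : ∀ i, ∀ n ∈ Smix D, uc D (f i) n = 0
  · have h1 : ({p : ℕ | p.Prime} \ (Finset.range 4 : Set ℕ)).Infinite :=
      Nat.infinite_setOfPred_prime.sdiff (Finset.finite_toSet _)
    refine h1.mono fun p hp => ⟨hp.1, ?_⟩
    have hpp : p.Prime := hp.1
    have hp4 : 4 ≤ p := by
      by_contra h
      exact hp.2 (Finset.mem_coe.2 (Finset.mem_range.2 (by omega)))
    have hne : ∀ n : ℕ, 1 ≤ n → n < 4 → ((n : ℕ) : ZMod p) ≠ 0 := by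
      intro n hn hn4 h0
      rw [ZMod.natCast_eq_zero_iff] at h0
      have := Nat.le_of_dvd (by omega) h0
      omega
    refine c8_of_pure D f hf _ ?_ ?_ ?_ (fun i n hn => by rw [hpure i n hn, map_zero])
    · exact_mod_cast hne 1 (by omega) (by omega)
    · exact_mod_cast hne 2 (by omega) (by omega)
    · exact_mod_cast hne 3 (by omega) (by omega)
  · push Not at hpure
    obtain ⟨i0, n0, -, hn0⟩ := hpure
    obtain ⟨g, pa, pb, pc, hgm, hgi, hclo, hHH⟩ := prim (k := ℚ) D hD
      (fun n hn _ => by exact_mod_cast (show n ≠ 0 by omega))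
      (fun i n => ((uc D (f i) n : ℤ) : ℚ))
      (fun i m hm => by rw [uc, if_neg hm, Int.cast_zero]) i0
      ⟨n0, by exact_mod_cast hn0⟩
    obtain ⟨N, hNM, hN⟩ := IsLocalization.integerNormalization_spec (nonZeroDivisors ℤ) g
    set G : ℤ[X] := IsLocalization.integerNormalization (nonZeroDivisors ℤ) g with hG
    have hN0 : (N : ℤ) ≠ 0 := nonZeroDivisors.ne_zero hNM
    have hGdeg : 1 ≤ G.natDegree := by
      have h1 : (G.map (algebraMap ℤ ℚ)).natDegree = G.natDegree :=
        natDegree_map_eq_of_injective (algebraMap ℤ ℚ).injective_int G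
      have h2 : (N : ℤ) • g = C ((N : ℤ) : ℚ) * g := by
        rw [zsmul_eq_mul]
        simp
      have h3 : (G.map (algebraMap ℤ ℚ)).natDegree = g.natDegree := by
        rw [hN]
        change ((N : ℤ) • g).natDegree = _
        rw [h2, natDegree_C_mul (by exact_mod_cast hN0)]
      rw [← h1, h3]
      exact hgi.natDegree_pos
    have hschur := schur G hGdeg
    set PP : Set ℕ := {p : ℕ | p.Prime ∧ ∃ x : ℤ, (p : ℤ) ∣ G.eval x} with hPP
    have : Infinite PP := hschur.to_subtype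
    have hfact : ∀ i : PP, Fact (i : ℕ).Prime := fun i => ⟨i.2.1⟩
    choose x hx using fun i : PP => i.2.2
    obtain ⟨M, hM, hMT⟩ := exists_ultra (fun i : PP => ZMod (i : ℕ))
    have := hM
    let _ : Field ((∀ i : PP, ZMod (i : ℕ)) ⧸ M) := Ideal.Quotient.field M
    set mk := Ideal.Quotient.mk M with hmk
    have : CharZero ((∀ i : PP, ZMod (i : ℕ)) ⧸ M) := by
      refine charZero_of_inj_zero fun n hn => ?_
      by_contra hn0'
      have h1 : mk ((n : ℕ) : ∀ i : PP, ZMod (i : ℕ)) = 0 := by rw [map_natCast]; exact hn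
      have h2 : ((n : ℕ) : ∀ i : PP, ZMod (i : ℕ)) ∈ M := Ideal.Quotient.eq_zero_iff_mem.1 h1
      have h3 := hMT {((n : ℕ) : ∀ i : PP, ZMod (i : ℕ))} (fun x hx => by
        rw [Finset.mem_singleton.1 hx]
        exact h2)
      apply h3
      refine Set.Finite.subset (s := {i : PP | (i : ℕ) ∈ Finset.range (n + 1)}) ?_ fun i hi => ?_
      · exact Set.Finite.preimage (Subtype.val_injective.injOn) (Finset.finite_toSet _)
      · have h4 := hi _ (Finset.mem_singleton_self _)
        rw [Pi.natCast_apply, ZMod.natCast_eq_zero_iff] at h4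
        have h5 := Nat.le_of_dvd (Nat.pos_of_ne_zero hn0') h4
        exact Finset.mem_range.2 (by omega)
    set ψ : ℚ →+* ((∀ i : PP, ZMod (i : ℕ)) ⧸ M) := Rat.castHom _ with hψ
    set ρ : ∀ i : PP, ZMod (i : ℕ) := fun i => (x i : ZMod (i : ℕ)) with hρ
    have hρ0 : eval₂ (Int.castRingHom (∀ i : PP, ZMod (i : ℕ))) ρ G = 0 := by
      funext i
      have h1 : (Pi.evalRingHom (fun i : PP => ZMod (i : ℕ)) i)
          (eval₂ (Int.castRingHom (∀ i : PP, ZMod (i : ℕ))) ρ G) =
          eval₂ ((Pi.evalRingHom (fun i : PP => ZMod (i : ℕ)) i).comp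
            (Int.castRingHom (∀ i : PP, ZMod (i : ℕ)))) (ρ i) G :=
        hom_eval₂ G _ _ ρ
      have h2 : ((Pi.evalRingHom (fun i : PP => ZMod (i : ℕ)) i).comp
            (Int.castRingHom (∀ i : PP, ZMod (i : ℕ)))) = Int.castRingHom (ZMod (i : ℕ)) :=
        RingHom.ext_int _ _
      rw [h2] at h1
      have h3 : eval₂ (Int.castRingHom (ZMod (i : ℕ))) (ρ i) G = ((G.eval (x i) : ℤ) : ZMod i) := by
        have h5 := (eval₂_at_intCast (Int.castRingHom (ZMod (i : ℕ))) (x i) (p := G))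
        rw [Int.cast_id] at h5
        exact h5
      have h4 : ((G.eval (x i) : ℤ) : ZMod (i : ℕ)) = 0 :=
        (ZMod.intCast_zmod_eq_zero_iff_dvd _ _).2 (hx i)
      exact h1.trans (h3.trans h4)
    set Ψ : ℚ[X] →+* ((∀ i : PP, ZMod (i : ℕ)) ⧸ M) := eval₂RingHom ψ (mk ρ) with hΨ
    have hΨg : Ψ g = 0 := by
      have h1 : Ψ (G.map (algebraMap ℤ ℚ)) = 0 := by
        have h2 : Ψ (G.map (algebraMap ℤ ℚ)) = eval₂ (ψ.comp (algebraMap ℤ ℚ)) (mk ρ) G := by
          rw [hΨ, coe_eval₂RingHom, eval₂_map]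
        have h3 : ψ.comp (algebraMap ℤ ℚ) =
            mk.comp (Int.castRingHom (∀ i : PP, ZMod (i : ℕ))) := RingHom.ext_int _ _
        rw [h2, h3, ← hom_eval₂, hρ0, map_zero]
      have h4 : (N : ℤ) • g = C ((N : ℤ) : ℚ) * g := by
        rw [zsmul_eq_mul]
        simp
      have h5 : G.map (algebraMap ℤ ℚ) = C ((N : ℤ) : ℚ) * g := hN.trans h4
      rw [h5, map_mul] at h1
      rcases mul_eq_zero.1 h1 with h6 | h6
      · exfalso
        rw [hΨ, coe_eval₂RingHom, eval₂_C] at h6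
        have h7 := (map_eq_zero ψ).1 h6
        exact hN0 (by exact_mod_cast h7)
      · exact h6
    obtain ⟨A, hA⟩ : ∃ A : Fin 4 → ∀ i : PP, ZMod (i : ℕ), ∀ j, mk (A j) = Ψ (pa j) :=
      ⟨fun j => (Ideal.Quotient.mk_surjective (Ψ (pa j))).choose,
        fun j => (Ideal.Quotient.mk_surjective (Ψ (pa j))).choose_spec⟩
    obtain ⟨B, hB⟩ : ∃ B : Fin 4 → ∀ i : PP, ZMod (i : ℕ), ∀ j, mk (B j) = Ψ (pb j) :=
      ⟨fun j => (Ideal.Quotient.mk_surjective (Ψ (pb j))).choose,
        fun j => (Ideal.Quotient.mk_surjective (Ψ (pb j))).choose_spec⟩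
    obtain ⟨Cc, hCc⟩ := Ideal.Quotient.mk_surjective (I := M) (Ψ pc)
    set κ : ℤ →+* (∀ i : PP, ZMod (i : ℕ)) := Int.castRingHom _ with hκ
    have hcoef : ∀ i n, Ψ (C (((uc D (f i) n : ℤ) : ℚ))) = mk (κ (uc D (f i) n)) := by
      intro i n
      rw [hΨ, coe_eval₂RingHom, eval₂_C, hκ]
      simp
    have hclo' : ∀ i, Clo D (fun n => κ (uc D (f i) n)) A B ∈ M := by
      intro i
      rw [← Ideal.Quotient.eq_zero_iff_mem]
      have h1 := map_Clo mk D (fun n => κ (uc D (f i) n)) A B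
      have h2 := map_Clo Ψ D (fun n => C (((uc D (f i) n : ℤ) : ℚ))) pa pb
      simp only [hcoef, ← hA, ← hB] at h2
      rw [h1, ← h2]
      obtain ⟨q, hq⟩ := hclo i
      rw [hq, map_mul, hΨg, zero_mul]
    have hHH' : Cc * HH D (fun n => κ (uc D (f i0) n)) A B - 1 ∈ M := by
      rw [← Ideal.Quotient.eq_zero_iff_mem]
      have h1 := map_HH mk D (fun n => κ (uc D (f i0) n)) A B
      have h2 := map_HH Ψ D (fun n => C (((uc D (f i0) n : ℤ) : ℚ))) pa pb
      simp only [hcoef, ← hA, ← hB] at h2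
      change mk (Cc * HH D (fun n => κ (uc D (f i0) n)) A B - 1) = 0
      rw [map_sub, map_mul, map_one, h1, ← h2, hCc, ← map_mul]
      obtain ⟨q, hq⟩ := hHH
      have h3 := congrArg Ψ hq
      rw [map_sub, map_one, map_mul Ψ g, hΨg, zero_mul] at h3
      exact h3
    have hinf := hMT (insert (Cc * HH D (fun n => κ (uc D (f i0) n)) A B - 1)
      (Finset.univ.image fun i => Clo D (fun n => κ (uc D (f i) n)) A B)) (by
        intro y hy
        rcases Finset.mem_insert.1 hy with rfl | hy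
        · exact hHH'
        · obtain ⟨i, -, rfl⟩ := Finset.mem_image.1 hy
          exact hclo' i)
    have hinf2 := hinf.image (f := fun i : PP => (i : ℕ)) Subtype.val_injective.injOn
    refine hinf2.mono ?_
    rintro p ⟨i, hi, rfl⟩
    refine ⟨i.2.1, ?_⟩
    have hcomp : ∀ z : ℤ, (Pi.evalRingHom (fun i : PP => ZMod (i : ℕ)) i) (κ z) =
        Int.castRingHom (ZMod (i : ℕ)) z := by
      intro z
      simp [hκ]
    refine c8_of_HH D f hf (Int.castRingHom (ZMod (i : ℕ))) (fun j => A j i) (fun j => B j i)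
      (fun l => ?_) i0 ?_
    · have h1 := hi _ (Finset.mem_insert_of_mem (Finset.mem_image.2 ⟨l, Finset.mem_univ l, rfl⟩))
      have h2 := map_Clo (Pi.evalRingHom (fun i : PP => ZMod (i : ℕ)) i) D
        (fun n => κ (uc D (f l) n)) A B
      simp only [hcomp] at h2
      exact h2.symm.trans h1
    · have h1 := hi _ (Finset.mem_insert_self _ _)
      have h2 := map_HH (Pi.evalRingHom (fun i : PP => ZMod (i : ℕ)) i) D
        (fun n => κ (uc D (f i0) n)) A B
      simp only [hcomp] at h2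
      intro h3
      have h4 : (Pi.evalRingHom (fun i : PP => ZMod (i : ℕ)) i)
          (Cc * HH D (fun n => κ (uc D (f i0) n)) A B - 1) = 0 := h1
      rw [map_sub, map_mul, map_one, h2] at h4
      have h5 : HH D (fun n => (Int.castRingHom (ZMod (i : ℕ))) (uc D (f i0) n))
          (fun j => (Pi.evalRingHom (fun i : PP => ZMod (i : ℕ)) i) (A j))
          (fun j => (Pi.evalRingHom (fun i : PP => ZMod (i : ℕ)) i) (B j)) = 0 := h3
      rw [h5, mul_zero, zero_sub, neg_eq_zero] at h4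
      exact one_ne_zero h4

end Pool.Agent.H51.ADG
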