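import Pool.Agent.H51.ADG.Solve
import Pool.Agent.H51.ADG.Ech

/-!
# Scaling at infinity
-/

open MvPolynomial

namespace Pool.Agent.H51.ADG

/-- the codes of the mixed monomials of degree at most `D` in each variable -/
def Smix (D : ℕ) : Finset ℕ :=
  (Finset.range ((D + 1) * (D + 1))).filter fun m => 1 ≤ m / (D + 1) ∧ 1 ≤ m % (D + 1)

theorem card_Smix (D : ℕ) (hD : 4 ≤ D) : 3 ≤ (Smix D).card := by
  have h : ({D + 2, D + 3, D + 4} : Finset ℕ) ⊆ Smix D := by
    intro m hm
    have hm' : m = D + 2 ∨ m = D + 3 ∨ m = D + 4 := by simpa using hm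
    have h1 : ∃ r, 1 ≤ r ∧ r ≤ 3 ∧ m = r + (D + 1) * 1 := by
      rcases hm' with h | h | h
      · exact ⟨1, by omega, by omega, by omega⟩
      · exact ⟨2, by omega, by omega, by omega⟩
      · exact ⟨3, by omega, by omega, by omega⟩
    obtain ⟨r, hr1, hr3, hr⟩ := h1
    have hdiv : m / (D + 1) = 1 := by
      rw [hr, Nat.add_mul_div_left _ _ (by omega), Nat.div_eq_of_lt (by omega)]
    have hmod : m % (D + 1) = r := by
      rw [hr, Nat.add_mul_mod_self_left, Nat.mod_eq_of_lt (by omega)]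
    refine Finset.mem_filter.2 ⟨Finset.mem_range.2 ?_, ?_, ?_⟩
    · nlinarith
    · rw [hdiv]
    · rw [hmod]
      exact hr1
  have h2 : ({D + 2, D + 3, D + 4} : Finset ℕ).card = 3 := by
    rw [Finset.card_insert_of_notMem (by simp), Finset.card_insert_of_notMem (by simp),
      Finset.card_singleton]
  rw [← h2]
  exact Finset.card_le_card h

theorem Smix_bd {D m : ℕ} (hm : m ∈ Smix D) :
    (1 ≤ m / (D + 1) ∧ m / (D + 1) ≤ D) ∧ (1 ≤ m % (D + 1) ∧ m % (D + 1) ≤ D) := by
  obtain ⟨h1, h2, h3⟩ := Finset.mem_filter.1 hm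
  rw [Finset.mem_range] at h1
  refine ⟨⟨h2, ?_⟩, h3, ?_⟩
  · have := Nat.div_lt_of_lt_mul h1
    omega
  · have := Nat.mod_lt m (show 0 < D + 1 by omega)
    omega

theorem Mo_scale {S : Type*} [CommRing S] (T : S) (N : ℕ) (x y : Fin 4 → S) (r s : ℕ) :
    Mo (fun j => T ^ N * x j) (fun j => T * y j) r s = T ^ (N * r + s) * Mo x y r s := by
  simp only [Mo, Finset.mul_sum]
  refine Finset.sum_congr rfl fun j _ => ?_
  rw [mul_pow, mul_pow, mul_pow, pow_add, pow_mul]
  ring

theorem Dh_eq {S : Type*} [CommRing S] (e : S) (a b : Fin 4 → S) (k l : ℕ) :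
    Dh e a b k l = Mo (fun j => 1 + e * a j) (fun j => 1 + e * b j) k l := rfl

/-- weighted sums and their leading term -/
theorem lead_sum {k : Type*} [Field k] (D : ℕ) (g : ℕ → k) (n : ℕ) (hn : n ∈ Smix D)
    (hg : ∀ m, n < m → g m = 0) (P : ℕ → Pk k) :
    ∃ r : Pk k, ∑ m ∈ Smix D, C (g m) * (X none ^ (5 * (n - m)) * P m) =
      C (g n) * P n + X none ^ 5 * r := by
  classical
  refine ⟨∑ m ∈ (Smix D).erase n, C (g m) * (X none ^ (5 * (n - m) - 5) * P m), ?_⟩
  rw [← Finset.add_sum_erase _ _ hn, Nat.sub_self, mul_zero, pow_zero, one_mul, Finset.mul_sum]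
  congr 1
  refine Finset.sum_congr rfl fun m hm => ?_
  obtain ⟨hmn, -⟩ := Finset.mem_erase.1 hm
  rcases lt_or_gt_of_ne hmn with h | h
  · have h5 : (X none : Pk k) ^ (5 * (n - m)) = X none ^ 5 * X none ^ (5 * (n - m) - 5) := by
      rw [← pow_add]
      congr 1
      omega
    rw [h5]
    ring
  · rw [hg m h, map_zero]
    ring

/-- a scaled sum at an actual point -/
theorem unscale {k K : Type*} [Field k] [Field K] [Algebra k K] (D : ℕ) (g : ℕ → k) (n : ℕ)
    (hg : ∀ m, n < m → g m = 0) (P : ℕ → Pk k) (Q : ℕ → K) (ε : K) (hε : ε ≠ 0) (z : Sg → K)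
    (hPQ : ∀ m, Q m = ((ε ^ 5)⁻¹) ^ m * aeval (pt ε z) (P m)) :
    ∑ m ∈ Smix D, algebraMap k K (g m) * Q m = ((ε ^ 5)⁻¹) ^ n *
      aeval (pt ε z) (∑ m ∈ Smix D, C (g m) * (X none ^ (5 * (n - m)) * P m)) := by
  rw [map_sum, Finset.mul_sum]
  refine Finset.sum_congr rfl fun m _ => ?_
  rw [map_mul, map_mul, map_pow, aeval_X, hPQ m]
  have h0 : pt ε z none = ε := rfl
  have h1 : aeval (pt ε z) (C (g m) : Pk k) = algebraMap k K (g m) := by
    rw [aeval_C]
  rw [h0, h1]
  rcases le_or_gt m n with h | h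
  · obtain ⟨d, rfl⟩ := Nat.exists_eq_add_of_le h
    have h2 : m + d - m = d := by omega
    have h3 : ((ε ^ 5)⁻¹) ^ (m + d) * ε ^ (5 * d) = ((ε ^ 5)⁻¹) ^ m := by
      rw [pow_add, pow_mul, mul_assoc, ← mul_pow, inv_mul_cancel₀ (pow_ne_zero 5 hε), one_pow,
        mul_one]
    rw [h2, ← h3]
    ring
  · rw [hg m h, map_zero]
    ring

/-- the square of a monomial -/
theorem sq_exp {S : Type*} [CommRing S] (e a a' b b' : S) (k l : ℕ) :
    ∃ r : S, ((1 + e * a) ^ k - (1 + e * a') ^ k) * ((1 + e * b) ^ l - (1 + e * b') ^ l) =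
      e ^ 2 * (((k : S) * (l : S)) * ((a - a') * (b - b')) + e * r) := by
  obtain ⟨r1, h1⟩ := one_add_pow4 e a k
  obtain ⟨r2, h2⟩ := one_add_pow4 e a' k
  obtain ⟨r3, h3⟩ := one_add_pow4 e b l
  obtain ⟨r4, h4⟩ := one_add_pow4 e b' l
  rw [h1, h2, h3, h4]
  set c2 : S := ((k.choose 2 : ℕ) : S)
  set c3 : S := ((k.choose 3 : ℕ) : S)
  set d2 : S := ((l.choose 2 : ℕ) : S)
  set d3 : S := ((l.choose 3 : ℕ) : S)
  set s1 : S := (c2 * a ^ 2) + e * (c3 * a ^ 3) + e ^ 2 * r1 with hs1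
  set s2 : S := (c2 * a' ^ 2) + e * (c3 * a' ^ 3) + e ^ 2 * r2 with hs2
  set s3 : S := (d2 * b ^ 2) + e * (d3 * b ^ 3) + e ^ 2 * r3 with hs3
  set s4 : S := (d2 * b' ^ 2) + e * (d3 * b' ^ 3) + e ^ 2 * r4 with hs4
  refine ⟨(k : S) * (a - a') * (s3 - s4) + (s1 - s2) * ((l : S) * (b - b')) +
    e * ((s1 - s2) * (s3 - s4)), ?_⟩
  rw [hs1, hs2, hs3, hs4]
  ring

/-- existence of a non-degenerate closed walk of length eight -/
theorem sol (D : ℕ) (hD : 4 ≤ D) {k K : Type*} [Field k] [Field K] [Algebra k K] [IsAlgClosed K]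
    (hchar : ∀ n : ℕ, 1 ≤ n → n ≤ D → (n : k) ≠ 0) (u : Fin 3 → ℕ → k)
    (hu : ∀ i m, m ∉ Smix D → u i m = 0) :
    ∃ a b : Fin 4 → K, (∀ j, a j ≠ a (j + 1)) ∧ (∀ j, b j ≠ b (j + 1)) ∧
      (∀ i, ∑ m ∈ Smix D, algebraMap k K (u i m) * Mo a b (m / (D + 1)) (m % (D + 1)) = 0) ∧
      ∀ i, (∃ m, u i m ≠ 0) → ∀ j j' : Fin 4, ∑ m ∈ Smix D, algebraMap k K (u i m) *
        ((a j ^ (m / (D + 1)) - a (j + 1) ^ (m / (D + 1))) *
          (b j' ^ (m % (D + 1)) - b (j' + 1) ^ (m % (D + 1)))) ≠ 0 := by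
  classical
  have h2 : (2 : k) ≠ 0 := by
    have := hchar 2 (by omega) (by omega)
    exact_mod_cast this
  have h3 : (3 : k) ≠ 0 := by
    have := hchar 3 (by omega) (by omega)
    exact_mod_cast this
  obtain ⟨m, g, hinj, hmS, hgS, hg1, hg2, hspan⟩ := ech 3 (Smix D) (card_Smix D hD) u hu
  -- the exponents
  set kk : Fin 3 → ℕ := fun i => m i / (D + 1) with hkk
  set ll : Fin 3 → ℕ := fun i => m i % (D + 1) with hll
  have hbd : ∀ i, (1 ≤ kk i ∧ kk i ≤ D) ∧ (1 ≤ ll i ∧ ll i ≤ D) := fun i => Smix_bd (hmS i)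
  have hk0 : ∀ i, ((kk i : ℕ) : k) ≠ 0 := fun i => hchar _ (hbd i).1.1 (hbd i).1.2
  have hl0 : ∀ i, ((ll i : ℕ) : k) ≠ 0 := fun i => hchar _ (hbd i).2.1 (hbd i).2.2
  have hcast : ∀ x y : ℕ, 1 ≤ x → x ≤ D → 1 ≤ y → y ≤ D → (x : k) = (y : k) → x = y := by
    intro x y hx hx' hy hy' hxy
    rcases lt_trichotomy x y with h | h | h
    · exfalso
      apply hchar (y - x) (by omega) (by omega)
      rw [Nat.cast_sub h.le, hxy, sub_self]
    · exact h
    · exfalso
      apply hchar (x - y) (by omega) (by omega)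
      rw [Nat.cast_sub h.le, hxy, sub_self]
  -- the scaled closures
  set P : ℕ → Pk k := fun n => Dh (X none) (va k) (vb k) (n / (D + 1)) (n % (D + 1)) with hP
  set E0 : Fin 3 → Pk k := fun i =>
    ∑ n ∈ Smix D, C (g i n) * (X none ^ (5 * (m i - n)) * P n) with hE0
  set E : Fin 3 → Pk k := fun i => C ((((kk i : ℕ) : k) * ((ll i : ℕ) : k))⁻¹) * E0 i with hE
  -- the squares
  have hsq : ∀ (i : Fin 3) (j j' : Fin 4), ∃ (top : ℕ) (Hs : Pk k),
      (∀ n, top < n → u i n = 0) ∧ (((∃ n, u i n ≠ 0) →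
      ∑ n ∈ Smix D, C (u i n) * (X none ^ (5 * (top - n)) *
        (((1 + X none * va k j) ^ (n / (D + 1)) - (1 + X none * va k (j + 1)) ^ (n / (D + 1))) *
        ((1 + X none * vb k j') ^ (n % (D + 1)) - (1 + X none * vb k (j' + 1)) ^ (n % (D + 1)))))
        = X none ^ 2 * Hs) ∧
      ∀ a b : Fin 4 → k, (∀ j : Fin 4, a j ≠ a (j + 1)) → (∀ j : Fin 4, b j ≠ b (j + 1)) →
        eval (pt 0 (Sum.elim a b)) Hs ≠ 0) := by
    intro i j j'
    by_cases hi : ∃ n, u i n ≠ 0
    · obtain ⟨n1, hn1⟩ := hi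
      have hTne : ((Smix D).filter fun n => u i n ≠ 0).Nonempty := by
        refine ⟨n1, Finset.mem_filter.2 ⟨?_, hn1⟩⟩
        by_contra h
        exact hn1 (hu i n1 h)
      obtain ⟨n0, hn0T, hmax⟩ := Finset.exists_max_image _ (fun n : ℕ => n) hTne
      obtain ⟨hn0, hi0⟩ := Finset.mem_filter.1 hn0T
      have hlarge : ∀ n, n0 < n → u i n = 0 := by
        intro n hn
        by_contra h
        have h1 : n ∈ Smix D := by
          by_contra h2
          exact h (hu i n h2)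
        have h2 : n ≤ n0 := hmax n (Finset.mem_filter.2 ⟨h1, h⟩)
        omega
      obtain ⟨r, hr⟩ := lead_sum D (u i) n0 hn0 hlarge (fun n =>
        (((1 + X none * va k j) ^ (n / (D + 1)) - (1 + X none * va k (j + 1)) ^ (n / (D + 1))) *
        ((1 + X none * vb k j') ^ (n % (D + 1)) - (1 + X none * vb k (j' + 1)) ^ (n % (D + 1)))))
      obtain ⟨r', hr'⟩ := sq_exp (X none : Pk k) (va k j) (va k (j + 1)) (vb k j') (vb k (j' + 1))
        (n0 / (D + 1)) (n0 % (D + 1))
      refine ⟨n0, C (u i n0) * ((((n0 / (D + 1) : ℕ) : Pk k) * ((n0 % (D + 1) : ℕ) : Pk k)) *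
        ((va k j - va k (j + 1)) * (vb k j' - vb k (j' + 1)))) +
        X none * (C (u i n0) * r' + X none ^ 2 * r), hlarge, fun _ => ?_, fun a b ha hb => ?_⟩
      · rw [hr, hr']
        ring
      · have hx : eval (pt 0 (Sum.elim a b)) (X none : Pk k) = 0 := by simp [pt]
        have hb' := Smix_bd hn0
        have e1 : eval (pt 0 (Sum.elim a b)) (((n0 / (D + 1) : ℕ) : Pk k)) =
            ((n0 / (D + 1) : ℕ) : k) := map_natCast _ _
        have e2 : eval (pt 0 (Sum.elim a b)) (((n0 % (D + 1) : ℕ) : Pk k)) =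
            ((n0 % (D + 1) : ℕ) : k) := map_natCast _ _
        rw [map_add, map_mul, map_mul (eval _) (X none), hx, zero_mul, add_zero, map_mul, map_mul,
          map_mul, map_sub, map_sub, eval_C, e1, e2]
        simp only [va, vb, eval_X, pt, Option.elim, Sum.elim_inl, Sum.elim_inr]
        refine mul_ne_zero hi0 (mul_ne_zero (mul_ne_zero ?_ ?_) (mul_ne_zero ?_ ?_))
        · exact hchar _ hb'.1.1 hb'.1.2
        · exact hchar _ hb'.2.1 hb'.2.2
        · exact sub_ne_zero.2 (ha j)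
        · exact sub_ne_zero.2 (hb j')
    · refine ⟨0, 1, fun n _ => ?_, fun h => absurd h hi, fun a b _ _ => ?_⟩
      · by_contra h
        exact hi ⟨n, h⟩
      · rw [map_one]
        exact one_ne_zero
  choose top Hs htop hHs hHs0 using hsq
  set H : Pk k := (∏ j : Fin 4, (va k j - va k (j + 1))) * (∏ j : Fin 4, (vb k j - vb k (j + 1))) *
    ∏ i : Fin 3, ∏ j : Fin 4, ∏ j' : Fin 4, Hs i j j' with hH
  obtain ⟨ε, z, hε, hz, hHz⟩ := sol_core (K := K) h2 h3 E (fun i => ((kk i : ℕ) : k))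
    (fun i => ((ll i : ℕ) : k)) (by
      rintro i j hij ⟨h4, h5⟩
      apply hij
      apply hinj
      have e1 := hcast _ _ (hbd i).1.1 (hbd i).1.2 (hbd j).1.1 (hbd j).1.2 h4
      have e2 := hcast _ _ (hbd i).2.1 (hbd i).2.2 (hbd j).2.1 (hbd j).2.2 h5
      have e3 := Nat.div_add_mod (m i) (D + 1)
      have e4 := Nat.div_add_mod (m j) (D + 1)
      simp only [hkk, hll] at e1 e2
      rw [e1, e2] at e3
      exact e3.symm.trans e4) (by
      intro i
      obtain ⟨r, hr⟩ := lead_sum D (g i) (m i) (hmS i) (hg2 i) P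
      obtain ⟨r', hr'⟩ := Dh_exp (X none : Pk k) (va k) (vb k) (kk i) (ll i)
      refine ⟨C ((((kk i : ℕ) : k) * ((ll i : ℕ) : k))⁻¹) * (r' + r), ?_⟩
      have h6 : (6 : k) ≠ 0 := by
        have : (6 : k) = 2 * 3 := by norm_num
        rw [this]
        exact mul_ne_zero h2 h3
      have h4 : (4 : k) ≠ 0 := by
        have : (4 : k) = 2 * 2 := by norm_num
        rw [this]
        exact mul_ne_zero h2 h2
      have hc2 : ∀ n : ℕ, ((n.choose 2 : ℕ) : k) = (n : k) * ((n : k) - 1) / 2 := by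
        intro n
        rw [eq_div_iff h2]
        have e1 : (n.choose 2 : ℕ) * 2 + n = n * n := by
          induction n with
          | zero => rfl
          | succ n ih =>
            rw [Nat.choose_succ_succ' n 1, Nat.choose_one_right]
            nlinarith
        have e2 : ((n.choose 2 : ℕ) : k) * 2 + (n : k) = (n : k) * (n : k) := by
          have e3 := congrArg (Nat.cast : ℕ → k) e1
          push_cast at e3
          exact e3
        linear_combination e2
      have hc3 : ∀ n : ℕ, ((n.choose 3 : ℕ) : k) = (n : k) * ((n : k) - 1) * ((n : k) - 2) / 6 := by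
        intro n
        induction n with
        | zero => simp
        | succ n ih =>
          rw [Nat.choose_succ_succ' n 2, Nat.cast_add, ih, hc2 n]
          push_cast
          field_simp
          ring
      have e0 : ∀ n : ℕ, ((n : ℕ) : Pk k) = C (n : k) := fun n => (map_natCast C n).symm
      have hPm : P (m i) = Dh (X none) (va k) (vb k) (kk i) (ll i) := rfl
      simp only [hE, hE0]
      rw [hr, hg1 i, C_1, one_mul, hPm, hr']
      have ek : ((kk i : ℕ) : k) ≠ 0 := hk0 i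
      have el : ((ll i : ℕ) : k) ≠ 0 := hl0 i
      set κ : k := ((kk i : ℕ) : k) with hκ
      set lam : k := ((ll i : ℕ) : k) with hlam
      have g1 : (C ((κ * lam)⁻¹) : Pk k) * (((kk i : ℕ) : Pk k) * ((ll i : ℕ) : Pk k)) = 1 := by
        rw [e0, e0, ← map_mul, ← map_mul, inv_mul_cancel₀ (mul_ne_zero ek el), map_one]
      have g2 : (C ((κ * lam)⁻¹) : Pk k) * ((((kk i).choose 2 : ℕ) : Pk k) * ((ll i : ℕ) : Pk k)) =
          C ((κ - 1) / 2) := by
        rw [e0, e0, ← map_mul, ← map_mul, hc2]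
        congr 1
        simp only [← hκ, ← hlam]
        field_simp
      have g3 : (C ((κ * lam)⁻¹) : Pk k) * (((kk i : ℕ) : Pk k) * (((ll i).choose 2 : ℕ) : Pk k)) =
          C ((lam - 1) / 2) := by
        rw [e0, e0, ← map_mul, ← map_mul, hc2]
        congr 1
        simp only [← hκ, ← hlam]
        field_simp
      have g4 : (C ((κ * lam)⁻¹) : Pk k) * ((((kk i).choose 3 : ℕ) : Pk k) * ((ll i : ℕ) : Pk k)) =
          C ((κ - 1) * (κ - 2) / 6) := by
        rw [e0, e0, ← map_mul, ← map_mul, hc3]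
        congr 1
        simp only [← hκ, ← hlam]
        field_simp
      have g5 : (C ((κ * lam)⁻¹) : Pk k) * ((((kk i).choose 2 : ℕ) : Pk k) *
          (((ll i).choose 2 : ℕ) : Pk k)) = C ((κ - 1) * (lam - 1) / 4) := by
        rw [e0, e0, ← map_mul, ← map_mul, hc2, hc2]
        congr 1
        simp only [← hκ, ← hlam]
        field_simp
        ring
      have g6 : (C ((κ * lam)⁻¹) : Pk k) * (((kk i : ℕ) : Pk k) * (((ll i).choose 3 : ℕ) : Pk k)) =
          C ((lam - 1) * (lam - 2) / 6) := by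
        rw [e0, e0, ← map_mul, ← map_mul, hc3]
        congr 1
        simp only [← hκ, ← hlam]
        field_simp
      rw [← g2, ← g3, ← g4, ← g5, ← g6]
      linear_combination (X none ^ 2 * Mo (va k) (vb k) 1 1) * g1)
    H (by
      intro a b ha hb
      rw [hH, map_mul, map_mul, map_prod, map_prod, map_prod]
      refine mul_ne_zero (mul_ne_zero ?_ ?_) ?_
      · refine Finset.prod_ne_zero_iff.2 fun j _ => ?_
        rw [map_sub]
        simp only [va, eval_X, pt, Option.elim, Sum.elim_inl]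
        exact sub_ne_zero.2 (ha j)
      · refine Finset.prod_ne_zero_iff.2 fun j _ => ?_
        rw [map_sub]
        simp only [vb, eval_X, pt, Option.elim, Sum.elim_inr]
        exact sub_ne_zero.2 (hb j)
      · refine Finset.prod_ne_zero_iff.2 fun i _ => ?_
        rw [map_prod]
        refine Finset.prod_ne_zero_iff.2 fun j _ => ?_
        rw [map_prod]
        exact Finset.prod_ne_zero_iff.2 fun j' _ => hHs0 i j j' a b ha hb)
  rw [hH, map_mul, map_mul, map_prod, map_prod, map_prod] at hHz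
  obtain ⟨hHz1, hHz3⟩ := mul_ne_zero_iff.1 hHz
  obtain ⟨hHz1, hHz2⟩ := mul_ne_zero_iff.1 hHz1
  set T : K := (ε ^ 5)⁻¹ with hT
  have hT0 : T ≠ 0 := inv_ne_zero (pow_ne_zero 5 hε)
  set α : Fin 4 → K := fun j => z (Sum.inl j) with hα
  set β : Fin 4 → K := fun j => z (Sum.inr j) with hβ
  have hva : ∀ j, aeval (pt ε z) (va k j) = α j := fun j => by
    simp only [va, aeval_X, pt, Option.elim, hα]
  have hvb : ∀ j, aeval (pt ε z) (vb k j) = β j := fun j => by
    simp only [vb, aeval_X, pt, Option.elim, hβ]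
  have hxe : aeval (pt ε z) (X none : Pk k) = ε := by
    simp only [aeval_X, pt, Option.elim]
  have hαne : ∀ j, α j ≠ α (j + 1) := by
    intro j h
    have h1 := Finset.prod_ne_zero_iff.1 hHz1 j (Finset.mem_univ j)
    rw [map_sub, hva, hva, h, sub_self] at h1
    exact h1 rfl
  have hβne : ∀ j, β j ≠ β (j + 1) := by
    intro j h
    have h1 := Finset.prod_ne_zero_iff.1 hHz2 j (Finset.mem_univ j)
    rw [map_sub, hvb, hvb, h, sub_self] at h1
    exact h1 rfl
  set a : Fin 4 → K := fun j => T ^ (D + 1) * (1 + ε * α j) with ha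
  set b : Fin 4 → K := fun j => T * (1 + ε * β j) with hb
  have hdm : ∀ n : ℕ, (D + 1) * (n / (D + 1)) + n % (D + 1) = n := fun n => Nat.div_add_mod _ _
  have hPQ : ∀ n, Mo a b (n / (D + 1)) (n % (D + 1)) = T ^ n * aeval (pt ε z) (P n) := by
    intro n
    rw [ha, hb, Mo_scale, hdm n]
    congr 1
    have h1 := map_Dh ((aeval (pt ε z) : Pk k →ₐ[k] K) : Pk k →+* K) (X none) (va k) (vb k)
      (n / (D + 1)) (n % (D + 1))
    have h1' : aeval (pt ε z) (P n) = Dh (aeval (pt ε z) (X none : Pk k))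
      (fun j => aeval (pt ε z) (va k j)) (fun j => aeval (pt ε z) (vb k j)) (n / (D + 1))
      (n % (D + 1)) := h1
    rw [h1', hxe, Dh_eq]
    simp only [hva, hvb]
  have hgz : ∀ i, ∑ n ∈ Smix D, algebraMap k K (g i n) * Mo a b (n / (D + 1)) (n % (D + 1)) = 0 := by
    intro i
    rw [unscale D (g i) (m i) (hg2 i) P _ ε hε z hPQ]
    have h1 := hz i
    simp only [hE] at h1
    rw [map_mul, mul_eq_zero] at h1
    rcases h1 with h1 | h1
    · exfalso
      rw [aeval_C] at h1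
      have h5 := (map_eq_zero (algebraMap k K)).1 h1
      exact inv_ne_zero (mul_ne_zero (hk0 i) (hl0 i)) h5
    · have h1' : aeval (pt ε z) (∑ n ∈ Smix D, C (g i n) * (X none ^ (5 * (m i - n)) * P n)) = 0 :=
        h1
      rw [h1', mul_zero]
  refine ⟨a, b, fun j h => ?_, fun j h => ?_, fun i => ?_, fun i hi j j' => ?_⟩
  · have h1 := mul_left_cancel₀ (pow_ne_zero (D + 1) hT0) h
    exact hαne j (mul_left_cancel₀ hε (add_left_cancel h1))
  · have h1 := mul_left_cancel₀ hT0 h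
    exact hβne j (mul_left_cancel₀ hε (add_left_cancel h1))
  · obtain ⟨c, hc⟩ := hspan i
    have h1 : ∑ n ∈ Smix D, algebraMap k K (u i n) * Mo a b (n / (D + 1)) (n % (D + 1)) =
        ∑ l, algebraMap k K (c l) * ∑ n ∈ Smix D, algebraMap k K (g l n) *
          Mo a b (n / (D + 1)) (n % (D + 1)) := by
      simp only [Finset.mul_sum]
      rw [Finset.sum_comm]
      refine Finset.sum_congr rfl fun n _ => ?_
      rw [hc n, map_sum, Finset.sum_mul]
      refine Finset.sum_congr rfl fun l _ => ?_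
      rw [map_mul]
      ring
    rw [h1]
    exact Finset.sum_eq_zero fun l _ => by rw [hgz l, mul_zero]
  · have hPQ2 : ∀ n, ((a j ^ (n / (D + 1)) - a (j + 1) ^ (n / (D + 1))) *
        (b j' ^ (n % (D + 1)) - b (j' + 1) ^ (n % (D + 1)))) = T ^ n * aeval (pt ε z)
        (((1 + X none * va k j) ^ (n / (D + 1)) - (1 + X none * va k (j + 1)) ^ (n / (D + 1))) *
        ((1 + X none * vb k j') ^ (n % (D + 1)) - (1 + X none * vb k (j' + 1)) ^ (n % (D + 1)))) := by
      intro n
      simp only [map_mul, map_sub, map_pow, map_add, map_one, hva, hvb, hxe]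
      have h5 : T ^ n = (T ^ (D + 1)) ^ (n / (D + 1)) * T ^ (n % (D + 1)) := by
        rw [← pow_mul, ← pow_add, hdm n]
      rw [h5]
      simp only [ha, hb, mul_pow]
      ring
    rw [unscale D (u i) (top i j j') (htop i j j') _ _ ε hε z hPQ2, hHs i j j' hi, map_mul,
      map_pow, hxe]
    refine mul_ne_zero (pow_ne_zero _ hT0) (mul_ne_zero (pow_ne_zero _ hε) ?_)
    have h1 := Finset.prod_ne_zero_iff.1 hHz3 i (Finset.mem_univ i)
    rw [map_prod] at h1
    have h5 := Finset.prod_ne_zero_iff.1 h1 j (Finset.mem_univ j)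
    rw [map_prod] at h5
    exact Finset.prod_ne_zero_iff.1 h5 j' (Finset.mem_univ j')

end Pool.Agent.H51.ADG
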