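import Pool.Agent.H51.ADG.Core

/-!
# Common zeros of three scaled closures
-/

open MvPolynomial

namespace Pool.Agent.H51.ADG

/-- the coefficients of order three and four -/
noncomputable def Wc {k : Type*} [Field k] (x y : k) : Fin 6 → k :=
  ![0, (x - 1) / 2, (y - 1) / 2, 0, 0, 0]

/-- the main lifting step: a common zero of three scaled closures -/
theorem sol_core {k K : Type*} [Field k] [Field K] [Algebra k K] [IsAlgClosed K]
    (h2 : (2 : k) ≠ 0) (h3 : (3 : k) ≠ 0) (E : Fin 3 → Pk k) (ka la : Fin 3 → k)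
    (hdist : ∀ i j, i ≠ j → ¬ (ka i = ka j ∧ la i = la j))
    (hE : ∀ i, ∃ r : Pk k, E i = X none ^ 2 * Mo (va k) (vb k) 1 1 +
      X none ^ 3 * (C ((ka i - 1) / 2) * Mo (va k) (vb k) 2 1 +
        C ((la i - 1) / 2) * Mo (va k) (vb k) 1 2) +
      X none ^ 4 * (C ((ka i - 1) * (ka i - 2) / 6) * Mo (va k) (vb k) 3 1 +
        C ((ka i - 1) * (la i - 1) / 4) * Mo (va k) (vb k) 2 2 +
        C ((la i - 1) * (la i - 2) / 6) * Mo (va k) (vb k) 1 3) + X none ^ 5 * r)
    (H : Pk k) (hH : ∀ a b : Fin 4 → k, (∀ j : Fin 4, a j ≠ a (j + 1)) →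
      (∀ j : Fin 4, b j ≠ b (j + 1)) → eval (pt 0 (Sum.elim a b)) H ≠ 0) :
    ∃ (ε : K) (z : Sg → K), ε ≠ 0 ∧ (∀ i, aeval (pt ε z) (E i) = 0) ∧ aeval (pt ε z) H ≠ 0 := by
  choose R hR using hE
  set W : Fin 3 → Pk k := fun i => C ((ka i - 1) / 2) * Mo (va k) (vb k) 2 1 +
    C ((la i - 1) / 2) * Mo (va k) (vb k) 1 2 with hW
  set V : Fin 3 → Pk k := fun i => C ((ka i - 1) * (ka i - 2) / 6) * Mo (va k) (vb k) 3 1 +
    C ((ka i - 1) * (la i - 1) / 4) * Mo (va k) (vb k) 2 2 +
    C ((la i - 1) * (la i - 2) / 6) * Mo (va k) (vb k) 1 3 with hV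
  have hE' : ∀ i, E i = X none ^ 2 * Mo (va k) (vb k) 1 1 + X none ^ 3 * W i +
    X none ^ 4 * V i + X none ^ 5 * R i := hR
  have h6 : (6 : k) ≠ 0 := by
    have : (6 : k) = 2 * 3 := by norm_num
    rw [this]
    exact mul_ne_zero h2 h3
  have h4 : (4 : k) ≠ 0 := by
    have : (4 : k) = 2 * 2 := by norm_num
    rw [this]
    exact mul_ne_zero h2 h2
  have hne : ∀ x : k, x ≠ 0 → (∀ j : Fin 4, ax x j ≠ ax x (j + 1)) ∧
      (∀ j : Fin 4, bx x j ≠ bx x (j + 1)) := by
    intro x hx
    constructor
    · intro j h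
      fin_cases j
      · have : (2 : k) * x = 0 := by
          simp [ax] at h
          linear_combination h
        exact mul_ne_zero h2 hx this
      · have : (4 : k) * x = 0 := by
          simp [ax] at h
          linear_combination h
        exact mul_ne_zero h4 hx this
      · have : (2 : k) * x = 0 := by
          simp [ax] at h
          linear_combination h
        exact mul_ne_zero h2 hx this
      · have : (4 : k) * x = 0 := by
          simp [ax] at h
          linear_combination -h
        exact mul_ne_zero h4 hx this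
    · intro j h
      fin_cases j
      · have : (3 : k) * x = 0 := by
          simp [bx] at h
          linear_combination -h
        exact mul_ne_zero h3 hx this
      · have : (1 : k) * x = 0 := by
          simp [bx] at h
          linear_combination -h
        exact mul_ne_zero one_ne_zero hx this
      · have : (3 : k) * x = 0 := by
          simp [bx] at h
          linear_combination h
        exact mul_ne_zero h3 hx this
      · have : (1 : k) * x = 0 := by
          simp [bx] at h
          linear_combination -h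
        exact mul_ne_zero one_ne_zero hx this
  have hu1 : ∀ j : Fin 4, (![0, 1, 3, 2] : Fin 4 → k) j ≠ (![0, 1, 3, 2] : Fin 4 → k) (j + 1) := by
    intro j h
    fin_cases j
    · simp at h
    · have : (2 : k) = 0 := by
        simp at h
        linear_combination -h
      exact h2 this
    · have : (1 : k) = 0 := by
        simp at h
        linear_combination h
      exact one_ne_zero this
    · have : (2 : k) = 0 := by
        simp at h
        linear_combination h
      exact h2 this
  have hu2 : ∀ j : Fin 4, (![1, 0, 1, 0] : Fin 4 → k) j ≠ (![1, 0, 1, 0] : Fin 4 → k) (j + 1) := by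
    intro j h
    fin_cases j <;> simp at h
  by_cases hcol : (ka 1 - ka 0) * (la 2 - la 0) - (ka 2 - ka 0) * (la 1 - la 0) = 0
  · -- collinear
    set p := ka 1 - ka 0 with hp
    set q := la 1 - la 0 with hq
    obtain ⟨t, ht1, ht2⟩ : ∃ t : k, ka 2 - ka 0 = t * p ∧ la 2 - la 0 = t * q := by
      by_cases hp0 : p = 0
      · have hq0 : q ≠ 0 := by
          intro hq0
          exact hdist 1 0 (by decide) ⟨sub_eq_zero.1 hp0, sub_eq_zero.1 hq0⟩
        refine ⟨(la 2 - la 0) / q, ?_, (div_mul_cancel₀ _ hq0).symm⟩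
        rw [hp0, zero_mul, zero_sub, neg_eq_zero] at hcol
        rcases mul_eq_zero.1 hcol with h | h
        · rw [h, hp0, mul_zero]
        · exact absurd h hq0
      · refine ⟨(ka 2 - ka 0) / p, (div_mul_cancel₀ _ hp0).symm, ?_⟩
        field_simp
        linear_combination hcol
    have ht0 : t ≠ 0 := by
      intro h
      rw [h, zero_mul] at ht1 ht2
      exact hdist 2 0 (by decide) ⟨sub_eq_zero.1 ht1, sub_eq_zero.1 ht2⟩
    have ht3 : t - 1 ≠ 0 := by
      intro h
      have ht : t = 1 := sub_eq_zero.1 h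
      rw [ht, one_mul] at ht1 ht2
      exact hdist 2 1 (by decide) ⟨sub_left_injective ht1, sub_left_injective ht2⟩
    have hk1 : ka 1 = ka 0 + p := by rw [hp]; ring
    have hl1 : la 1 = la 0 + q := by rw [hq]; ring
    have hk2 : ka 2 = ka 0 + t * p := by linear_combination ht1
    have hl2 : la 2 = la 0 + t * q := by linear_combination ht2
    set cc : Fin 3 → Fin 6 → k := ![![1, 0, 0, 0, 0, 0], ![0, p / 2, q / 2, 0, 0, 0],
      ![0, 0, 0, t * (t - 1) * (p ^ 2 / 6), t * (t - 1) * (p * q / 4),
        t * (t - 1) * (q ^ 2 / 6)]] with hcc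
    have hmain : ∀ (a b : Fin 4 → k) (s : Fin 3 → Sg), (∀ j : Fin 4, a j ≠ a (j + 1)) →
        (∀ j : Fin 4, b j ≠ b (j + 1)) → (∀ i, Lv a b (cc i) = 0) →
        (Matrix.of fun i j => dLv a b (cc i) (s j)).det ≠ 0 →
        ∃ (ε : K) (z : Sg → K), ε ≠ 0 ∧ (∀ i, aeval (pt ε z) (E i) = 0) ∧
          aeval (pt ε z) H ≠ 0 := by
      intro a b s ha hb hz hdet
      obtain ⟨ε, z, hε, hz, hHz⟩ := fin_core (K := K)
        ![E 0, E 1 - E 0, E 2 - E 0 - C t * (E 1 - E 0)]
        ![W 0 + X none * V 0 + X none ^ 2 * R 0,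
          (V 1 - V 0) + X none * (R 1 - R 0),
          R 2 - R 0 - C t * (R 1 - R 0)] ![2, 3, 4] cc (by
          intro i
          fin_cases i
          · simp only [Fin.zero_eta, Matrix.cons_val_zero, hcc]
            rw [hE' 0, Lc]
            simp
            ring
          · simp only [Fin.mk_one, Matrix.cons_val_one, Matrix.cons_val_zero, hcc]
            have h1 : Lc ![0, p / 2, q / 2, 0, 0, 0] = W 1 - W 0 := by
              simp only [Lc, hW, Matrix.cons_val, map_zero, hk1, hl1]
              have h5 : (C ((ka 0 + p - 1) / 2) : Pk k) = C (p / 2) + C ((ka 0 - 1) / 2) := by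
                rw [← map_add]
                congr 1
                ring
              have h7 : (C ((la 0 + q - 1) / 2) : Pk k) = C (q / 2) + C ((la 0 - 1) / 2) := by
                rw [← map_add]
                congr 1
                ring
              rw [h5, h7]
              ring
            rw [h1, hE' 0, hE' 1]
            ring
          · simp only [Fin.reduceFinMk, Matrix.cons_val, hcc]
            have h1 : W 2 - W 0 - C t * (W 1 - W 0) = 0 := by
              simp only [hW, hk1, hl1, hk2, hl2]
              have h5 : (C ((ka 0 + p - 1) / 2) : Pk k) = C (p / 2) + C ((ka 0 - 1) / 2) := by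
                rw [← map_add]
                congr 1
                ring
              have h7 : (C ((la 0 + q - 1) / 2) : Pk k) = C (q / 2) + C ((la 0 - 1) / 2) := by
                rw [← map_add]
                congr 1
                ring
              have h8 : (C ((ka 0 + t * p - 1) / 2) : Pk k) =
                  C t * C (p / 2) + C ((ka 0 - 1) / 2) := by
                rw [← map_mul, ← map_add]
                congr 1
                ring
              have h9 : (C ((la 0 + t * q - 1) / 2) : Pk k) =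
                  C t * C (q / 2) + C ((la 0 - 1) / 2) := by
                rw [← map_mul, ← map_add]
                congr 1
                ring
              rw [h5, h7, h8, h9]
              ring
            have h1' : Lc ![0, 0, 0, t * (t - 1) * (p ^ 2 / 6), t * (t - 1) * (p * q / 4),
                t * (t - 1) * (q ^ 2 / 6)] = V 2 - V 0 - C t * (V 1 - V 0) := by
              have h5 : t * (t - 1) * (p ^ 2 / 6) = (ka 2 - 1) * (ka 2 - 2) / 6 -
                  (ka 0 - 1) * (ka 0 - 2) / 6 - t * ((ka 1 - 1) * (ka 1 - 2) / 6 -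
                  (ka 0 - 1) * (ka 0 - 2) / 6) := by
                rw [hk1, hk2]
                ring
              have h7 : t * (t - 1) * (p * q / 4) = (ka 2 - 1) * (la 2 - 1) / 4 -
                  (ka 0 - 1) * (la 0 - 1) / 4 - t * ((ka 1 - 1) * (la 1 - 1) / 4 -
                  (ka 0 - 1) * (la 0 - 1) / 4) := by
                rw [hk1, hk2, hl1, hl2]
                ring
              have h8 : t * (t - 1) * (q ^ 2 / 6) = (la 2 - 1) * (la 2 - 2) / 6 -
                  (la 0 - 1) * (la 0 - 2) / 6 - t * ((la 1 - 1) * (la 1 - 2) / 6 -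
                  (la 0 - 1) * (la 0 - 2) / 6) := by
                rw [hl1, hl2]
                ring
              rw [h5, h7, h8]
              simp only [Lc, hV, Matrix.cons_val, map_zero, map_sub, map_mul C t]
              ring
            rw [h1', hE' 0, hE' 1, hE' 2]
            linear_combination (X none ^ 3) * h1)
        a b s hz hdet H (hH a b ha hb)
      refine ⟨ε, z, hε, fun i => ?_, hHz⟩
      have hz0 := hz 0
      have hz1 := hz 1
      have hz2 := hz 2
      simp only [Matrix.cons_val_zero, Matrix.cons_val_one, Matrix.cons_val, map_sub,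
        map_mul] at hz0 hz1 hz2
      rw [hz0, sub_zero] at hz1
      rw [hz0, hz1] at hz2
      simp at hz2
      fin_cases i
      · exact hz0
      · exact hz1
      · exact hz2
    by_cases hp0 : p = 0
    · -- vertical line
      have hq0 : q ≠ 0 := by
        intro hq0
        exact hdist 1 0 (by decide) ⟨sub_eq_zero.1 hp0, sub_eq_zero.1 hq0⟩
      refine hmain ![0, 1, 3, 2] ![1, 0, 1, 0] ![Sum.inl 0, Sum.inr 0, Sum.inr 1] hu1 hu2 ?_ ?_
      · obtain ⟨e1, e2, e3⟩ := Mo_ez (S := k)
        intro i
        fin_cases i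
        · simp [Lv, hcc, e1]
        · simp [Lv, hcc, e2, hp0]
        · simp [Lv, hcc, e3, hp0]
      · obtain ⟨⟨e1, e2, e3⟩, ⟨e4, e5, e6⟩, ⟨e7, e8, e9⟩⟩ := pMo_ez (S := k)
        rw [Matrix.det_fin_three]
        simp only [Matrix.of_apply, Matrix.cons_val, Matrix.cons_val_zero, Matrix.cons_val_one,
          dLv, hcc, hp0, e1, e2, e3, e4, e5, e6, e7, e8, e9]
        have h9 : q / 2 * (t * (t - 1) * (q ^ 2 / 6)) * 2 ≠ 0 :=
          mul_ne_zero (mul_ne_zero (div_ne_zero hq0 h2) (mul_ne_zero (mul_ne_zero ht0 ht3)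
            (div_ne_zero (pow_ne_zero 2 hq0) h6))) h2
        intro h
        apply h9
        rw [← h]
        ring
    · by_cases hq0 : q = 0
      · refine hmain ![1, 0, 1, 0] ![0, 1, 3, 2] ![Sum.inl 0, Sum.inl 1, Sum.inr 0] hu2 hu1 ?_ ?_
        · obtain ⟨e1, e2, e3⟩ := Mo_ey (S := k)
          intro i
          fin_cases i
          · simp [Lv, hcc, e1]
          · simp [Lv, hcc, e2, hq0]
          · simp [Lv, hcc, e3, hq0]
        · obtain ⟨⟨e1, e2, e3⟩, ⟨e4, e5, e6⟩, ⟨e7, e8, e9⟩⟩ := pMo_ey (S := k)
          rw [Matrix.det_fin_three]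
          simp only [Matrix.of_apply, Matrix.cons_val, Matrix.cons_val_zero, Matrix.cons_val_one,
            dLv, hcc, hq0, e1, e2, e3, e4, e5, e6, e7, e8, e9]
          have h9 : p / 2 * (t * (t - 1) * (p ^ 2 / 6)) * 2 ≠ 0 :=
            mul_ne_zero (mul_ne_zero (div_ne_zero hp0 h2) (mul_ne_zero (mul_ne_zero ht0 ht3)
              (div_ne_zero (pow_ne_zero 2 hp0) h6))) h2
          intro h
          apply h9
          rw [← neg_eq_zero, ← h]
          ring
      · refine hmain (ax p⁻¹) (bx q⁻¹) ![Sum.inl 0, Sum.inr 0, Sum.inr 1]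
          (hne _ (inv_ne_zero hp0)).1 (hne _ (inv_ne_zero hq0)).2 ?_ ?_
        · obtain ⟨e1, e2, e3, e4, e5, e6⟩ := Mo_ex p⁻¹ q⁻¹
          intro i
          fin_cases i
          · simp [Lv, hcc, e1]
          · simp [Lv, hcc, e2, e3]
          · simp only [Lv, hcc, e1, e2, e3, e4, e5, e6, Fin.reduceFinMk, Matrix.cons_val]
            field_simp
            ring
        · obtain ⟨⟨e1, e2, e3⟩, ⟨e4, e5, e6⟩, ⟨e7, e8, e9⟩, ⟨e10, e11, e12⟩, ⟨e13, e14, e15⟩,
            ⟨e16, e17, e18⟩⟩ := pMo_ex p⁻¹ q⁻¹
          rw [Matrix.det_fin_three]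
          simp only [Matrix.of_apply, Matrix.cons_val, Matrix.cons_val_zero, Matrix.cons_val_one,
            dLv, hcc, e1, e2, e3, e4, e5, e6, e7, e8, e9, e10, e11, e12, e13, e14, e15, e16, e17,
            e18]
          have h9 : t * (t - 1) * 6 * (p⁻¹ * p⁻¹ * q⁻¹) ≠ 0 := 
            mul_ne_zero (mul_ne_zero (mul_ne_zero ht0 ht3) h6) (mul_ne_zero (mul_ne_zero
              (inv_ne_zero hp0) (inv_ne_zero hp0)) (inv_ne_zero hq0))
          intro h
          apply h9
          rw [← h]
          field_simp
          ring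
  · -- non-collinear
    set x1 := (ka 1 - ka 0) / 2 with hx1
    set y1 := (la 1 - la 0) / 2 with hy1
    set x2 := (ka 2 - ka 0) / 2 with hx2
    set y2 := (la 2 - la 0) / 2 with hy2
    have hxy : x1 * y2 - x2 * y1 ≠ 0 := by
      intro h
      apply hcol
      have h5 : (ka 1 - ka 0) * (la 2 - la 0) - (ka 2 - ka 0) * (la 1 - la 0) =
          4 * (x1 * y2 - x2 * y1) := by
        rw [hx1, hx2, hy1, hy2]
        field_simp
        ring
      rw [h5, h, mul_zero]
    set cc : Fin 3 → Fin 6 → k := ![![1, 0, 0, 0, 0, 0], ![0, x1, y1, 0, 0, 0],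
      ![0, x2, y2, 0, 0, 0]] with hcc
    obtain ⟨ε, z, hε, hz, hHz⟩ := fin_core (K := K)
      ![E 0, E 1 - E 0, E 2 - E 0]
      ![W 0 + X none * V 0 + X none ^ 2 * R 0,
        (V 1 - V 0) + X none * (R 1 - R 0),
        (V 2 - V 0) + X none * (R 2 - R 0)] ![2, 3, 3] cc (by
        intro i
        fin_cases i
        · simp only [Fin.zero_eta, Matrix.cons_val_zero, hcc]
          rw [hE' 0, Lc]
          simp
          ring
        · simp only [Fin.mk_one, Matrix.cons_val_one, Matrix.cons_val_zero, hcc]
          have h1 : Lc ![0, x1, y1, 0, 0, 0] = W 1 - W 0 := by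
            simp only [Lc, hW, Matrix.cons_val, map_zero]
            have h5 : (C ((ka 1 - 1) / 2) : Pk k) = C x1 + C ((ka 0 - 1) / 2) := by
              rw [← map_add]
              congr 1
              rw [hx1]
              ring
            have h7 : (C ((la 1 - 1) / 2) : Pk k) = C y1 + C ((la 0 - 1) / 2) := by
              rw [← map_add]
              congr 1
              rw [hy1]
              ring
            rw [h5, h7]
            ring
          rw [h1, hE' 0, hE' 1]
          ring
        · simp only [Fin.reduceFinMk, Matrix.cons_val, hcc]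
          have h1 : Lc ![0, x2, y2, 0, 0, 0] = W 2 - W 0 := by
            simp only [Lc, hW, Matrix.cons_val, map_zero]
            have h5 : (C ((ka 2 - 1) / 2) : Pk k) = C x2 + C ((ka 0 - 1) / 2) := by
              rw [← map_add]
              congr 1
              rw [hx2]
              ring
            have h7 : (C ((la 2 - 1) / 2) : Pk k) = C y2 + C ((la 0 - 1) / 2) := by
              rw [← map_add]
              congr 1
              rw [hy2]
              ring
            rw [h5, h7]
            ring
          rw [h1, hE' 0, hE' 2]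
          ring)
      (ax 1) (bx 1) ![Sum.inl 0, Sum.inr 0, Sum.inr 1] (by
        obtain ⟨e1, e2, e3, e4, e5, e6⟩ := Mo_ex (1 : k) 1
        intro i
        fin_cases i
        · simp [Lv, hcc, e1]
        · simp [Lv, hcc, e2, e3]
        · simp [Lv, hcc, e2, e3]) (by
        obtain ⟨⟨e1, e2, e3⟩, ⟨e4, e5, e6⟩, ⟨e7, e8, e9⟩, ⟨e10, e11, e12⟩, ⟨e13, e14, e15⟩,
          ⟨e16, e17, e18⟩⟩ := pMo_ex (1 : k) 1
        rw [Matrix.det_fin_three]
        simp only [Matrix.of_apply, Matrix.cons_val, Matrix.cons_val_zero, Matrix.cons_val_one,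
          dLv, hcc, e1, e2, e3, e4, e5, e6, e7, e8, e9, e10, e11, e12, e13, e14, e15, e16, e17,
          e18]
        have h9 : (x1 * y2 - x2 * y1) * (4 * 6 * 6) ≠ 0 :=
          mul_ne_zero hxy (mul_ne_zero (mul_ne_zero h4 h6) h6)
        intro h
        apply h9
        rw [← h]
        ring) H (hH (ax 1) (bx 1) (hne 1 one_ne_zero).1 (hne 1 one_ne_zero).2)
    refine ⟨ε, z, hε, fun i => ?_, hHz⟩
    have hz0 := hz 0
    have hz1 := hz 1
    have hz2 := hz 2
    simp only [Matrix.cons_val_zero, Matrix.cons_val_one, Matrix.cons_val, map_sub] at hz0 hz1 hz2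
    rw [hz0, sub_zero] at hz1 hz2
    fin_cases i
    · exact hz0
    · exact hz1
    · exact hz2

end Pool.Agent.H51.ADG
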