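import Mathlib

/-!
# Long cycles in abelian lifts of complete bipartite graphs
-/

open SimpleGraph

namespace Pool.Agent.H51.ADG

/-- the lift of the complete bipartite graph on `A` and `B` by the voltages `G` -/
def VG {A B V : Type*} [AddCommGroup V] (G : A → B → V) : SimpleGraph ((A ⊕ B) × V) where
  Adj p q := match p.1, q.1 with
    | Sum.inl x, Sum.inr y => q.2 = p.2 - G x y
    | Sum.inr y, Sum.inl x => p.2 = q.2 - G x y
    | _, _ => False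
  symm := ⟨by
    rintro ⟨x | y, s⟩ ⟨x' | y', s'⟩ h
    · exact h
    · exact h
    · exact h
    · exact h⟩
  loopless := ⟨by
    rintro ⟨x | y, s⟩ h
    · exact h
    · exact h⟩

/-- translation of the second coordinate -/
def tr {W V : Type*} [AddCommGroup V] (c : V) (p : W × V) : W × V := (p.1, p.2 + c)

theorem tr_adj {A B V : Type*} [AddCommGroup V] (G : A → B → V) (c : V) (p q : (A ⊕ B) × V)
    (h : (VG G).Adj p q) : (VG G).Adj (tr c p) (tr c q) := by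
  obtain ⟨x | y, s⟩ := p <;> obtain ⟨x' | y', s'⟩ := q
  · exact h
  · have h' : s' = s - G x y' := h
    change s' + c = s + c - G x y'
    rw [h']
    abel
  · have h' : s = s' - G x' y := h
    change s + c = s' + c - G x' y
    rw [h']
    abel
  · exact h

theorem exists_walk {W : Type*} (H : SimpleGraph W) (l : List W) : ∀ u v : W,
    List.IsChain H.Adj (u :: (l ++ [v])) → ∃ p : H.Walk u v, p.support = u :: (l ++ [v]) := by
  induction l with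
  | nil =>
    intro u v h
    have h1 : H.Adj u v := by simpa using h
    exact ⟨Walk.cons h1 Walk.nil, rfl⟩
  | cons w l ih =>
    intro u v h
    rw [List.cons_append, List.isChain_cons_cons] at h
    obtain ⟨p, hp⟩ := ih w v h.2
    exact ⟨Walk.cons h.1 p, by rw [Walk.support_cons, hp]; rfl⟩

/-- a cycle from a list of vertices -/
theorem list_cycle {W : Type*} (H : SimpleGraph W) (u : W) (l : List W)
    (hch : List.IsChain H.Adj (u :: (l ++ [u]))) (hnod : (u :: l).Nodup) (hl : 2 ≤ l.length) :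
    (cycleGraph (l.length + 1)).IsContained H := by
  obtain ⟨p, hp⟩ := exists_walk H l u u hch
  have hlen : p.length = l.length + 1 := by
    have h1 := p.length_support
    rw [hp] at h1
    simp at h1
    omega
  rw [cycleGraph_isContained_iff (by omega)]
  refine ⟨u, p, ?_, hlen⟩
  rw [Walk.isCycle_iff_isPath_tail_and_le_length]
  refine ⟨Walk.IsPath.mk' ?_, by omega⟩
  have hnn : ¬ p.Nil := by
    intro h
    have := Walk.length_eq_zero_iff.2 h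
    omega
  rw [Walk.support_tail_of_not_nil _ hnn, hp, List.tail_cons]
  rw [List.nodup_append]
  rw [List.nodup_cons] at hnod
  refine ⟨hnod.2, List.nodup_singleton u, ?_⟩
  intro a ha b hb hab
  rw [List.mem_singleton] at hb
  rw [hab, hb] at ha
  exact hnod.1 ha

theorem chain_tr {A B V : Type*} [AddCommGroup V] (G : A → B → V) (c : V)
    (l : List ((A ⊕ B) × V)) (h : List.IsChain (VG G).Adj l) :
    List.IsChain (VG G).Adj (l.map (tr c)) := by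
  rw [List.isChain_map]
  exact h.imp fun a b hab => tr_adj G c a b hab

theorem chain_rev {W : Type*} (H : SimpleGraph W) (l : List W) (h : List.IsChain H.Adj l) :
    List.IsChain H.Adj l.reverse := by
  rw [List.isChain_reverse]
  exact h.imp fun a b hab => hab.symm

theorem nodup_step {W : Type*} (L : List W) (v : W) (R : List W) (h1 : L.Nodup)
    (h2 : (v :: R).Nodup) (h3 : ∀ p ∈ L, p ≠ v) (h4 : ∀ p ∈ L, ∀ q ∈ R, p ≠ q) :
    (L ++ v :: R).Nodup := by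
  rw [List.nodup_append]
  refine ⟨h1, h2, fun p hp q hq => ?_⟩
  rcases List.mem_cons.1 hq with rfl | hq
  · exact h3 p hp
  · exact h4 p hp q hq

theorem tr_inj {W V : Type*} [AddCommGroup V] (c : V) : Function.Injective (tr c : W × V → W × V) := by
  rintro ⟨u, s⟩ ⟨u', s'⟩ h
  have h1 : u = u' := congrArg Prod.fst h
  have h2 : s + c = s' + c := congrArg Prod.snd h
  rw [h1, add_right_cancel h2]

theorem fs {W : Type*} {L S R : List W} {v : W} (h1 : ∀ p ∈ L, ∀ q ∈ S, p ≠ q)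
    (h2 : ∀ p ∈ L, p ≠ v) (h3 : ∀ p ∈ L, ∀ q ∈ R, p ≠ q) : ∀ p ∈ L, ∀ q ∈ S ++ v :: R, p ≠ q := by
  intro p hp q hq
  rcases List.mem_append.1 hq with hq | hq
  · exact h1 p hp q hq
  · rcases List.mem_cons.1 hq with rfl | hq
    · exact h2 p hp
    · exact h3 p hp q hq

theorem ns {W : Type*} {S R : List W} {u v : W} (h1 : u ∉ S) (h2 : u ≠ v) (h3 : u ∉ R) :
    u ∉ S ++ v :: R := by
  intro hq
  rcases List.mem_append.1 hq with hq | hq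
  · exact h1 hq
  · rcases List.mem_cons.1 hq with hq | hq
    · exact h2 hq
    · exact h3 hq

/-- the closed walk along three paths -/
theorem theta {A B V : Type*} [AddCommGroup V] (G : A → B → V) (x e : A ⊕ B) (hxe : x ≠ e)
    (l1 l2 l3 : List ((A ⊕ B) × V)) (g1 g2 g3 : V)
    (h1 : List.IsChain (VG G).Adj ((x, 0) :: (l1 ++ [(e, g1)])))
    (h2 : List.IsChain (VG G).Adj ((x, 0) :: (l2 ++ [(e, g2)])))
    (h3 : List.IsChain (VG G).Adj ((x, 0) :: (l3 ++ [(e, g3)])))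
    (n1 : (l1.map Prod.fst).Nodup) (n2 : (l2.map Prod.fst).Nodup) (n3 : (l3.map Prod.fst).Nodup)
    (a1 : ∀ p ∈ l1, p.1 ≠ x ∧ p.1 ≠ e) (a2 : ∀ p ∈ l2, p.1 ≠ x ∧ p.1 ≠ e)
    (a3 : ∀ p ∈ l3, p.1 ≠ x ∧ p.1 ≠ e)
    (d12 : ∀ p ∈ l1, ∀ q ∈ l2, p.1 ≠ q.1) (d13 : ∀ p ∈ l1, ∀ q ∈ l3, p.1 ≠ q.1)
    (d23 : ∀ p ∈ l2, ∀ q ∈ l3, p.1 ≠ q.1) (g12 : g1 ≠ g2) (g13 : g1 ≠ g3) (g23 : g2 ≠ g3)
    (n : ℕ) (hn : l1.length + l2.length + l3.length + 3 = n) :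
    (cycleGraph (2 * n)).IsContained (VG G) := by
  set a : V := g1 - g2 with ha
  set b : V := g3 - g2 with hb
  have hlen : (l1 ++ (e, g1) :: ((l2.map (tr a)).reverse ++ (x, a) :: (l3.map (tr a) ++
      (e, a + g3) :: ((l1.map (tr b)).reverse ++ (x, b) :: (l2.map (tr b) ++
      (e, g3) :: l3.reverse))))).length + 1 = 2 * n := by
    simp
    omega
  rw [← hlen]
  have tx : ∀ c : V, tr c (x, (0 : V)) = (x, c) := fun c => by simp [tr]
  have te : ∀ c g : V, tr c (e, g) = (e, g + c) := fun c g => rfl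
  refine list_cycle (VG G) (x, 0) _ ?_ ?_ ?_
  · -- the chain
    have c2 := chain_rev _ _ (chain_tr G a _ h2)
    have c3 := chain_tr G a _ h3
    have c4 := chain_rev _ _ (chain_tr G b _ h1)
    have c5 := chain_tr G b _ h2
    have c6 := chain_rev _ _ h3
    simp only [List.map_cons, List.map_append, List.map_nil, tx, te, List.reverse_cons,
      List.reverse_append, List.reverse_nil, List.nil_append,
      List.cons_append] at c2 c3 c4 c5 c6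
    have e1 : g2 + a = g1 := by rw [ha]; abel
    have e2 : g3 + a = a + g3 := add_comm _ _
    have e3 : g1 + b = a + g3 := by rw [ha, hb]; abel
    have e4 : g2 + b = g3 := by rw [hb]; abel
    rw [e1] at c2
    rw [e2] at c3
    rw [e3] at c4
    rw [e4] at c5
    simp only [List.cons_append, List.append_assoc]
    rw [← List.cons_append, List.isChain_split]
    refine ⟨h1, ?_⟩
    rw [← List.cons_append, List.isChain_split]
    refine ⟨c2, ?_⟩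
    rw [← List.cons_append, List.isChain_split]
    refine ⟨c3, ?_⟩
    rw [← List.cons_append, List.isChain_split]
    refine ⟨c4, ?_⟩
    rw [← List.cons_append, List.isChain_split]
    exact ⟨c5, c6⟩
  · -- distinct vertices
    have tdd : ∀ {l l' L L' : List ((A ⊕ B) × V)} {c c' : V}, (∀ p ∈ L, ∃ q ∈ l, tr c q = p) →
        (∀ p ∈ L', ∃ q ∈ l', tr c' q = p) → (∀ p ∈ l, ∀ q ∈ l', p.1 ≠ q.1) →
        ∀ p ∈ L, ∀ q ∈ L', p ≠ q := by
      intro l l' L L' c c' h1 h2 h p hp q hq hpq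
      obtain ⟨u, hu, rfl⟩ := h1 p hp
      obtain ⟨v, hv, rfl⟩ := h2 q hq
      have h3 : (tr c u).1 = (tr c' v).1 := congrArg Prod.fst hpq
      exact h u hu v hv h3
    have tsd : ∀ (l : List ((A ⊕ B) × V)) {L L' : List ((A ⊕ B) × V)} {c c' : V},
        (∀ p ∈ L, ∃ q ∈ l, tr c q = p) → (∀ p ∈ L', ∃ q ∈ l, tr c' q = p) →
        (l.map Prod.fst).Nodup → c ≠ c' → ∀ p ∈ L, ∀ q ∈ L', p ≠ q := by
      intro l L L' c c' h1 h2 n hc p hp q hq hpq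
      obtain ⟨u, hu, rfl⟩ := h1 p hp
      obtain ⟨v, hv, rfl⟩ := h2 q hq
      have h3 : (tr c u).1 = (tr c' v).1 := congrArg Prod.fst hpq
      have h4 : u = v := List.inj_on_of_nodup_map n hu hv h3
      subst h4
      have h5 : (tr c u).2 = (tr c' u).2 := congrArg Prod.snd hpq
      exact hc (add_left_cancel h5)
    have tbx : ∀ {l L : List ((A ⊕ B) × V)} {c : V}, (∀ p ∈ L, ∃ q ∈ l, tr c q = p) →
        (∀ p ∈ l, p.1 ≠ x ∧ p.1 ≠ e) → ∀ s : V, ∀ p ∈ L, p ≠ (x, s) := by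
      intro l L c h1 h s p hp hps
      obtain ⟨u, hu, rfl⟩ := h1 p hp
      exact (h u hu).1 (congrArg Prod.fst hps)
    have tbe : ∀ {l L : List ((A ⊕ B) × V)} {c : V}, (∀ p ∈ L, ∃ q ∈ l, tr c q = p) →
        (∀ p ∈ l, p.1 ≠ x ∧ p.1 ≠ e) → ∀ s : V, ∀ p ∈ L, p ≠ (e, s) := by
      intro l L c h1 h s p hp hps
      obtain ⟨u, hu, rfl⟩ := h1 p hp
      exact (h u hu).2 (congrArg Prod.fst hps)
    have t0 : ∀ u : (A ⊕ B) × V, tr 0 u = u := fun u => by simp [tr]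
    have ab : a ≠ b := by
      intro h
      apply g13
      rw [ha, hb] at h
      exact sub_left_injective h
    have a0 : a ≠ 0 := fun h => g12 (sub_eq_zero.1 h)
    have b0 : b ≠ 0 := fun h => g23 (sub_eq_zero.1 h).symm
    have xe : ∀ s t : V, (x, s) ≠ (e, t) := fun s t h => hxe (congrArg Prod.fst h)
    have xx : ∀ s t : V, s ≠ t → (x, s) ≠ (x, t) := fun s t hst h => hst (congrArg Prod.snd h)
    have ee : ∀ s t : V, s ≠ t → (e, s) ≠ (e, t) := fun s t hst h => hst (congrArg Prod.snd h)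
    have e13 : g1 ≠ a + g3 := by
      intro h
      apply g23
      have h5 : g1 = g1 + (g3 - g2) := by
        conv_lhs => rw [h]
        rw [ha]
        abel
      exact (sub_eq_zero.1 (left_eq_add.1 h5)).symm
    have e33 : a + g3 ≠ g3 := fun h => a0 (add_eq_right.1 h)
    have nd : ∀ (l : List ((A ⊕ B) × V)) (c : V), (l.map Prod.fst).Nodup →
        (l.map (tr c)).Nodup := fun l c h => (List.Nodup.of_map _ h).map (tr_inj c)
    have mt : ∀ (l : List ((A ⊕ B) × V)) (c : V), ∀ p ∈ l.map (tr c), ∃ q ∈ l, tr c q = p :=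
      fun l c p hp => List.mem_map.1 hp
    have mr : ∀ (l : List ((A ⊕ B) × V)) (c : V), ∀ p ∈ (l.map (tr c)).reverse,
        ∃ q ∈ l, tr c q = p := fun l c p hp => List.mem_map.1 (List.mem_reverse.1 hp)
    obtain ⟨L1, hL1⟩ : ∃ L, L = l1 := ⟨_, rfl⟩
    obtain ⟨L2, hL2⟩ : ∃ L, L = (l2.map (tr a)).reverse := ⟨_, rfl⟩
    obtain ⟨L3, hL3⟩ : ∃ L, L = l3.map (tr a) := ⟨_, rfl⟩
    obtain ⟨M1, hM1⟩ : ∃ L, L = (l1.map (tr b)).reverse := ⟨_, rfl⟩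
    obtain ⟨M2, hM2⟩ : ∃ L, L = l2.map (tr b) := ⟨_, rfl⟩
    obtain ⟨M3, hM3⟩ : ∃ L, L = l3.reverse := ⟨_, rfl⟩
    have TL1 : ∀ p ∈ L1, ∃ q ∈ l1, tr 0 q = p := by
      rw [hL1]
      exact fun p hp => ⟨p, hp, t0 p⟩
    have TL2 : ∀ p ∈ L2, ∃ q ∈ l2, tr a q = p := by
      rw [hL2]
      exact mr l2 a
    have TL3 : ∀ p ∈ L3, ∃ q ∈ l3, tr a q = p := by
      rw [hL3]
      exact mt l3 a
    have TM1 : ∀ p ∈ M1, ∃ q ∈ l1, tr b q = p := by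
      rw [hM1]
      exact mr l1 b
    have TM2 : ∀ p ∈ M2, ∃ q ∈ l2, tr b q = p := by
      rw [hM2]
      exact mt l2 b
    have TM3 : ∀ p ∈ M3, ∃ q ∈ l3, tr 0 q = p := by
      rw [hM3]
      exact fun p hp => ⟨p, List.mem_reverse.1 hp, t0 p⟩
    have NL1 : L1.Nodup := by rw [hL1]; exact List.Nodup.of_map _ n1
    have NL2 : L2.Nodup := by rw [hL2]; exact List.nodup_reverse.2 (nd l2 a n2)
    have NL3 : L3.Nodup := by rw [hL3]; exact nd l3 a n3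
    have NM1 : M1.Nodup := by rw [hM1]; exact List.nodup_reverse.2 (nd l1 b n1)
    have NM2 : M2.Nodup := by rw [hM2]; exact nd l2 b n2
    have NM3 : M3.Nodup := by rw [hM3]; exact List.nodup_reverse.2 (List.Nodup.of_map _ n3)
    rw [← hL2, ← hL3, ← hM1, ← hM2, ← hM3]
    conv =>
      arg 1
      rw [← hL1]
    have k0_1 : (x, (0 : V)) ∉ L1 := fun h => tbx TL1 a1 (0) _ h rfl
    have k0_2 : (x, (0 : V)) ≠ (e, (g1 : V)) := xe _ _
    have k0_3 : (x, (0 : V)) ∉ L2 := fun h => tbx TL2 a2 (0) _ h rfl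
    have k0_4 : (x, (0 : V)) ≠ (x, (a : V)) := xx _ _ a0.symm
    have k0_5 : (x, (0 : V)) ∉ L3 := fun h => tbx TL3 a3 (0) _ h rfl
    have k0_6 : (x, (0 : V)) ≠ (e, (a + g3 : V)) := xe _ _
    have k0_7 : (x, (0 : V)) ∉ M1 := fun h => tbx TM1 a1 (0) _ h rfl
    have k0_8 : (x, (0 : V)) ≠ (x, (b : V)) := xx _ _ b0.symm
    have k0_9 : (x, (0 : V)) ∉ M2 := fun h => tbx TM2 a2 (0) _ h rfl
    have k0_10 : (x, (0 : V)) ≠ (e, (g3 : V)) := xe _ _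
    have k0_11 : (x, (0 : V)) ∉ M3 := fun h => tbx TM3 a3 (0) _ h rfl
    have k1_2 : ∀ p ∈ L1, p ≠ (e, (g1 : V)) := tbe TL1 a1 (g1)
    have k1_3 : ∀ p ∈ L1, ∀ q ∈ L2, p ≠ q := tdd TL1 TL2 d12
    have k1_4 : ∀ p ∈ L1, p ≠ (x, (a : V)) := tbx TL1 a1 (a)
    have k1_5 : ∀ p ∈ L1, ∀ q ∈ L3, p ≠ q := tdd TL1 TL3 d13
    have k1_6 : ∀ p ∈ L1, p ≠ (e, (a + g3 : V)) := tbe TL1 a1 (a + g3)
    have k1_7 : ∀ p ∈ L1, ∀ q ∈ M1, p ≠ q := tsd l1 TL1 TM1 n1 b0.symm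
    have k1_8 : ∀ p ∈ L1, p ≠ (x, (b : V)) := tbx TL1 a1 (b)
    have k1_9 : ∀ p ∈ L1, ∀ q ∈ M2, p ≠ q := tdd TL1 TM2 d12
    have k1_10 : ∀ p ∈ L1, p ≠ (e, (g3 : V)) := tbe TL1 a1 (g3)
    have k1_11 : ∀ p ∈ L1, ∀ q ∈ M3, p ≠ q := tdd TL1 TM3 d13
    have k2_3 : (e, (g1 : V)) ∉ L2 := fun h => tbe TL2 a2 (g1) _ h rfl
    have k2_4 : (e, (g1 : V)) ≠ (x, (a : V)) := (xe _ _).symm
    have k2_5 : (e, (g1 : V)) ∉ L3 := fun h => tbe TL3 a3 (g1) _ h rfl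
    have k2_6 : (e, (g1 : V)) ≠ (e, (a + g3 : V)) := ee _ _ e13
    have k2_7 : (e, (g1 : V)) ∉ M1 := fun h => tbe TM1 a1 (g1) _ h rfl
    have k2_8 : (e, (g1 : V)) ≠ (x, (b : V)) := (xe _ _).symm
    have k2_9 : (e, (g1 : V)) ∉ M2 := fun h => tbe TM2 a2 (g1) _ h rfl
    have k2_10 : (e, (g1 : V)) ≠ (e, (g3 : V)) := ee _ _ g13
    have k2_11 : (e, (g1 : V)) ∉ M3 := fun h => tbe TM3 a3 (g1) _ h rfl
    have k3_4 : ∀ p ∈ L2, p ≠ (x, (a : V)) := tbx TL2 a2 (a)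
    have k3_5 : ∀ p ∈ L2, ∀ q ∈ L3, p ≠ q := tdd TL2 TL3 d23
    have k3_6 : ∀ p ∈ L2, p ≠ (e, (a + g3 : V)) := tbe TL2 a2 (a + g3)
    have k3_7 : ∀ p ∈ L2, ∀ q ∈ M1, p ≠ q := tdd TL2 TM1 (fun p hp q hq h => d12 q hq p hp h.symm)
    have k3_8 : ∀ p ∈ L2, p ≠ (x, (b : V)) := tbx TL2 a2 (b)
    have k3_9 : ∀ p ∈ L2, ∀ q ∈ M2, p ≠ q := tsd l2 TL2 TM2 n2 ab
    have k3_10 : ∀ p ∈ L2, p ≠ (e, (g3 : V)) := tbe TL2 a2 (g3)
    have k3_11 : ∀ p ∈ L2, ∀ q ∈ M3, p ≠ q := tdd TL2 TM3 d23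
    have k4_5 : (x, (a : V)) ∉ L3 := fun h => tbx TL3 a3 (a) _ h rfl
    have k4_6 : (x, (a : V)) ≠ (e, (a + g3 : V)) := xe _ _
    have k4_7 : (x, (a : V)) ∉ M1 := fun h => tbx TM1 a1 (a) _ h rfl
    have k4_8 : (x, (a : V)) ≠ (x, (b : V)) := xx _ _ ab
    have k4_9 : (x, (a : V)) ∉ M2 := fun h => tbx TM2 a2 (a) _ h rfl
    have k4_10 : (x, (a : V)) ≠ (e, (g3 : V)) := xe _ _
    have k4_11 : (x, (a : V)) ∉ M3 := fun h => tbx TM3 a3 (a) _ h rfl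
    have k5_6 : ∀ p ∈ L3, p ≠ (e, (a + g3 : V)) := tbe TL3 a3 (a + g3)
    have k5_7 : ∀ p ∈ L3, ∀ q ∈ M1, p ≠ q := tdd TL3 TM1 (fun p hp q hq h => d13 q hq p hp h.symm)
    have k5_8 : ∀ p ∈ L3, p ≠ (x, (b : V)) := tbx TL3 a3 (b)
    have k5_9 : ∀ p ∈ L3, ∀ q ∈ M2, p ≠ q := tdd TL3 TM2 (fun p hp q hq h => d23 q hq p hp h.symm)
    have k5_10 : ∀ p ∈ L3, p ≠ (e, (g3 : V)) := tbe TL3 a3 (g3)
    have k5_11 : ∀ p ∈ L3, ∀ q ∈ M3, p ≠ q := tsd l3 TL3 TM3 n3 a0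
    have k6_7 : (e, (a + g3 : V)) ∉ M1 := fun h => tbe TM1 a1 (a + g3) _ h rfl
    have k6_8 : (e, (a + g3 : V)) ≠ (x, (b : V)) := (xe _ _).symm
    have k6_9 : (e, (a + g3 : V)) ∉ M2 := fun h => tbe TM2 a2 (a + g3) _ h rfl
    have k6_10 : (e, (a + g3 : V)) ≠ (e, (g3 : V)) := ee _ _ e33
    have k6_11 : (e, (a + g3 : V)) ∉ M3 := fun h => tbe TM3 a3 (a + g3) _ h rfl
    have k7_8 : ∀ p ∈ M1, p ≠ (x, (b : V)) := tbx TM1 a1 (b)
    have k7_9 : ∀ p ∈ M1, ∀ q ∈ M2, p ≠ q := tdd TM1 TM2 d12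
    have k7_10 : ∀ p ∈ M1, p ≠ (e, (g3 : V)) := tbe TM1 a1 (g3)
    have k7_11 : ∀ p ∈ M1, ∀ q ∈ M3, p ≠ q := tdd TM1 TM3 d13
    have k8_9 : (x, (b : V)) ∉ M2 := fun h => tbx TM2 a2 (b) _ h rfl
    have k8_10 : (x, (b : V)) ≠ (e, (g3 : V)) := xe _ _
    have k8_11 : (x, (b : V)) ∉ M3 := fun h => tbx TM3 a3 (b) _ h rfl
    have k9_10 : ∀ p ∈ M2, p ≠ (e, (g3 : V)) := tbe TM2 a2 (g3)
    have k9_11 : ∀ p ∈ M2, ∀ q ∈ M3, p ≠ q := tdd TM2 TM3 d23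
    have k10_11 : (e, (g3 : V)) ∉ M3 := fun h => tbe TM3 a3 (g3) _ h rfl
    exact List.nodup_cons.2 ⟨ns k0_1 k0_2 (ns k0_3 k0_4 (ns k0_5 k0_6 (ns k0_7 k0_8 (ns k0_9 k0_10 (k0_11))))), nodup_step _ _ _ NL1 (List.nodup_cons.2 ⟨ns k2_3 k2_4 (ns k2_5 k2_6 (ns k2_7 k2_8 (ns k2_9 k2_10 (k2_11)))), nodup_step _ _ _ NL2 (List.nodup_cons.2 ⟨ns k4_5 k4_6 (ns k4_7 k4_8 (ns k4_9 k4_10 (k4_11))), nodup_step _ _ _ NL3 (List.nodup_cons.2 ⟨ns k6_7 k6_8 (ns k6_9 k6_10 (k6_11)), nodup_step _ _ _ NM1 (List.nodup_cons.2 ⟨ns k8_9 k8_10 (k8_11), nodup_step _ _ _ NM2 (List.nodup_cons.2 ⟨k10_11, NM3⟩) k9_10 (k9_11)⟩) k7_8 (fs k7_9 k7_10 (k7_11))⟩) k5_6 (fs k5_7 k5_8 (fs k5_9 k5_10 (k5_11)))⟩) k3_4 (fs k3_5 k3_6 (fs k3_7 k3_8 (fs k3_9 k3_10 (k3_11))))⟩) k1_2 (fs k1_3 k1_4 (fs k1_5 k1_6 (fs k1_7 k1_8 (fs k1_9 k1_10 (k1_11)))))⟩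
  · simp
    omega

end Pool.Agent.H51.ADG
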