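import Pool.Agent.H51.ADG.Prim
import Pool.Agent.H51.ADG.Ultra

/-!
# Uniform extension degrees for finite fields
-/

open Polynomial

namespace Pool.Agent.H51.ADG

/-- a quotient of a product of finite fields is perfect -/
theorem perfect_quot {ι : Type} (F : ι → Type) [∀ i, Field (F i)] [∀ i, Finite (F i)]
    (M : Ideal (∀ i, F i)) (hM : M.IsMaximal) :
    letI : Field ((∀ i, F i) ⧸ M) := Ideal.Quotient.field M
    PerfectField ((∀ i, F i) ⧸ M) := by
  classical
  let _ : Field ((∀ i, F i) ⧸ M) := Ideal.Quotient.field M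
  change PerfectField ((∀ i, F i) ⧸ M)
  obtain ⟨p, hp⟩ := CharP.exists ((∀ i, F i) ⧸ M)
  rcases CharP.char_is_prime_or_zero ((∀ i, F i) ⧸ M) p with hpp | hp0
  · have : Fact p.Prime := ⟨hpp⟩
    have hexp : ExpChar ((∀ i, F i) ⧸ M) p := ExpChar.prime hpp
    have : PerfectRing ((∀ i, F i) ⧸ M) p := by
      refine PerfectRing.ofSurjective _ p fun x => ?_
      obtain ⟨r, rfl⟩ := Ideal.Quotient.mk_surjective x
      have hroot : ∀ i, ∃ y : F i, ((p : ℕ) : F i) = 0 → y ^ p = r i := by
        intro i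
        by_cases h : ((p : ℕ) : F i) = 0
        · have : CharP (F i) p := (CharP.charP_iff_prime_eq_zero hpp).2 h
          have : ExpChar (F i) p := ExpChar.prime hpp
          obtain ⟨y, hy⟩ := Finite.surjective_of_injective (frobenius_inj (F i) p) (r i)
          exact ⟨y, fun _ => hy⟩
        · exact ⟨0, fun h' => absurd h' h⟩
      choose y hy using hroot
      refine ⟨Ideal.Quotient.mk M y, ?_⟩
      rw [frobenius_def, ← map_pow, Ideal.Quotient.eq]
      have hpM : ((p : ℕ) : ∀ i, F i) ∈ M := by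
        rw [← Ideal.Quotient.eq_zero_iff_mem, map_natCast]
        exact CharP.cast_eq_zero _ p
      have h1 : y ^ p - r = ((p : ℕ) : ∀ i, F i) *
          (fun i => if ((p : ℕ) : F i) = 0 then 0 else (y i ^ p - r i) / ((p : ℕ) : F i)) := by
        funext i
        rw [Pi.sub_apply, Pi.pow_apply, Pi.mul_apply, Pi.natCast_apply]
        by_cases h : ((p : ℕ) : F i) = 0
        · rw [if_pos h, hy i h, sub_self, mul_zero]
        · rw [if_neg h, mul_div_cancel₀ _ h]
      rw [h1]
      exact Ideal.mul_mem_right _ _ hpM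
    exact PerfectRing.toPerfectField _ p
  · subst hp0
    have : CharZero ((∀ i, F i) ⧸ M) := CharP.charP_to_charZero _
    infer_instance

/-- a counterexample for the extension degree `n` -/
structure Bad (D n : ℕ) : Type 1 where
  F : Type
  fF : Field F
  hF : Finite F
  hchar : ∀ m : ℕ, 1 ≤ m → m ≤ D → (m : F) ≠ 0
  f : Fin 3 → MvPolynomial (Fin 2) F
  hf : ∀ i j, (f i).degreeOf j ≤ D
  E : Type
  fE : Field E
  hE : Finite E
  alg : Algebra F E
  hdvd : n ∣ Module.finrank F E
  hbad : ¬ (SimpleGraph.cycleGraph 8).IsContained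
    (Gam fun i => MvPolynomial.map (algebraMap F E) (f i))

instance {D n : ℕ} (B : Bad D n) : Field B.F := B.fF
instance {D n : ℕ} (B : Bad D n) : Finite B.F := B.hF
instance {D n : ℕ} (B : Bad D n) : Field B.E := B.fE
instance {D n : ℕ} (B : Bad D n) : Finite B.E := B.hE
instance {D n : ℕ} (B : Bad D n) : Algebra B.F B.E := B.alg

theorem mk_poly_zero {R : Type*} [CommRing R] (M : Ideal R) (Z : R[X])
    (h : Z.map (Ideal.Quotient.mk M) = 0) (n : ℕ) : Z.coeff n ∈ M := by
  rw [← Ideal.Quotient.eq_zero_iff_mem, ← coeff_map, h, coeff_zero]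

/-- the extension degree depends only on the bound for the degrees -/
theorem c8_uniform (D : ℕ) (hD : 4 ≤ D) : ∃ n : ℕ, 1 ≤ n ∧ ∀ (F : Type) [Field F] [Finite F],
    (∀ m : ℕ, 1 ≤ m → m ≤ D → (m : F) ≠ 0) → ∀ f : Fin 3 → MvPolynomial (Fin 2) F,
    (∀ i j, (f i).degreeOf j ≤ D) → ∀ (E : Type) [Field E] [Finite E] [Algebra F E],
    n ∣ Module.finrank F E → (SimpleGraph.cycleGraph 8).IsContained
      (Gam fun i => MvPolynomial.map (algebraMap F E) (f i)) := by
  classical
  by_contra hcon
  have hB : ∀ k : ℕ, Nonempty (Bad D (k + 1).factorial) := by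
    intro k
    by_contra hne
    apply hcon
    refine ⟨(k + 1).factorial, Nat.factorial_pos _, ?_⟩
    intro F _ _ hchar f hf E _ _ _ hdvd
    by_contra hbad
    exact hne ⟨⟨F, inferInstance, inferInstance, hchar, f, hf, E, inferInstance, inferInstance,
      inferInstance, hdvd, hbad⟩⟩
  obtain ⟨B⟩ : Nonempty (∀ k : ℕ, Bad D (k + 1).factorial) := ⟨fun k => (hB k).some⟩
  obtain ⟨M, hM, hMT⟩ := exists_ultra (fun k => (B k).F)
  have hperf := perfect_quot (fun k => (B k).F) M hM
  let _ : Field ((∀ k, (B k).F) ⧸ M) := Ideal.Quotient.field M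
  have _ : PerfectField ((∀ k, (B k).F) ⧸ M) := hperf
  set mk := Ideal.Quotient.mk M with hmk
  set U : Fin 3 → ℕ → ∀ k, (B k).F := fun i n k => uc D ((B k).f i) n with hU
  by_cases hpure : ∀ i, ∀ n ∈ Smix D, U i n ∈ M
  · have hinf := hMT ((Finset.univ ×ˢ Smix D).image fun x : Fin 3 × ℕ => U x.1 x.2) (by
      intro y hy
      obtain ⟨⟨i, n⟩, hin, rfl⟩ := Finset.mem_image.1 hy
      exact hpure i n (Finset.mem_product.1 hin).2)
    obtain ⟨k, hk⟩ := hinf.nonempty
    have hne : ∀ m : ℕ, 1 ≤ m → m ≤ D → (m : (B k).E) ≠ 0 := by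
      intro m h1 h2 h3
      apply (B k).hchar m h1 h2
      rw [← map_natCast (algebraMap (B k).F (B k).E) m] at h3
      exact (map_eq_zero (algebraMap (B k).F (B k).E)).1 h3
    apply (B k).hbad
    refine c8_of_pure D (B k).f (B k).hf _ one_ne_zero ?_ ?_ (fun i n hn => ?_)
    · exact_mod_cast hne 2 (by omega) (by omega)
    · exact_mod_cast hne 3 (by omega) (by omega)
    · have h1 : U i n k = 0 := hk _ (Finset.mem_image.2
        ⟨(i, n), Finset.mem_product.2 ⟨Finset.mem_univ i, hn⟩, rfl⟩)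
      have h2 : uc D ((B k).f i) n = 0 := h1
      rw [h2, map_zero]
  · push Not at hpure
    obtain ⟨i0, n0, hn0, hi0⟩ := hpure
    obtain ⟨g, pa, pb, pc, hgm, hgi, hclo, hHH⟩ := prim (k := (∀ k, (B k).F) ⧸ M) D hD
      (by
        intro m h1 h2 h3
        have h4 : mk ((m : ℕ) : ∀ k, (B k).F) = 0 := by
          rw [map_natCast]
          exact h3
        have h5 : ((m : ℕ) : ∀ k, (B k).F) ∈ M := Ideal.Quotient.eq_zero_iff_mem.1 h4
        apply hM.ne_top
        rw [Ideal.eq_top_iff_one]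
        have h6 : (1 : ∀ k, (B k).F) = ((m : ℕ) : ∀ k, (B k).F) *
            (fun k => ((m : ℕ) : (B k).F)⁻¹) := by
          funext k
          rw [Pi.mul_apply, Pi.natCast_apply, Pi.one_apply,
            mul_inv_cancel₀ ((B k).hchar m h1 h2)]
        rw [h6]
        exact Ideal.mul_mem_right _ _ h5)
      (fun i n => mk (U i n))
      (fun i m hm => by
        have h1 : U i m = 0 := by
          funext k
          change uc D ((B k).f i) m = 0
          rw [uc, if_neg hm]
        rw [h1, map_zero]) i0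
      ⟨n0, fun h => hi0 (Ideal.Quotient.eq_zero_iff_mem.1 h)⟩
    have hsurj : Function.Surjective (map mk : (∀ k, (B k).F)[X] → ((∀ k, (B k).F) ⧸ M)[X]) :=
      map_surjective mk Ideal.Quotient.mk_surjective
    obtain ⟨G, hG, hGdeg, hGm⟩ := lifts_and_natDegree_eq_and_monic
      ((mem_lifts g).2 (hsurj g)) hgm
    choose Pa hPa using fun j => hsurj (pa j)
    choose Pb hPb using fun j => hsurj (pb j)
    obtain ⟨Pc, hPc⟩ := hsurj pc
    choose q hq using hclo
    choose Q hQ using fun i => hsurj (q i)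
    obtain ⟨q', hq'⟩ := hHH
    obtain ⟨Q', hQ'⟩ := hsurj q'
    set Z : Fin 3 → (∀ k, (B k).F)[X] := fun i =>
      Clo D (fun n => C (U i n)) Pa Pb - G * Q i with hZ
    set Z' : (∀ k, (B k).F)[X] := Pc * HH D (fun n => C (U i0 n)) Pa Pb - 1 - G * Q' with hZ'
    have hZ0 : ∀ i, (Z i).map mk = 0 := by
      intro i
      have h1 := map_Clo (mapRingHom mk) D (fun n => C (U i n)) Pa Pb
      simp only [coe_mapRingHom, map_C, hPa, hPb] at h1
      have h2 : (Clo D (fun n => C (U i n)) Pa Pb).map mk =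
        Clo D (fun n => C (mk (U i n))) pa pb := h1
      simp only [hZ, Polynomial.map_sub, Polynomial.map_mul]
      rw [h2, hG, hQ, ← hq i, sub_self]
    have hZ'0 : Z'.map mk = 0 := by
      have h1 := map_HH (mapRingHom mk) D (fun n => C (U i0 n)) Pa Pb
      simp only [coe_mapRingHom, map_C, hPa, hPb] at h1
      have h2 : (HH D (fun n => C (U i0 n)) Pa Pb).map mk =
        HH D (fun n => C (mk (U i0 n))) pa pb := h1
      simp only [hZ', Polynomial.map_sub, Polynomial.map_mul, Polynomial.map_one]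
      rw [h2, hG, hPc, hQ', hq', sub_self]
    set T : Finset (∀ k, (B k).F) := (Z'.support.image Z'.coeff) ∪
      Finset.univ.biUnion fun i => (Z i).support.image (Z i).coeff with hT
    have hinf := hMT T (by
      intro y hy
      rcases Finset.mem_union.1 hy with hy | hy
      · obtain ⟨n, -, rfl⟩ := Finset.mem_image.1 hy
        exact mk_poly_zero M Z' hZ'0 n
      · obtain ⟨i, -, hy⟩ := Finset.mem_biUnion.1 hy
        obtain ⟨n, -, rfl⟩ := Finset.mem_image.1 hy
        exact mk_poly_zero M (Z i) (hZ0 i) n)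
    obtain ⟨k, hk, hkd⟩ := hinf.exists_gt g.natDegree
    set π : (∀ k, (B k).F) →+* (B k).F := Pi.evalRingHom (fun k => (B k).F) k with hπ
    have hZk : ∀ i, (Z i).map π = 0 := by
      intro i
      ext n
      rw [coeff_map, coeff_zero]
      by_cases hn : (Z i).coeff n = 0
      · rw [hn, map_zero]
      · exact hk _ (Finset.mem_union_right _ (Finset.mem_biUnion.2 ⟨i, Finset.mem_univ i,
          Finset.mem_image.2 ⟨n, mem_support_iff.2 hn, rfl⟩⟩))
    have hZ'k : Z'.map π = 0 := by
      ext n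
      rw [coeff_map, coeff_zero]
      by_cases hn : Z'.coeff n = 0
      · rw [hn, map_zero]
      · exact hk _ (Finset.mem_union_left _ (Finset.mem_image.2 ⟨n, mem_support_iff.2 hn, rfl⟩))
    have hGk : (G.map π).natDegree = g.natDegree := by
      rw [hGm.natDegree_map, hGdeg]
    obtain ⟨ψ, hψ, hψG⟩ := exists_irreducible_of_natDegree_pos (f := G.map π)
      (by rw [hGk]; exact hgi.natDegree_pos)
    have hψdeg : ψ.natDegree ≤ g.natDegree := by
      rw [← hGk]
      exact natDegree_le_of_dvd hψG (hGm.map π).ne_zero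
    have _ : Fact (Irreducible ψ) := ⟨hψ⟩
    have hfr : Module.finrank (B k).F (AdjoinRoot ψ) = ψ.natDegree := by
      rw [(AdjoinRoot.powerBasis hψ.ne_zero).finrank, AdjoinRoot.powerBasis_dim]
    have hdvd : Module.finrank (B k).F (AdjoinRoot ψ) ∣ Module.finrank (B k).F (B k).E := by
      rw [hfr]
      refine (Nat.dvd_factorial hψ.natDegree_pos ?_).trans (B k).hdvd
      omega
    obtain ⟨σ⟩ := FiniteField.nonempty_algHom_of_finrank_dvd hdvd
    set ρ : (B k).E := σ (AdjoinRoot.root ψ) with hρ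
    have hρψ : aeval ρ ψ = 0 := by
      have h1 : aeval (AdjoinRoot.root ψ) ψ = 0 := by
        rw [AdjoinRoot.aeval_eq, AdjoinRoot.mk_self]
      rw [hρ, aeval_algHom_apply, h1, map_zero]
    set Θ : (∀ k, (B k).F)[X] →+* (B k).E :=
      ((aeval ρ : (B k).F[X] →ₐ[(B k).F] (B k).E) : (B k).F[X] →+* (B k).E).comp
        (mapRingHom π) with hΘ
    have hΘv : ∀ P, Θ P = aeval ρ (P.map π) := fun P => rfl
    have hΘG : Θ G = 0 := by
      rw [hΘv]
      obtain ⟨w, hw⟩ := hψG
      rw [hw, map_mul, hρψ, zero_mul]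
    have hΘC : ∀ i n, Θ (C (U i n)) = algebraMap (B k).F (B k).E (uc D ((B k).f i) n) := by
      intro i n
      rw [hΘv, map_C, aeval_C]
      rfl
    apply (B k).hbad
    refine c8_of_HH D (B k).f (B k).hf (algebraMap (B k).F (B k).E) (fun j => Θ (Pa j))
      (fun j => Θ (Pb j)) (fun i => ?_) i0 ?_
    · have h1 := map_Clo Θ D (fun n => C (U i n)) Pa Pb
      simp only [hΘC] at h1
      rw [← h1]
      have h2 : Θ (Z i) = 0 := by rw [hΘv, hZk i, map_zero]
      simp only [hZ] at h2
      rw [map_sub, map_mul, hΘG, zero_mul, sub_zero] at h2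
      exact h2
    · have h1 := map_HH Θ D (fun n => C (U i0 n)) Pa Pb
      simp only [hΘC] at h1
      rw [← h1]
      intro h3
      have h2 : Θ Z' = 0 := by rw [hΘv, hZ'k, map_zero]
      simp only [hZ'] at h2
      rw [map_sub, map_sub, map_mul, map_mul, hΘG, h3, mul_zero, zero_mul, map_one, sub_zero,
        zero_sub, neg_eq_zero] at h2
      exact one_ne_zero h2

end Pool.Agent.H51.ADG
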